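import Pool.Agent.KLev.Final

/-!
# Levels of arrangements of `x`-monotone arcs
-/

namespace KLev.Arcs

open Finset Filter Topology

/-- An `x`-monotone Jordan arc: the graph of a continuous function on the interval
`[lo, hi]`. -/
structure Arc where
  lo : ℝ
  hi : ℝ
  lo_lt_hi : lo < hi
  f : ℝ → ℝ
  cont : ContinuousOn f (Set.Icc lo hi)

/-- The arc as a set of points of the plane. -/
def Arc.points (A : Arc) : Set (ℝ × ℝ) := {p | p.1 ∈ Set.Icc A.lo A.hi ∧ p.2 = A.f p.1}

/-- A family of `n` arcs, every two of which have at most `s` common points. -/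
def IsFamily (s : ℕ) {n : ℕ} (Γ : Fin n → Arc) : Prop :=
  ∀ i j, i ≠ j → ((Γ i).points ∩ (Γ j).points).encard ≤ s

/-- The vertices of the arrangement: the arc endpoints and the pairwise intersection points. -/
def vertices {n : ℕ} (Γ : Fin n → Arc) : Set (ℝ × ℝ) :=
  {p | (∃ i, p = ((Γ i).lo, (Γ i).f (Γ i).lo) ∨ p = ((Γ i).hi, (Γ i).f (Γ i).hi)) ∨
    ∃ i j, i ≠ j ∧ p ∈ (Γ i).points ∩ (Γ j).points}

open scoped Classical in
/-- The number of arcs passing strictly below the point `p` on its vertical line. -/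
noncomputable def below {n : ℕ} (Γ : Fin n → Arc) (p : ℝ × ℝ) : ℕ :=
  (Finset.univ.filter (fun i => p.1 ∈ Set.Icc (Γ i).lo (Γ i).hi ∧ (Γ i).f p.1 < p.2)).card

/-- The `k`-level of the arrangement. -/
def kLevel {n : ℕ} (Γ : Fin n → Arc) (k : ℕ) : Set (ℝ × ℝ) :=
  closure {p | (∃ i, p ∈ (Γ i).points) ∧ below Γ p = k}

/-- The complexity of the `k`-level: the number of vertices of the arrangement on it. -/
noncomputable def complexity {n : ℕ} (Γ : Fin n → Arc) (k : ℕ) : ℕ :=
  (vertices Γ ∩ kLevel Γ k).ncard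

/-- `Psi s n`: the maximum of the complexity of the `k`-level over all families of `n` arcs,
every two of which have at most `s` common points, and all `k < n`. -/
noncomputable def Psi (s n : ℕ) : ℕ :=
  sSup {c : ℕ | ∃ Γ : Fin n → Arc, IsFamily s Γ ∧ ∃ k < n, complexity Γ k = c}

lemma vertices_subset {n : ℕ} (Γ : Fin n → Arc) : vertices Γ ⊆
    (Set.range (fun i => ((Γ i).lo, (Γ i).f (Γ i).lo)) ∪
      Set.range (fun i => ((Γ i).hi, (Γ i).f (Γ i).hi))) ∪
    ⋃ z : {z : Fin n × Fin n // z.1 ≠ z.2}, (Γ z.1.1).points ∩ (Γ z.1.2).points := by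
  rintro p (⟨i, rfl | rfl⟩ | ⟨i, j, hij, h⟩)
  · exact Or.inl (Or.inl ⟨i, rfl⟩)
  · exact Or.inl (Or.inr ⟨i, rfl⟩)
  · exact Or.inr (Set.mem_iUnion.mpr ⟨⟨(i, j), hij⟩, h⟩)

lemma vertices_encard {s n : ℕ} (Γ : Fin n → Arc) (hΓ : IsFamily s Γ) :
    (vertices Γ).encard ≤ ((n + n + n * n * s : ℕ) : ℕ∞) := by
  classical
  have h1 : ∀ g : Fin n → ℝ × ℝ, (Set.range g).encard ≤ (n : ℕ∞) := by
    intro g
    rw [← Set.image_univ]
    refine (Set.encard_image_le _ _).trans ?_
    rw [Set.encard_univ]; simp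
  refine (Set.encard_le_encard (vertices_subset Γ)).trans ?_
  refine (Set.encard_union_le _ _).trans ?_
  refine (add_le_add ((Set.encard_union_le _ _).trans (add_le_add (h1 _) (h1 _)))
    (Set.encard_iUnion_le_of_fintype _)).trans ?_
  have h2 : ∑ z : {z : Fin n × Fin n // z.1 ≠ z.2},
      ((Γ z.1.1).points ∩ (Γ z.1.2).points).encard ≤
      ∑ _z : {z : Fin n × Fin n // z.1 ≠ z.2}, (s : ℕ∞) :=
    Finset.sum_le_sum (fun z _ => hΓ _ _ z.2)
  have h3 : (∑ _z : {z : Fin n × Fin n // z.1 ≠ z.2}, (s : ℕ∞)) ≤ ((n * n * s : ℕ) : ℕ∞) := by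
    rw [Finset.sum_const, nsmul_eq_mul, ← Nat.cast_mul, Nat.cast_le]
    apply Nat.mul_le_mul_right
    rw [Finset.card_univ]
    refine (Fintype.card_subtype_le _).trans ?_
    simp
  refine (add_le_add le_rfl (h2.trans h3)).trans ?_
  push_cast
  exact le_rfl

lemma vertices_finite {s n : ℕ} (Γ : Fin n → Arc) (hΓ : IsFamily s Γ) : (vertices Γ).Finite :=
  Set.finite_of_encard_le_coe (vertices_encard Γ hΓ)

lemma le_Psi {s n k : ℕ} (Γ : Fin n → Arc) (hΓ : IsFamily s Γ) (hk : k < n) :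
    complexity Γ k ≤ Psi s n := by
  apply le_csSup
  · refine ⟨n + n + n * n * s, ?_⟩
    rintro c ⟨Δ, hΔ, l, -, rfl⟩
    have h1 : complexity Δ l ≤ (vertices Δ).ncard :=
      Set.ncard_le_ncard Set.inter_subset_left (vertices_finite Δ hΔ)
    refine h1.trans ?_
    have h2 := vertices_encard Δ hΔ
    rw [← (vertices_finite Δ hΔ).cast_ncard_eq, Nat.cast_le] at h2
    exact h2
  · exact ⟨Γ, hΓ, k, hk, rfl⟩

theorem Psi_ge_ev {ι R : Type} [Fintype ι] [Fintype R] {k P s : ℕ} (hs : 1 ≤ s) (S : Ev ι R k P)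
    (hinj : Function.Injective S.s) (hk : k < Fintype.card ι) :
    Fintype.card R ≤ Psi s (Fintype.card ι) := by
  classical
  obtain ⟨M, hM⟩ : ∃ M : ℝ, ∀ r, |S.X r| < M := by
    refine ⟨∑ r, |S.X r| + 1, ?_⟩
    intro r
    have h1 : |S.X r| ≤ ∑ r, |S.X r| :=
      Finset.single_le_sum (f := fun r => |S.X r|) (fun _ _ => abs_nonneg _)
        (Finset.mem_univ r)
    linarith
  set M' : ℝ := max M 1 with hM'
  have hM'1 : 1 ≤ M' := le_max_right _ _
  set e := Fintype.equivFin ι with he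
  set Γ : Fin (Fintype.card ι) → Arc := fun i =>
    { lo := -M'
      hi := M'
      lo_lt_hi := by linarith
      f := fun x => S.s (e.symm i) * x + S.t (e.symm i)
      cont := by fun_prop } with hΓ
  have hXI : ∀ r, S.X r ∈ Set.Icc (-M') M' := by
    intro r
    have h1 := abs_lt.mp (hM r)
    have h2 : M ≤ M' := le_max_left _ _
    exact ⟨by linarith [h1.1], by linarith [h1.2]⟩
  have hfam : IsFamily s Γ := by
    intro i j hij
    refine le_trans ?_ (show ((1 : ℕ) : ℕ∞) ≤ (s : ℕ∞) by exact_mod_cast hs)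
    rw [Nat.cast_one, Set.encard_le_one_iff]
    rintro ⟨x, y⟩ ⟨x', y'⟩ ⟨⟨-, h1⟩, ⟨-, h2⟩⟩ ⟨⟨-, h3⟩, ⟨-, h4⟩⟩
    simp only [hΓ] at h1 h2 h3 h4
    have hne : S.s (e.symm i) - S.s (e.symm j) ≠ 0 := by
      intro h
      apply hij
      apply e.symm.injective
      apply hinj
      linarith
    have hx : x = x' := by
      have h5 : (S.s (e.symm i) - S.s (e.symm j)) * x = (S.s (e.symm i) - S.s (e.symm j)) * x' := by
        linarith
      exact mul_left_cancel₀ hne h5
    rw [Prod.mk.injEq]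
    refine ⟨hx, ?_⟩
    rw [h1, h3, hx]
  have hbelow : ∀ r, below Γ (S.X r, S.s (S.a r) * S.X r + S.t (S.a r)) = k := by
    intro r
    unfold below
    have h1 := S.hcard r
    rw [← Finset.card_filter] at h1
    refine Eq.trans ?_ h1
    rw [← Finset.card_map e.toEmbedding]
    congr 1
    ext i
    simp only [Finset.mem_filter, Finset.mem_univ, true_and, Finset.mem_map_equiv]
    constructor
    · rintro ⟨-, h⟩; exact h
    · intro h; exact ⟨hXI r, h⟩
  have hmem : ∀ r i, S.s i * S.X r + S.t i = S.s (S.a r) * S.X r + S.t (S.a r) →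
      (S.X r, S.s (S.a r) * S.X r + S.t (S.a r)) ∈ (Γ (e i)).points := by
    intro r i h
    refine ⟨hXI r, ?_⟩
    simp only [hΓ, Equiv.symm_apply_apply]
    exact h.symm
  have hver : ∀ r, (S.X r, S.s (S.a r) * S.X r + S.t (S.a r)) ∈ vertices Γ ∩ kLevel Γ k := by
    intro r
    constructor
    · refine Or.inr ⟨e (S.a r), e (S.b r), ?_, hmem r _ rfl, hmem r _ (S.tie r).symm⟩
      intro h; exact S.ab_ne r (e.injective h)
    · exact subset_closure ⟨⟨e (S.a r), hmem r _ rfl⟩, hbelow r⟩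
  set G : R → ℝ × ℝ := fun r => (S.X r, S.s (S.a r) * S.X r + S.t (S.a r)) with hG
  have hGinj : Function.Injective G := by
    intro r r' h
    exact S.hX (congrArg Prod.fst h)
  calc Fintype.card R = (Set.range G).ncard := by
        rw [← Set.image_univ, Set.ncard_image_of_injective _ hGinj, Set.ncard_univ,
          Nat.card_eq_fintype_card]
    _ ≤ complexity Γ k := by
        unfold complexity
        apply Set.ncard_le_ncard _ ((vertices_finite Γ hfam).subset Set.inter_subset_left)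
        rintro _ ⟨r, rfl⟩
        exact hver r
    _ ≤ Psi s (Fintype.card ι) := le_Psi Γ hfam hk

/-- lower bound for the complexity from a certificate -/
theorem Psi_ge {N E P s : ℕ} (hs : 1 ≤ s) (h : Has N E P) (n : ℕ) (h1 : 2 * N ≤ n) (hn : 1 ≤ n) :
    E ≤ Psi s n := by
  obtain ⟨ι, R, _, _, κ, C, -, h3, h4, h5, h6⟩ := h
  obtain ⟨k, rfl⟩ : ∃ k, κ = k + 1 := ⟨κ - 1, by omega⟩
  obtain ⟨C'⟩ := pad C (n - N) 0
  obtain ⟨S, h7, -⟩ := nice C'
  have hc : Fintype.card (ι ⊕ (Fin (n - N) ⊕ Fin 0)) = n := by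
    simp only [Fintype.card_sum, Fintype.card_fin, h3]
    omega
  have := Psi_ge_ev hs S h7 (by rw [hc]; omega)
  rw [hc, h4] at this
  exact this

end KLev.Arcs
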