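import Pool.Agent.KLev.Regular

namespace KLev

open Finset Filter Topology

section

def bS : List ℤ := [432, -99, -333, 182, -37, -145, -67, -183, 250, -556, 715, -159, 507, -114, -393, -79, -276, 355, 134, -51, -83, 68, 10, -78]
def bT : List ℤ := [-135, 442, -307, -62, 189, -126, 250, -183, -67, -505, -230, 734, -161, 520, -359, 364, -250, -113, -19, 126, -107, -51, 84, -33]
def bX0 : List ℤ := [-27369, -18885, -9072, -5082, -3366, -1939, -1460, -1381, -1202, -1057, -988, -959, -929, -897, -860, -801, -751, -605, -510, -419, -336, -221, -8, 91, 117, 190, 269, 299, 316, 334, 350, 373, 410, 440, 579, 685, 802, 895, 1136, 1803, 2219, 2352, 2942, 3736, 4176, 4465, 4768, 5173, 5871, 7339, 9131]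
def bX1 : List ℤ := [-22615, -12114, -5556, -3987, -2342, -1498, -1401, -1282, -1090, -1006, -964, -942, -907, -874, -824, -765, -671, -525, -458, -358, -267, -91, 83, 108, 158, 245, 296, 309, 329, 345, 364, 396, 432, 514, 665, 754, 873, 1027, 1524, 2151, 2320, 2663, 3479, 4085, 4366, 4666, 5021, 5598, 6741, 8533, 10752]
def bY0 : List ℤ := [4190713, 2897125, 1317232, 769776, 618768, 319576, 162764, 146132, 133960, 73345, 31324, 17955, -3115, -30762, -57624, -83894, -98683, -165697, -174700, -156318, -161984, -188204, -135552, -92962, -87186, -87566, -42249, -18639, -8184, 7764, 25546, 47143, 69376, 81880, 165975, 186955, 182158, 199876, 276032, 262024, 219639, 217248, 255754, 160336, 82016, 43471, -17568, -116761, -265435, -480978, -704390]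
def bY1 : List ℤ := [3497655, 1806994, 811956, 673416, 451760, 174928, 149607, 139400, 93442, 42286, 20820, 6582, -23502, -47460, -76576, -93470, -135403, -177730, -164196, -156968, -177716, -171408, -96240, -88712, -87596, -61137, -21000, -13267, 3022, 20851, 38692, 63224, 77824, 126650, 187775, 184126, 192924, 241588, 291040, 225832, 216912, 241506, 206082, 98214, 59816, 4678, -84385, -207286, -410398, -621870, -941056]
def bL : List ℕ := [6, 23, 19, 4, 19, 5, 23, 22, 23, 16, 5, 16, 14, 2, 7, 20, 7, 21, 18, 21, 20, 3, 8, 3, 21, 17, 0, 17, 12, 10, 12, 0, 8, 17, 8, 22, 18, 3, 18, 4, 22, 21, 22, 15, 4, 15, 13, 1, 6, 19, 6]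
def bSl : List ℕ := [0, 0, 0, 0, 1, 0, 1, 0, 2, 0, 1, 1, 0, 0, 0, 0, 1, 0, 0, 1, 1, 0, 0, 1, 2, 0, 0, 1, 0, 0, 1, 1, 1, 2, 2, 1, 1, 2, 2, 1, 2, 3, 3, 0, 2, 1, 0, 0, 1, 2, 2]

def bs (i : Fin 24) : ℤ := bS.getD i 0
def bt (i : Fin 24) : ℤ := bT.getD i 0
def bx (r : Fin 51) (b : Bool) : ℤ := if b then bX1.getD r 0 else bX0.getD r 0
def bY (r : Fin 51) (b : Bool) : ℤ := if b then bY1.getD r 0 else bY0.getD r 0
def bl (r : Fin 51) : Fin 24 := Fin.ofNat 24 (bL.getD r 0)
def bslot (r : Fin 51) : Fin 4 := Fin.ofNat 4 (bSl.getD r 0)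

lemma b1 : ∀ r, bx r false < bx r true := by decide +kernel
lemma b2 : ∀ r r' : Fin 51, r < r' → bx r true < bx r' false := by decide +kernel
lemma b3 : ∀ r b i, 2 * (bs i * bx r b + bt i * 1024) ≠ bY r b := by decide +kernel
lemma b4 : ∀ r b, ∑ i : Fin 24, (if 2 * (bs i * bx r b + bt i * 1024) < bY r b then 1 else 0) =
    12 := by decide +kernel
lemma b5 : ∀ r, 2 * (bs (bl r) * bx r false + bt (bl r) * 1024) < bY r false := by decide +kernel
lemma b6 : ∀ r, bY r true < 2 * (bs (bl r) * bx r true + bt (bl r) * 1024) := by decide +kernel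
lemma b7 : ∀ r r', bl r = bl r' → bslot r = bslot r' → r = r' := by decide +kernel

lemma b_iff (r : Fin 51) (b : Bool) (i : Fin 24) :
    ((bs i : ℝ) * ((bx r b : ℝ) / 1024) + (bt i : ℝ) < (bY r b : ℝ) / 2048 ↔
      2 * (bs i * bx r b + bt i * 1024) < bY r b) := by
  rw [← Int.cast_lt (R := ℝ)]
  push_cast
  constructor <;> intro h <;> linarith

lemma b_iff' (r : Fin 51) (b : Bool) (i : Fin 24) :
    ((bY r b : ℝ) / 2048 < (bs i : ℝ) * ((bx r b : ℝ) / 1024) + (bt i : ℝ) ↔
      bY r b < 2 * (bs i * bx r b + bt i * 1024)) := by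
  rw [← Int.cast_lt (R := ℝ)]
  push_cast
  constructor <;> intro h <;> linarith

/-- the starting certificate: 24 lines, 51 changes of the set of the 12 lowest lines -/
noncomputable def baseCert : Cert (Fin 24) (Fin 51) (11 + 1) 4 where
  s := fun i => (bs i : ℝ)
  t := fun i => (bt i : ℝ)
  x := fun r b => (bx r b : ℝ) / 1024
  y := fun r b => (bY r b : ℝ) / 2048
  l := bl
  slot := bslot
  hlt := fun r => by
    have := b1 r
    have h : (bx r false : ℝ) < bx r true := by exact_mod_cast this
    linarith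
  hdisj := fun r r' h => by
    rcases lt_or_gt_of_ne h with h | h
    · left
      have : (bx r true : ℝ) < bx r' false := by exact_mod_cast b2 r r' h
      linarith
    · right
      have : (bx r' true : ℝ) < bx r false := by exact_mod_cast b2 r' r h
      linarith
  hne := fun r b i h => by
    apply b3 r b i
    have : (2 * ((bs i : ℝ) * bx r b + bt i * 1024)) = bY r b := by linarith
    exact_mod_cast this
  hcard := fun r b => by
    have h := b4 r b
    refine Eq.trans ?_ h
    apply Finset.sum_congr rfl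
    intro i _
    simp only [b_iff]
  hl0 := fun r => (b_iff r false (bl r)).mpr (b5 r)
  hl1 := fun r => (b_iff' r true (bl r)).mpr (b6 r)
  hslot := b7

lemma baseCert_rat : RatSlopes baseCert.s := fun i => ⟨(bs i : ℚ), by simp [baseCert]⟩

end

end KLev
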