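import Pool.Agent.KLev.Compose

namespace KLev

open Finset Filter Topology

section

variable {A R₁ G R₂ : Type} [Fintype A] [Fintype G] {k₁ P₁ k₂ P₂ : ℕ}

open scoped Classical in
/-- the event attached to a slot of a bundle -/
noncomputable def Ev.evt (S : Ev A R₁ k₁ P₁) (c : A) (h : Fin P₁) : Option R₁ :=
  if H : ∃ e, S.a e = c ∧ S.slot e = h then some H.choose else none

lemma Ev.evt_spec (S : Ev A R₁ k₁ P₁) {c : A} {h : Fin P₁} {e : R₁}
    (H : S.evt c h = some e) : S.a e = c ∧ S.slot e = h := by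
  unfold Ev.evt at H
  split_ifs at H with H'
  simp only [Option.some.injEq] at H
  rw [← H]; exact H'.choose_spec

lemma Ev.evt_self (S : Ev A R₁ k₁ P₁) (e : R₁) : S.evt (S.a e) (S.slot e) = some e := by
  unfold Ev.evt
  have H : ∃ e', S.a e' = S.a e ∧ S.slot e' = S.slot e := ⟨e, rfl, rfl⟩
  rw [dif_pos H]
  exact congrArg some (S.hslot _ _ H.choose_spec.1 H.choose_spec.2)

open scoped Classical in
/-- number of earlier events in which `c` leaves -/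
noncomputable def Ev.past (S : Ev A R₁ k₁ P₁) (c : A) (x : ℝ) : ℕ :=
  ∑ h : Fin P₁, (match S.evt c h with
    | some e => if S.X e < x then 1 else 0
    | none => 0)

lemma Ev.past_le (S : Ev A R₁ k₁ P₁) (c : A) (x : ℝ) : S.past c x ≤ P₁ := by
  unfold Ev.past
  calc _ ≤ ∑ h : Fin P₁, 1 := by
        apply Finset.sum_le_sum
        intro h _
        split
        · split_ifs <;> simp
        · simp
    _ = P₁ := by simp

/-- batch offset -/
noncomputable def Ev.c0 (S : Ev A R₁ k₁ P₁) (e : R₁) : ℕ :=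
  2 * P₁ - S.past (S.a e) (S.X e) - S.past (S.b e) (S.X e)

lemma Ev.c0_le (S : Ev A R₁ k₁ P₁) (e : R₁) : S.c0 e ≤ 2 * P₁ := by
  unfold Ev.c0; omega

lemma Ev.c0_add (S : Ev A R₁ k₁ P₁) (e : R₁) :
    S.c0 e + S.past (S.a e) (S.X e) + S.past (S.b e) (S.X e) = 2 * P₁ := by
  have h1 := S.past_le (S.a e) (S.X e)
  have h2 := S.past_le (S.b e) (S.X e)
  unfold Ev.c0; omega

/-- slope difference at an event -/
noncomputable def Ev.D (S : Ev A R₁ k₁ P₁) (e : R₁) : ℝ := S.s (S.a e) - S.s (S.b e)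

lemma Ev.D_pos (S : Ev A R₁ k₁ P₁) (e : R₁) : 0 < S.D e := sub_pos.mpr (S.hs e)

lemma Ev.ab_ne (S : Ev A R₁ k₁ P₁) (e : R₁) : S.a e ≠ S.b e := by
  intro h; have := S.hs e; rw [h] at this; exact lt_irrefl _ this

/-- the common height of the crossing -/
noncomputable def Ev.Y (S : Ev A R₁ k₁ P₁) (e : R₁) : ℝ := S.s (S.a e) * S.X e + S.t (S.a e)

/-- index type of the lines of a composed arrangement -/
abbrev Idx (A G : Type) (Nx P V : ℕ) : Type :=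
  A × ((Fin Nx × (G × Fin V)) ⊕ ((Fin (Nx + 2 * P) × (G × Fin V)) ⊕ (Fin P × (G × Fin V))))

variable (S₁ : Ev A R₁ k₁ P₁) (S₂ : Cert G R₂ k₂ P₂) (σ : G → ℕ) (Rz Nx V : ℕ)
variable (p : Par S₁ S₂ Rz Nx V) (K : Finset G)

/-- relative slope of the pool lines -/
noncomputable def psi (α : G) : ℝ :=
  (p.φ - p.δ * σ α / (1 + p.lam * σ α)) / (1 + p.φ)

open scoped Classical in
/-- half-row offset -/
noncomputable def tau (K : Finset G) (α : G) : ℝ := if α ∈ K then -1/2 else 1/2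

/-- slopes of the composed arrangement -/
noncomputable def slp : Idx A G Nx P₁ V → ℝ
  | (c, Sum.inl _) => S₁.s c
  | (c, Sum.inr (Sum.inl _)) => S₁.s c
  | (c, Sum.inr (Sum.inr (h, (α, _)))) =>
    match S₁.evt c h with
    | some e => S₁.s c - psi S₁ S₂ σ Rz Nx V p α * S₁.D e
    | none => S₁.s c

/-- intercepts of the composed arrangement -/
noncomputable def icp (ε : ℝ) : Idx A G Nx P₁ V → ℝ
  | (c, Sum.inl (i, (α, β))) =>
      S₁.t c + ε * (-p.φ * ((i:ℕ) + p.lam * (((σ α * (i:ℕ) + (β:ℕ) : ℕ) : ℝ) + tau K α)))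
  | (c, Sum.inr (Sum.inl (q, _))) => S₁.t c + ε * (1 + (q:ℕ))
  | (c, Sum.inr (Sum.inr (h, (α, β)))) =>
    match S₁.evt c h with
    | some e => S₁.t c + psi S₁ S₂ σ Rz Nx V p α * (S₁.D e * S₁.X e + ε * (S₁.c0 e + 1/2)) +
        ε * (p.δ * ((β:ℕ) + p.κ * S₂.t α) / (1 + p.lam * σ α))
    | none => S₁.t c + ε * (Nx + 2 * P₁ + 4)

/-- time coordinate of a sample point -/
noncomputable def xiS (i j : ℕ) (r : R₂) (b : Bool) : ℝ :=
  i + p.κ * S₂.x r b + p.lam * (j + p.κ * S₂.y r b)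

/-- scaled horizontal coordinate -/
noncomputable def US (e : R₁) (i j : ℕ) (r : R₂) (b : Bool) : ℝ :=
  S₁.c0 e + 1/2 + (1 + p.φ) * xiS S₁ S₂ Rz Nx V p i j r b

/-- scaled vertical coordinate -/
noncomputable def vS (i j : ℕ) (r : R₂) (b : Bool) : ℝ :=
  -p.φ * xiS S₁ S₂ Rz Nx V p i j r b + p.δ * (j + p.κ * S₂.y r b)

/-- abscissa of a sample point -/
noncomputable def xs (ε : ℝ) (e : R₁) (i j : ℕ) (r : R₂) (b : Bool) : ℝ :=
  S₁.X e + ε * (US S₁ S₂ Rz Nx V p e i j r b / S₁.D e)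

/-- ordinate of a sample point -/
noncomputable def ys (ε : ℝ) (e : R₁) (i j : ℕ) (r : R₂) (b : Bool) : ℝ :=
  S₁.Y e + ε * (S₁.s (S₁.a e) * (US S₁ S₂ Rz Nx V p e i j r b / S₁.D e) +
    vS S₁ S₂ Rz Nx V p i j r b)

/-- combinatorial description of the lines below a sample point -/
def bel (e : R₁) (i j : ℕ) (r : R₂) (b : Bool) : Idx A G Nx P₁ V → Prop
  | (c, Sum.inl (i', (α, β))) =>
      (c = S₁.a e ∧ (i < (i':ℕ) ∨ ((i':ℕ) = i ∧ (j < σ α * (i':ℕ) + (β:ℕ) ∨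
        (σ α * (i':ℕ) + (β:ℕ) = j ∧ ¬ α ∈ K))))) ∨ c = S₁.b e ∨
      (c ≠ S₁.a e ∧ c ≠ S₁.b e ∧ S₁.s c * S₁.X e + S₁.t c < S₁.Y e)
  | (c, Sum.inr (Sum.inl (q, _))) =>
      (c = S₁.b e ∧ (q:ℕ) < S₁.c0 e + i) ∨
      (c ≠ S₁.a e ∧ c ≠ S₁.b e ∧ S₁.s c * S₁.X e + S₁.t c < S₁.Y e)
  | (c, Sum.inr (Sum.inr (h, (α, β)))) =>
    match S₁.evt c h with
    | some e' => (e' = e ∧ (σ α * i + (β:ℕ) < j ∨ (σ α * i + (β:ℕ) = j ∧
          S₂.s α * S₂.x r b + S₂.t α < S₂.y r b))) ∨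
        (e' ≠ e ∧ (c = S₁.a e ∨ c = S₁.b e) ∧ S₁.X e' < S₁.X e) ∨
        (c ≠ S₁.a e ∧ c ≠ S₁.b e ∧ S₁.s c * S₁.X e + S₁.t c < S₁.Y e)
    | none => (c ≠ S₁.a e ∧ c ≠ S₁.b e ∧ S₁.s c * S₁.X e + S₁.t c < S₁.Y e)

/-- difference formula for lines parallel to a line of the first arrangement -/
lemma diff_off (ε X U D sc tc sa Y ω v : ℝ) :
    sc * (X + ε * (U / D)) + (tc + ε * ω) - (Y + ε * (sa * (U / D) + v)) =
    (sc * X + tc - Y) + ε * ((sc - sa) * (U / D) + ω - v) := by ring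

lemma diff_med (ε X X' U D D' sc tc sa Y ψ c' β' v : ℝ) :
    (sc - ψ * D') * (X + ε * (U / D)) + (tc + ψ * (D' * X' + ε * c') + ε * β')
      - (Y + ε * (sa * (U / D) + v)) =
    (sc * X + tc - Y - ψ * (D' * (X - X'))) +
      ε * ((sc - ψ * D' - sa) * (U / D) + ψ * c' + β' - v) := by ring

end

end KLev
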