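import Pool.Agent.KLev.Core

namespace KLev

open Finset Filter Topology

section Real

/-- bounds on the time coordinate -/
lemma xi_bounds {lam κ x y : ℝ} {i j V : ℕ} {Rz Nx : ℕ} (hl0 : 0 < lam)
    (hl1 : lam * (Rz * Nx + V + 1) ≤ 1 / 8) (hjV : j < V)
    (hκ1 : |κ * (x + lam * y)| ≤ lam / 8) :
    (i:ℝ) + lam * j - lam / 8 ≤ (i:ℝ) + κ * x + lam * (j + κ * y) ∧
    (i:ℝ) + κ * x + lam * (j + κ * y) ≤ (i:ℝ) + lam * j + lam / 8 ∧
    lam * j + lam ≤ 1 / 8 ∧ lam ≤ 1 / 8 := by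
  have h := abs_le.mp hκ1
  have hj : (j:ℝ) + 1 ≤ V := by exact_mod_cast hjV
  have hRN : (0:ℝ) ≤ (Rz:ℝ) * Nx := by positivity
  have hj0 : (0:ℝ) ≤ j := by positivity
  refine ⟨by nlinarith [h.1], by nlinarith [h.2], ?_, ?_⟩
  · nlinarith
  · nlinarith

lemma w_bounds {κ y δ : ℝ} {j V : ℕ} (hjV : j < V) (hκ3 : |κ * y| ≤ 1 / 2) (hδ0 : 0 < δ) :
    |δ * (j + κ * y)| ≤ δ * (V + 1) := by
  have h := abs_le.mp hκ3
  have hj : (j:ℝ) + 1 ≤ V := by exact_mod_cast hjV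
  have hj0 : (0:ℝ) ≤ j := by positivity
  rw [abs_mul, abs_of_pos hδ0]
  apply mul_le_mul_of_nonneg_left _ hδ0.le
  rw [abs_le]; constructor <;> linarith [h.1, h.2]

/-- T-line of the leaving bundle -/
lemma signTa {φ lam κ δ x y τ : ℝ} {i i' j V Rz Nx val : ℕ}
    (hφ0 : 0 < φ) (hl0 : 0 < lam)
    (hl1 : lam * (Rz * Nx + V + 1) ≤ 1 / 8) (hjV : j < V)
    (hκ1 : |κ * (x + lam * y)| ≤ lam / 8) (hκ3 : |κ * y| ≤ 1 / 2)
    (hδ0 : 0 < δ) (hδ1 : δ * (V + 1) ≤ φ * lam / 8)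
    (hval : val ≤ Rz * Nx + V) (K : Prop) [Decidable K]
    (hτ : τ = if K then -1/2 else 1/2) :
    let B := -φ * (i' + lam * (val + τ)) - (-φ * (i + κ * x + lam * (j + κ * y)) + δ * (j + κ * y))
    B ≠ 0 ∧ (B < 0 ↔ (i < i' ∨ (i' = i ∧ (j < val ∨ (val = j ∧ ¬ K))))) := by
  intro B
  obtain ⟨hx1, hx2, hx3, hx4⟩ := xi_bounds (i := i) (j := j) (V := V) (Rz := Rz) (Nx := Nx)
    (κ := κ) (x := x) (y := y) hl0 hl1 hjV hκ1
  have hw := abs_le.mp (w_bounds (κ := κ) (y := y) (δ := δ) hjV hκ3 hδ0)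
  set ξ := (i:ℝ) + κ * x + lam * (j + κ * y) with hξ
  set dw := δ * (j + κ * y) with hdw
  have hB : B = φ * (ξ - (i' + lam * (val + τ))) - dw := by simp only [B]; ring
  have hvr : (val:ℝ) ≤ Rz * Nx + V := by exact_mod_cast hval
  have hv0 : (0:ℝ) ≤ val := by positivity
  have hj0 : (0:ℝ) ≤ j := by positivity
  have hτ2 : τ ≤ 1/2 := by rw [hτ]; split_ifs <;> norm_num
  have hτ1 : -1/2 ≤ τ := by rw [hτ]; split_ifs <;> norm_num
  have a0 : 0 ≤ lam * val := by positivity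
  have a0' : 0 ≤ lam * j := by positivity
  have a1 : lam * τ ≤ lam * (1/2) := mul_le_mul_of_nonneg_left hτ2 hl0.le
  have a2 : lam * (-1/2) ≤ lam * τ := mul_le_mul_of_nonneg_left hτ1 hl0.le
  have a3 : lam * val ≤ lam * (Rz * Nx + V) := mul_le_mul_of_nonneg_left hvr hl0.le
  have a4 : lam * (Rz * Nx + V) + lam ≤ 1/8 := by linarith
  have a5 : φ * lam ≤ φ * (1/8) := mul_le_mul_of_nonneg_left hx4 hφ0.le
  have a6 : lam * ((val:ℝ) + τ) = lam * val + lam * τ := by ring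
  have a7 : 0 < φ * lam := mul_pos hφ0 hl0
  have hub : ∀ z : ℝ, z ≤ -(3/8 * lam) → φ * z - dw < 0 := by
    intro z hz
    have : φ * z ≤ φ * (-(3/8 * lam)) := mul_le_mul_of_nonneg_left hz hφ0.le
    have e : φ * (-(3/8 * lam)) = -(3/8) * (φ * lam) := by ring
    linarith [hw.1]
  have hlb : ∀ z : ℝ, 3/8 * lam ≤ z → 0 < φ * z - dw := by
    intro z hz
    have : φ * (3/8 * lam) ≤ φ * z := mul_le_mul_of_nonneg_left hz hφ0.le
    have e : φ * (3/8 * lam) = (3/8) * (φ * lam) := by ring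
    linarith [hw.2]
  rcases lt_trichotomy i i' with h | h | h
  · have hi : (i:ℝ) + 1 ≤ i' := by exact_mod_cast h
    have h2 : B < 0 := by rw [hB]; apply hub; linarith
    exact ⟨h2.ne, by simp [h2, h]⟩
  · subst h
    rcases lt_trichotomy j val with h | h | h
    · have hv : (j:ℝ) + 1 ≤ val := by exact_mod_cast h
      have hv2 : lam * (j + 1) ≤ lam * val := mul_le_mul_of_nonneg_left hv hl0.le
      have h2 : B < 0 := by rw [hB]; apply hub; linarith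
      exact ⟨h2.ne, by simp [h2, h]⟩
    · subst h
      by_cases hK : K
      · have hτ' : τ = -1/2 := by rw [hτ, if_pos hK]
        have h2 : 0 < B := by rw [hB]; apply hlb; rw [hτ'] at *; linarith
        exact ⟨h2.ne', by simp [h2.le, hK]⟩
      · have hτ' : τ = 1/2 := by rw [hτ, if_neg hK]
        have h2 : B < 0 := by rw [hB]; apply hub; rw [hτ'] at *; linarith
        exact ⟨h2.ne, by simp [h2, hK]⟩
    · have hv : (val:ℝ) + 1 ≤ j := by exact_mod_cast h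
      have hv2 : lam * (val + 1) ≤ lam * j := mul_le_mul_of_nonneg_left hv hl0.le
      have h2 : 0 < B := by rw [hB]; apply hlb; linarith
      refine ⟨h2.ne', ?_⟩
      constructor
      · intro h3; linarith
      · rintro (h3 | ⟨-, h3 | h3⟩) <;> omega
  · have hi : (i':ℝ) + 1 ≤ i := by exact_mod_cast h
    have h2 : 0 < B := by rw [hB]; apply hlb; linarith
    refine ⟨h2.ne', ?_⟩
    constructor
    · intro h3; linarith
    · rintro (h3 | ⟨h3, -⟩) <;> omega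

/-- T-line of the entering bundle -/
lemma signTb {φ lam κ δ x y τ : ℝ} {i i' j V Rz Nx val c : ℕ}
    (hφ0 : 0 < φ) (hφ1 : φ * (Nx + 1) ≤ 1 / 4) (hl0 : 0 < lam)
    (hl1 : lam * (Rz * Nx + V + 1) ≤ 1 / 8) (hjV : j < V)
    (hκ1 : |κ * (x + lam * y)| ≤ lam / 8) (hκ3 : |κ * y| ≤ 1 / 2)
    (hδ0 : 0 < δ) (hδ1 : δ * (V + 1) ≤ φ * lam / 8)
    (hτ1 : -1/2 ≤ τ) :
    -(c + 1/2 + (1 + φ) * (i + κ * x + lam * (j + κ * y))) + -φ * (i' + lam * (val + τ))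
      - (-φ * (i + κ * x + lam * (j + κ * y)) + δ * (j + κ * y)) < 0 := by
  obtain ⟨hx1, hx2, hx3, hx4⟩ := xi_bounds (i := i) (j := j) (V := V) (Rz := Rz) (Nx := Nx)
    (κ := κ) (x := x) (y := y) hl0 hl1 hjV hκ1
  have hw := abs_le.mp (w_bounds (κ := κ) (y := y) (δ := δ) hjV hκ3 hδ0)
  set ξ := (i:ℝ) + κ * x + lam * (j + κ * y) with hξ
  set dw := δ * (j + κ * y) with hdw
  have hv0 : (0:ℝ) ≤ val := by positivity
  have hj0 : (0:ℝ) ≤ j := by positivity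
  have hi0 : (0:ℝ) ≤ i := by positivity
  have hi0' : (0:ℝ) ≤ i' := by positivity
  have hc0 : (0:ℝ) ≤ c := by positivity
  have hN0 : (0:ℝ) ≤ Nx := by positivity
  have hφ : φ ≤ 1/4 := by nlinarith
  have h1 : 0 ≤ φ * i' := by positivity
  have h2 : 0 ≤ φ * (lam * val) := by positivity
  have h3 : φ * lam ≤ 1/4 * (1/8) := by nlinarith
  have h4 : φ * (lam * τ) ≥ - (φ * lam) := by nlinarith [mul_pos hφ0 hl0]
  have h5 : 0 ≤ lam * j := by positivity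
  nlinarith [hw.1]

/-- W-line of the leaving bundle / dummy line -/
lemma signWa {φ lam κ δ x y ω : ℝ} {i j V Rz Nx : ℕ}
    (hφ0 : 0 < φ) (hφ1 : φ * (Nx + 1) ≤ 1 / 4) (hl0 : 0 < lam)
    (hl1 : lam * (Rz * Nx + V + 1) ≤ 1 / 8) (hjV : j < V)
    (hκ1 : |κ * (x + lam * y)| ≤ lam / 8) (hκ3 : |κ * y| ≤ 1 / 2)
    (hδ0 : 0 < δ) (hδ2 : δ * (V + 1) ≤ 1 / 8)
    (hω : 1 ≤ ω) :
    0 < ω - (-φ * (i + κ * x + lam * (j + κ * y)) + δ * (j + κ * y)) := by
  obtain ⟨hx1, hx2, hx3, hx4⟩ := xi_bounds (i := i) (j := j) (V := V) (Rz := Rz) (Nx := Nx)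
    (κ := κ) (x := x) (y := y) hl0 hl1 hjV hκ1
  have hw := abs_le.mp (w_bounds (κ := κ) (y := y) (δ := δ) hjV hκ3 hδ0)
  set ξ := (i:ℝ) + κ * x + lam * (j + κ * y) with hξ
  set dw := δ * (j + κ * y) with hdw
  have hj0 : (0:ℝ) ≤ j := by positivity
  have hi0 : (0:ℝ) ≤ i := by positivity
  have hN0 : (0:ℝ) ≤ Nx := by positivity
  have hφ : φ ≤ 1/4 := by nlinarith
  have h5 : 0 ≤ lam * j := by positivity
  have h6 : -1 ≤ ξ := by linarith
  nlinarith [hw.2]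

/-- W-line of the entering bundle -/
lemma signWb {φ lam κ δ x y : ℝ} {i j V Rz Nx c q : ℕ}
    (hl0 : 0 < lam)
    (hl1 : lam * (Rz * Nx + V + 1) ≤ 1 / 8) (hjV : j < V)
    (hκ1 : |κ * (x + lam * y)| ≤ lam / 8) (hκ3 : |κ * y| ≤ 1 / 2)
    (hδ0 : 0 < δ) (hδ2 : δ * (V + 1) ≤ 1 / 8) :
    let B := -(c + 1/2 + (1 + φ) * (i + κ * x + lam * (j + κ * y))) + (1 + q : ℝ)
      - (-φ * (i + κ * x + lam * (j + κ * y)) + δ * (j + κ * y))
    B ≠ 0 ∧ (B < 0 ↔ q < c + i) := by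
  intro B
  obtain ⟨hx1, hx2, hx3, hx4⟩ := xi_bounds (i := i) (j := j) (V := V) (Rz := Rz) (Nx := Nx)
    (κ := κ) (x := x) (y := y) hl0 hl1 hjV hκ1
  have hw := abs_le.mp (w_bounds (κ := κ) (y := y) (δ := δ) hjV hκ3 hδ0)
  set ξ := (i:ℝ) + κ * x + lam * (j + κ * y) with hξ
  set dw := δ * (j + κ * y) with hdw
  have hj0 : (0:ℝ) ≤ j := by positivity
  have h5 : 0 ≤ lam * j := by positivity
  have hB : B = q + 1/2 - c - ξ - dw := by simp only [B]; ring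
  by_cases h : q < c + i
  · have h' : (q:ℝ) + 1 ≤ c + i := by exact_mod_cast h
    have : B < 0 := by rw [hB]; linarith [hw.1]
    exact ⟨this.ne, by simp [this, h]⟩
  · have h' : (c:ℝ) + i ≤ q := by exact_mod_cast (not_lt.mp h)
    have : 0 < B := by rw [hB]; linarith [hw.2]
    exact ⟨this.ne', by simp [this.le, h]⟩

/-- dummy line of the entering bundle -/
lemma signDb {φ lam κ δ x y : ℝ} {i j V Rz Nx c P : ℕ}
    (hl0 : 0 < lam)
    (hl1 : lam * (Rz * Nx + V + 1) ≤ 1 / 8) (hjV : j < V) (hi : i < Nx)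
    (hκ1 : |κ * (x + lam * y)| ≤ lam / 8) (hκ3 : |κ * y| ≤ 1 / 2)
    (hδ0 : 0 < δ) (hδ2 : δ * (V + 1) ≤ 1 / 8) (hc : c ≤ 2 * P) :
    0 < -(c + 1/2 + (1 + φ) * (i + κ * x + lam * (j + κ * y))) + (Nx + 2 * P + 4 : ℝ)
      - (-φ * (i + κ * x + lam * (j + κ * y)) + δ * (j + κ * y)) := by
  obtain ⟨hx1, hx2, hx3, hx4⟩ := xi_bounds (i := i) (j := j) (V := V) (Rz := Rz) (Nx := Nx)
    (κ := κ) (x := x) (y := y) hl0 hl1 hjV hκ1
  have hw := abs_le.mp (w_bounds (κ := κ) (y := y) (δ := δ) hjV hκ3 hδ0)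
  have hc' : (c:ℝ) ≤ 2 * P := by exact_mod_cast hc
  have hi' : (i:ℝ) + 1 ≤ Nx := by exact_mod_cast hi
  have h5 : 0 ≤ lam * j := by positivity
  nlinarith [hw.2]

/-- pool line of the same event -/
lemma signS {lam κ δ x y t s : ℝ} {j val : ℕ}
    (hδ0 : 0 < δ) (hl0 : 0 < 1 + lam)
    (hne : s * x + t ≠ y)
    (hκ0 : 0 < κ) (hκ2 : |κ * (s * x + t - y)| ≤ 1 / 2) :
    let B := δ / (1 + lam) * (val - j + κ * (s * x + t - y))
    B ≠ 0 ∧ (B < 0 ↔ (val < j ∨ (val = j ∧ s * x + t < y))) := by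
  intro B
  have h := abs_le.mp hκ2
  have hq : 0 < δ / (1 + lam) := by positivity
  set z := κ * (s * x + t - y) with hz
  rcases lt_trichotomy val j with h1 | h1 | h1
  · have h1' : (val:ℝ) + 1 ≤ j := by exact_mod_cast h1
    have : B < 0 := mul_neg_of_pos_of_neg hq (by linarith)
    exact ⟨this.ne, by simp [this, h1]⟩
  · subst h1
    have hB : B = δ / (1 + lam) * (κ * (s * x + t - y)) := by simp only [B]; ring_nf
    rcases lt_or_gt_of_ne hne with h2 | h2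
    · have : B < 0 := by
        rw [hB]; exact mul_neg_of_pos_of_neg hq (mul_neg_of_pos_of_neg hκ0 (by linarith))
      exact ⟨this.ne, by simp [this, h2]⟩
    · have : 0 < B := by
        rw [hB]; exact mul_pos hq (mul_pos hκ0 (by linarith))
      exact ⟨this.ne', ⟨fun h3 => absurd h3 (not_lt.mpr this.le), fun h3 => by
        rcases h3 with h3 | ⟨-, h3⟩
        · exact absurd h3 (lt_irrefl _)
        · exact absurd h3 (not_lt.mpr h2.le)⟩⟩
  · have h1' : (j:ℝ) + 1 ≤ val := by exact_mod_cast h1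
    have : 0 < B := mul_pos hq (by linarith)
    refine ⟨this.ne', ?_⟩
    constructor
    · intro h3; linarith
    · rintro (h3 | ⟨h3, -⟩) <;> omega

end Real

end KLev
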