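import Mathlib

/-!
# Levels of line arrangements: certificates

A line is a pair (slope, intercept).  A certificate records many disjoint
abscissa intervals in each of which the set of the `k` lowest lines changes.
-/

namespace KLev

open Finset Filter Topology

open scoped Classical in
/-- A certificate for an indexed family of lines `y = s i * x + t i`. For each
`r : R` there are two sample points (`false` = left, `true` = right) with exactly `k`
lines strictly below and no line through them; the line `l r` is below the left one and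
above the right one; the abscissa intervals are disjoint. -/
structure Cert (ι R : Type) [Fintype ι] (k P : ℕ) where
  s : ι → ℝ
  t : ι → ℝ
  x : R → Bool → ℝ
  y : R → Bool → ℝ
  l : R → ι
  slot : R → Fin P
  hlt : ∀ r, x r false < x r true
  hdisj : ∀ r r', r ≠ r' → x r true < x r' false ∨ x r' true < x r false
  hne : ∀ r b i, s i * x r b + t i ≠ y r b
  hcard : ∀ r b, ∑ i, (if s i * x r b + t i < y r b then 1 else 0) = k
  hl0 : ∀ r, s (l r) * x r false + t (l r) < y r false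
  hl1 : ∀ r, y r true < s (l r) * x r true + t (l r)
  hslot : ∀ r r', l r = l r' → slot r = slot r' → r = r'

open scoped Classical in
/-- The same data in event form: `a r` crosses `b r` from below at abscissa `X r`,
all other lines are strictly off the crossing point, and exactly `k` are below it. -/
structure Ev (A R : Type) [Fintype A] (k P : ℕ) where
  s : A → ℝ
  t : A → ℝ
  X : R → ℝ
  a : R → A
  b : R → A
  tie : ∀ r, s (a r) * X r + t (a r) = s (b r) * X r + t (b r)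
  hs : ∀ r, s (b r) < s (a r)
  hne : ∀ r c, c ≠ a r → c ≠ b r → s c * X r + t c ≠ s (a r) * X r + t (a r)
  hcard : ∀ r, ∑ c, (if s c * X r + t c < s (a r) * X r + t (a r) then 1 else 0) = k
  hX : Function.Injective X
  slot : R → Fin P
  hslot : ∀ r r', a r = a r' → slot r = slot r' → r = r'

/-! ### Small parameter lemmas -/

lemma ev_sign {A : ℝ} (B : ℝ) (hA : A ≠ 0) :
    ∀ᶠ ε in 𝓝[>] (0:ℝ), (A + ε * B ≠ 0 ∧ (A + ε * B < 0 ↔ A < 0)) := by
  have hc : Tendsto (fun ε : ℝ => A + ε * B) (𝓝[>] (0:ℝ)) (𝓝 A) := by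
    have h : ContinuousAt (fun ε : ℝ => A + ε * B) 0 := by fun_prop
    have h2 := h.tendsto
    simp only [zero_mul, add_zero] at h2
    exact h2.mono_left nhdsWithin_le_nhds
  rcases lt_or_gt_of_ne hA with h | h
  · filter_upwards [hc.eventually (gt_mem_nhds h)] with ε hε
    exact ⟨hε.ne, by simp [hε, h]⟩
  · filter_upwards [hc.eventually (lt_mem_nhds h)] with ε hε
    exact ⟨hε.ne', by constructor <;> intro h' <;> linarith⟩

lemma ev_pos {A : ℝ} (B : ℝ) (hA : 0 < A) :
    ∀ᶠ ε in 𝓝[>] (0:ℝ), 0 < A + ε * B := by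
  filter_upwards [ev_sign B hA.ne'] with ε h
  rcases lt_or_gt_of_ne h.1 with h1 | h1
  · exact absurd (h.2.1 h1) (by linarith)
  · exact h1

/-- The geometric parameters chosen before `ε`. -/
structure Par {A R₁ G R₂ : Type} [Fintype A] [Fintype G] {k₁ P₁ k₂ P₂ : ℕ}
    (S₁ : Ev A R₁ k₁ P₁) (S₂ : Cert G R₂ k₂ P₂) (Rz Nx V : ℕ) where
  φ : ℝ
  lam : ℝ
  κ : ℝ
  δ : ℝ
  hφ0 : 0 < φ
  hφ1 : φ * (Nx + 1) ≤ 1 / 4
  hφ2 : ∀ e e', S₁.a e' ≠ S₁.a e → S₁.a e' ≠ S₁.b e →
    φ * ((S₁.s (S₁.a e') - S₁.s (S₁.b e')) * |S₁.X e - S₁.X e'|) <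
      |S₁.s (S₁.a e') * S₁.X e + S₁.t (S₁.a e') - (S₁.s (S₁.a e) * S₁.X e + S₁.t (S₁.a e))|
  hl0 : 0 < lam
  hl1 : lam * (Rz * Nx + V + 1) ≤ 1 / 8
  hl2 : ∀ r, S₂.x r false + lam * S₂.y r false < S₂.x r true + lam * S₂.y r true
  hl3 : ∀ r r', r ≠ r' → S₂.x r true + lam * S₂.y r true < S₂.x r' false + lam * S₂.y r' false ∨
    S₂.x r' true + lam * S₂.y r' true < S₂.x r false + lam * S₂.y r false
  hκ0 : 0 < κ
  hκ1 : ∀ r b, |κ * (S₂.x r b + lam * S₂.y r b)| ≤ lam / 8
  hκ2 : ∀ r b α, |κ * (S₂.s α * S₂.x r b + S₂.t α - S₂.y r b)| ≤ 1 / 2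
  hκ3 : ∀ r b, |κ * S₂.y r b| ≤ 1 / 2
  hδ0 : 0 < δ
  hδ1 : δ * (V + 1) ≤ φ * lam / 8
  hδ2 : δ * (V + 1) ≤ 1 / 8
  hδ3 : δ * (Rz + 1) < φ

end KLev
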