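import Pool.Agent.KLev.Sign

namespace KLev

open Finset Filter Topology

section

variable {A R₁ G R₂ : Type} [Fintype A] [Fintype G] {k₁ P₁ k₂ P₂ : ℕ}

/-- for a fixed slope the two pool counts add up to `V` up to the two boundary indicators -/
lemma row_count (v0 j V : ℕ) (hlo : v0 ≤ j) (hhi : j < v0 + V) (p q : Prop)
    [Decidable p] [Decidable q] :
    ∑ β : Fin V, (if (j < v0 + (β:ℕ) ∨ (v0 + (β:ℕ) = j ∧ p)) then 1 else 0) +
    ∑ β : Fin V, (if (v0 + (β:ℕ) < j ∨ (v0 + (β:ℕ) = j ∧ q)) then 1 else 0) + 1 =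
    V + (if p then 1 else 0) + (if q then 1 else 0) := by
  have hV : j - v0 < V := by omega
  set β₀ : Fin V := ⟨j - v0, hV⟩ with hβ₀
  have h1 : ∀ β : Fin V, (if (j < v0 + (β:ℕ) ∨ (v0 + (β:ℕ) = j ∧ p)) then 1 else 0) +
      (if (v0 + (β:ℕ) < j ∨ (v0 + (β:ℕ) = j ∧ q)) then 1 else 0) +
      (if β = β₀ then 1 else 0) =
      1 + ((if β = β₀ then (if p then 1 else 0) else 0) +
        (if β = β₀ then (if q then 1 else 0) else 0)) := by
    intro β
    have hb : β = β₀ ↔ v0 + (β:ℕ) = j := by
      rw [hβ₀, Fin.ext_iff]; simp only []; omega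
    by_cases h : β = β₀
    · have h' := hb.mp h
      rw [if_pos h, if_pos h, if_pos h]
      have e1 : ¬ (j < v0 + (β:ℕ)) := by omega
      have e2 : ¬ (v0 + (β:ℕ) < j) := by omega
      simp only [h', lt_irrefl, false_or, true_and]
      omega
    · have h' : ¬ (v0 + (β:ℕ) = j) := fun h2 => h (hb.mpr h2)
      rw [if_neg h, if_neg h, if_neg h]
      simp only [h', false_and, or_false]
      rcases Nat.lt_or_ge j (v0 + (β:ℕ)) with h3 | h3
      · have : ¬ (v0 + (β:ℕ) < j) := by omega
        simp [h3, this]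
      · have h4 : v0 + (β:ℕ) < j := by omega
        have : ¬ (j < v0 + (β:ℕ)) := by omega
        simp [h4, this]
  have h2 := Finset.sum_congr (rfl : (Finset.univ : Finset (Fin V)) = Finset.univ)
    (fun β _ => h1 β)
  simp only [Finset.sum_add_distrib, Finset.sum_ite_eq', Finset.mem_univ, if_true,
    Finset.sum_const, Finset.card_univ, Fintype.card_fin, smul_eq_mul, mul_one] at h2
  omega

lemma sum_const_ite {ι : Type} [Fintype ι] (p : Prop) [Decidable p] :
    ∑ _i : ι, (if p then 1 else 0) = Fintype.card ι * (if p then 1 else 0) := by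
  simp

variable (S₁ : Ev A R₁ k₁ P₁) (S₂ : Cert G R₂ k₂ P₂) (σ : G → ℕ) (Rz Nx V : ℕ)
variable (K : Finset G)

open scoped Classical in
theorem count_bel (hK : K.card = k₂) (hR : ∀ α, σ α ≤ Rz)
    (e : R₁) (i j : ℕ) (hi : i < Nx) (hjlo : Rz * Nx ≤ j) (hj : j < V) (r : R₂) (b : Bool) :
    ∑ q : Idx A G Nx P₁ V, (if bel S₁ S₂ σ Nx V K e i j r b q then 1 else 0) =
      k₁ * (Fintype.card G * V * (2 * Nx + 3 * P₁)) + Fintype.card G * V * (2 * Nx + 2 * P₁) := by
  set Q := Fintype.card G * V with hQ
  have hcardPool : Fintype.card (G × Fin V) = Q := by simp [hQ]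
  have hab := S₁.ab_ne e
  have hYa : ¬ (S₁.s (S₁.a e) * S₁.X e + S₁.t (S₁.a e) < S₁.Y e) := by
    unfold Ev.Y; exact lt_irrefl _
  have hYb : ¬ (S₁.s (S₁.b e) * S₁.X e + S₁.t (S₁.b e) < S₁.Y e) := by
    unfold Ev.Y; rw [S₁.tie e]; exact lt_irrefl _
  -- the pool count
  have hpool : ∑ z : G × Fin V, (if (j < σ z.1 * i + (z.2:ℕ) ∨ (σ z.1 * i + (z.2:ℕ) = j ∧ ¬ z.1 ∈ K))
        then 1 else 0) +
      ∑ z : G × Fin V, (if (σ z.1 * i + (z.2:ℕ) < j ∨ (σ z.1 * i + (z.2:ℕ) = j ∧
        S₂.s z.1 * S₂.x r b + S₂.t z.1 < S₂.y r b)) then 1 else 0) = Q := by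
    simp only [Fintype.sum_prod_type]
    have hrow : ∀ α : G, ∑ β : Fin V, (if (j < σ α * i + (β:ℕ) ∨ (σ α * i + (β:ℕ) = j ∧ ¬ α ∈ K))
        then 1 else 0) + ∑ β : Fin V, (if (σ α * i + (β:ℕ) < j ∨ (σ α * i + (β:ℕ) = j ∧
        S₂.s α * S₂.x r b + S₂.t α < S₂.y r b)) then 1 else 0) + 1 = V + (if ¬ α ∈ K then 1 else 0) +
        (if S₂.s α * S₂.x r b + S₂.t α < S₂.y r b then 1 else 0) := by
      intro α
      apply row_count
      · have : σ α * i ≤ Rz * Nx := Nat.mul_le_mul (hR α) hi.le
        omega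
      · omega
    have h2 := Finset.sum_congr (rfl : (Finset.univ : Finset G) = Finset.univ)
      (fun α _ => hrow α)
    simp only [Finset.sum_add_distrib] at h2
    rw [S₂.hcard r b] at h2
    have h3 : ∑ α : G, (if ¬ α ∈ K then 1 else 0) + k₂ = Fintype.card G := by
      rw [← hK]
      have h4 : ∀ α : G, (if ¬ α ∈ K then 1 else 0) + (if α ∈ K then 1 else 0) = 1 := by
        intro α; by_cases h : α ∈ K <;> simp [h]
      have h5 : K.card = ∑ α : G, (if α ∈ K then 1 else 0) := by simp
      rw [h5, ← Finset.sum_add_distrib, Finset.sum_congr rfl (fun α _ => h4 α)]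
      simp
    simp only [Finset.sum_const, Finset.card_univ, smul_eq_mul, mul_one] at h2
    rw [hQ]
    omega
  -- sum over each bundle
  have hsum : ∀ c : A, ∑ q, (if bel S₁ S₂ σ Nx V K e i j r b (c, q) then 1 else 0) =
      (Q * (2 * Nx + 3 * P₁)) * (if S₁.s c * S₁.X e + S₁.t c < S₁.Y e then 1 else 0) +
      (if c = S₁.a e then Q * (Nx - 1 - i) + Q + Q * S₁.past (S₁.a e) (S₁.X e) else 0) +
      (if c = S₁.b e then Q * Nx + Q * (S₁.c0 e + i) + Q * S₁.past (S₁.b e) (S₁.X e) else 0) := by
    intro c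
    rw [Fintype.sum_sum_type, Fintype.sum_sum_type]
    by_cases hca : c = S₁.a e
    · subst hca
      rw [if_neg hYa, if_pos rfl, if_neg hab, mul_zero, zero_add, add_zero]
      -- T part
      have hT : ∑ q : Fin Nx × (G × Fin V), (if bel S₁ S₂ σ Nx V K e i j r b (S₁.a e, Sum.inl q)
          then 1 else 0) = Q * (Nx - 1 - i) +
          ∑ z : G × Fin V, (if (j < σ z.1 * i + (z.2:ℕ) ∨ (σ z.1 * i + (z.2:ℕ) = j ∧ ¬ z.1 ∈ K))
            then 1 else 0) := by
        rw [Fintype.sum_prod_type]
        have h1 : ∀ i' : Fin Nx, ∑ z : G × Fin V,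
            (if bel S₁ S₂ σ Nx V K e i j r b (S₁.a e, Sum.inl (i', z)) then 1 else 0) =
            (if i < (i':ℕ) then Q else 0) + (if i' = ⟨i, hi⟩ then
              ∑ z : G × Fin V, (if (j < σ z.1 * i + (z.2:ℕ) ∨ (σ z.1 * i + (z.2:ℕ) = j ∧ ¬ z.1 ∈ K))
            then 1 else 0) else 0) := by
          intro i'
          by_cases h : i' = ⟨i, hi⟩
          · subst h
            simp [bel, hab]
          · have h' : (i':ℕ) ≠ i := fun h2 => h (Fin.ext h2)
            rw [if_neg h, add_zero]
            have h3 : ∀ z : G × Fin V, (bel S₁ S₂ σ Nx V K e i j r b (S₁.a e, Sum.inl (i', z)) ↔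
                i < (i':ℕ)) := by
              intro z
              simp [bel, hab, h']
            simp only [h3]
            rw [sum_const_ite, hcardPool]
            split_ifs <;> simp
        rw [Finset.sum_congr rfl (fun i' _ => h1 i'), Finset.sum_add_distrib,
          Finset.sum_ite_eq' Finset.univ (⟨i, hi⟩ : Fin Nx)]
        simp only [Finset.mem_univ, if_true]
        congr 1
        have h4 : ∑ i' : Fin Nx, (if i < (i':ℕ) then Q else 0) = Q * (Nx - 1 - i) := by
          rw [← Finset.sum_filter, Finset.sum_const, smul_eq_mul, mul_comm]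
          congr 1
          have h5 : (Finset.univ.filter (fun i' : Fin Nx => i < (i':ℕ))) =
              Finset.Ioi (⟨i, hi⟩ : Fin Nx) := by
            ext x; simp [Fin.lt_def]
          rw [h5, Fin.card_Ioi]
        exact h4
      -- W part
      have hW : ∑ q : Fin (Nx + 2 * P₁) × (G × Fin V),
          (if bel S₁ S₂ σ Nx V K e i j r b (S₁.a e, Sum.inr (Sum.inl q)) then 1 else 0) = 0 := by
        apply Finset.sum_eq_zero
        rintro ⟨q, z⟩ _
        simp [bel, hab]
      -- S part
      have hS : ∑ q : Fin P₁ × (G × Fin V),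
          (if bel S₁ S₂ σ Nx V K e i j r b (S₁.a e, Sum.inr (Sum.inr q)) then 1 else 0) =
          Q * S₁.past (S₁.a e) (S₁.X e) +
          ∑ z : G × Fin V, (if (σ z.1 * i + (z.2:ℕ) < j ∨ (σ z.1 * i + (z.2:ℕ) = j ∧
        S₂.s z.1 * S₂.x r b + S₂.t z.1 < S₂.y r b)) then 1 else 0) := by
        rw [Fintype.sum_prod_type]
        have h1 : ∀ h : Fin P₁, ∑ z : G × Fin V,
            (if bel S₁ S₂ σ Nx V K e i j r b (S₁.a e, Sum.inr (Sum.inr (h, z))) then 1 else 0) =
            Q * (match S₁.evt (S₁.a e) h with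
              | some e' => if S₁.X e' < S₁.X e then 1 else 0
              | none => 0) + (if h = S₁.slot e then
              ∑ z : G × Fin V, (if (σ z.1 * i + (z.2:ℕ) < j ∨ (σ z.1 * i + (z.2:ℕ) = j ∧
        S₂.s z.1 * S₂.x r b + S₂.t z.1 < S₂.y r b)) then 1 else 0) else 0) := by
          intro h
          by_cases hh : h = S₁.slot e
          · subst hh
            have hev := S₁.evt_self e
            simp [bel, hev]
          · rw [if_neg hh, add_zero]
            rcases hev : S₁.evt (S₁.a e) h with _ | e'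
            · simp [bel, hev]
            · have hsp := S₁.evt_spec hev
              have hne : e' ≠ e := by
                rintro rfl; exact hh hsp.2.symm
              have h3 : ∀ z : G × Fin V,
                  (bel S₁ S₂ σ Nx V K e i j r b (S₁.a e, Sum.inr (Sum.inr (h, z))) ↔
                  S₁.X e' < S₁.X e) := by
                intro z
                simp [bel, hev, hne]
              simp only [h3]
              rw [sum_const_ite, hcardPool]
        rw [Finset.sum_congr rfl (fun h _ => h1 h), Finset.sum_add_distrib,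
          Finset.sum_ite_eq' Finset.univ (S₁.slot e), ← Finset.mul_sum]
        simp only [Finset.mem_univ, if_true]
        rfl
      rw [hT, hW, hS]
      omega
    · by_cases hcb : c = S₁.b e
      · subst hcb
        rw [if_neg hYb, if_neg (Ne.symm hab), if_pos rfl, mul_zero, zero_add, zero_add]
        have hT : ∑ q : Fin Nx × (G × Fin V), (if bel S₁ S₂ σ Nx V K e i j r b (S₁.b e, Sum.inl q)
          then 1 else 0) = Q * Nx := by
          have h3 : ∀ q : Fin Nx × (G × Fin V),
              bel S₁ S₂ σ Nx V K e i j r b (S₁.b e, Sum.inl q) := by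
            intro q; simp [bel]
          simp only [h3, if_true, Finset.sum_const, Finset.card_univ, Fintype.card_prod,
            Fintype.card_fin, smul_eq_mul, mul_one]
          rw [hQ]; ring
        have hW : ∑ q : Fin (Nx + 2 * P₁) × (G × Fin V),
          (if bel S₁ S₂ σ Nx V K e i j r b (S₁.b e, Sum.inr (Sum.inl q)) then 1 else 0) =
            Q * (S₁.c0 e + i) := by
          rw [Fintype.sum_prod_type]
          have h3 : ∀ (q : Fin (Nx + 2 * P₁)) (z : G × Fin V),
              (bel S₁ S₂ σ Nx V K e i j r b (S₁.b e, Sum.inr (Sum.inl (q, z))) ↔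
              (q:ℕ) < S₁.c0 e + i) := by
            intro q z; simp [bel]
          simp only [h3]
          have h4 : ∀ q : Fin (Nx + 2 * P₁), ∑ _z : G × Fin V,
              (if (q:ℕ) < S₁.c0 e + i then 1 else 0) =
              Q * (if (q:ℕ) < S₁.c0 e + i then 1 else 0) := by
            intro q; rw [sum_const_ite, hcardPool]
          rw [Finset.sum_congr rfl (fun q _ => h4 q), ← Finset.mul_sum]
          congr 1
          have hc := S₁.c0_le e
          have hlt : S₁.c0 e + i < Nx + 2 * P₁ := by omega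
          rw [← Finset.card_filter]
          have h5 : (Finset.univ.filter (fun q : Fin (Nx + 2 * P₁) => (q:ℕ) < S₁.c0 e + i)) =
              Finset.Iio (⟨S₁.c0 e + i, hlt⟩ : Fin (Nx + 2 * P₁)) := by
            ext x; simp [Fin.lt_def]
          rw [h5, Fin.card_Iio]
        have hS : ∑ q : Fin P₁ × (G × Fin V),
          (if bel S₁ S₂ σ Nx V K e i j r b (S₁.b e, Sum.inr (Sum.inr q)) then 1 else 0) =
          Q * S₁.past (S₁.b e) (S₁.X e) := by
          rw [Fintype.sum_prod_type]
          have h1 : ∀ h : Fin P₁, ∑ z : G × Fin V,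
            (if bel S₁ S₂ σ Nx V K e i j r b (S₁.b e, Sum.inr (Sum.inr (h, z))) then 1 else 0) =
            Q * (match S₁.evt (S₁.b e) h with
              | some e' => if S₁.X e' < S₁.X e then 1 else 0
              | none => 0) := by
            intro h
            rcases hev : S₁.evt (S₁.b e) h with _ | e'
            · simp [bel, hev]
            · have hsp := S₁.evt_spec hev
              have hne : e' ≠ e := by
                rintro rfl; exact hab hsp.1
              have h3 : ∀ z : G × Fin V,
                  (bel S₁ S₂ σ Nx V K e i j r b (S₁.b e, Sum.inr (Sum.inr (h, z))) ↔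
                  S₁.X e' < S₁.X e) := by
                intro z
                simp [bel, hev, hne]
              simp only [h3]
              rw [sum_const_ite, hcardPool]
          rw [Finset.sum_congr rfl (fun h _ => h1 h), ← Finset.mul_sum]
          rfl
        rw [hT, hW, hS]
        omega
      · rw [if_neg hca, if_neg hcb, add_zero, add_zero]
        have h1 : ∀ q, (bel S₁ S₂ σ Nx V K e i j r b (c, q) ↔
            S₁.s c * S₁.X e + S₁.t c < S₁.Y e) := by
          rintro (⟨i', α, β⟩ | ⟨q, z⟩ | ⟨h, α, β⟩)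
          · simp [bel, hca, hcb]
          · simp [bel, hca, hcb]
          · rcases hev : S₁.evt c h with _ | e'
            · simp [bel, hev, hca, hcb]
            · have hsp := S₁.evt_spec hev
              have hne : e' ≠ e := by
                rintro rfl; exact hca hsp.1.symm
              simp [bel, hev, hca, hcb, hne]
        simp only [h1]
        rw [sum_const_ite, sum_const_ite, sum_const_ite]
        simp only [Fintype.card_prod, Fintype.card_fin]
        rw [hQ]; ring
  rw [Fintype.sum_prod_type, Finset.sum_congr rfl (fun c _ => hsum c), Finset.sum_add_distrib,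
    Finset.sum_add_distrib, ← Finset.mul_sum, Finset.sum_ite_eq', Finset.sum_ite_eq']
  simp only [Finset.mem_univ, if_true]
  have hk := S₁.hcard e
  have hk' : ∑ c, (if S₁.s c * S₁.X e + S₁.t c < S₁.Y e then 1 else 0) = k₁ := hk
  rw [hk']
  have hc := S₁.c0_add e
  obtain ⟨d, hd⟩ : ∃ d, Nx = i + 1 + d := ⟨Nx - (i + 1), by omega⟩
  have hd2 : Nx - 1 - i = d := by omega
  rw [hd2]
  have h2 : Q * (2 * Nx + 2 * P₁) = Q * d + Q + Q * S₁.past (S₁.a e) (S₁.X e) +
      (Q * Nx + Q * (S₁.c0 e + i) + Q * S₁.past (S₁.b e) (S₁.X e)) := by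
    rw [← hc, hd]; ring
  rw [h2]; ring

end

end KLev
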