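import Pool.Agent.KLev.Glue

namespace KLev

open Finset Filter Topology

section

lemma ev_small (c : ℝ) {g : ℝ} (hg : 0 < g) : ∀ᶠ z in 𝓝[>] (0:ℝ), z * c < g := by
  filter_upwards [ev_pos (-c) hg] with z hz
  linarith

lemma ex_inv {P : ℝ → Prop} (h : ∀ᶠ z in 𝓝[>] (0:ℝ), P z) : ∃ m : ℕ, P (1 / ((m:ℝ) + 1)) := by
  have h1 : Tendsto (fun m : ℕ => 1 / ((m:ℝ) + 1)) atTop (𝓝[>] (0:ℝ)) := by
    rw [tendsto_nhdsWithin_iff]
    refine ⟨tendsto_one_div_add_atTop_nhds_zero_nat, ?_⟩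
    filter_upwards with m
    show (0:ℝ) < _
    positivity
  exact (h1.eventually h).exists

variable {A R₁ G R₂ : Type} [Fintype A] [Fintype G] {k₁ P₁ k₂ P₂ : ℕ}

theorem exists_par [Finite R₁] [Finite R₂] (S₁ : Ev A R₁ k₁ P₁) (S₂ : Cert G R₂ k₂ P₂)
    (Rz Nx V : ℕ) :
    ∃ p : Par S₁ S₂ Rz Nx V, ∃ qφ ql qδ : ℚ, p.φ = qφ ∧ p.lam = ql ∧ p.δ = qδ := by
  -- φ
  have h1 : ∀ᶠ (z : ℝ) in 𝓝[>] (0:ℝ), 0 < z ∧ z * (Nx + 1) < 1 / 4 ∧ ∀ e e', S₁.a e' ≠ S₁.a e →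
      S₁.a e' ≠ S₁.b e →
    z * ((S₁.s (S₁.a e') - S₁.s (S₁.b e')) * |S₁.X e - S₁.X e'|) <
      |S₁.s (S₁.a e') * S₁.X e + S₁.t (S₁.a e') - (S₁.s (S₁.a e) * S₁.X e + S₁.t (S₁.a e))| := by
    refine Filter.Eventually.and self_mem_nhdsWithin ((ev_small _ (by norm_num)).and ?_)
    rw [eventually_all]; intro e
    rw [eventually_all]; intro e'
    by_cases hc : S₁.a e' ≠ S₁.a e ∧ S₁.a e' ≠ S₁.b e
    · have hpos := abs_pos.mpr (sub_ne_zero.mpr (S₁.hne e (S₁.a e') hc.1 hc.2))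
      filter_upwards [ev_small ((S₁.s (S₁.a e') - S₁.s (S₁.b e')) * |S₁.X e - S₁.X e'|) hpos]
        with z hz _ _
      exact hz
    · exact Filter.Eventually.of_forall (fun z h1 h2 => absurd ⟨h1, h2⟩ hc)
  obtain ⟨mφ, hφ0, hφ1, hφ2⟩ := ex_inv h1
  set φ : ℝ := 1 / ((mφ:ℝ) + 1) with hφ
  -- lam
  have h2 : ∀ᶠ (z : ℝ) in 𝓝[>] (0:ℝ), 0 < z ∧ z * (Rz * Nx + V + 1) < 1 / 8 ∧
      (∀ r, S₂.x r false + z * S₂.y r false < S₂.x r true + z * S₂.y r true) ∧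
      (∀ r r', r ≠ r' → S₂.x r true + z * S₂.y r true < S₂.x r' false + z * S₂.y r' false ∨
        S₂.x r' true + z * S₂.y r' true < S₂.x r false + z * S₂.y r false) := by
    refine Filter.Eventually.and self_mem_nhdsWithin ((ev_small _ (by norm_num)).and (Filter.Eventually.and ?_ ?_))
    · rw [eventually_all]; intro r
      filter_upwards [ev_pos (S₂.y r true - S₂.y r false) (sub_pos.mpr (S₂.hlt r))] with z hz
      linarith
    · rw [eventually_all]; intro r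
      rw [eventually_all]; intro r'
      by_cases hr : r = r'
      · exact Filter.Eventually.of_forall (fun z h => absurd hr h)
      · rcases S₂.hdisj r r' hr with h | h
        · filter_upwards [ev_pos (S₂.y r' false - S₂.y r true) (sub_pos.mpr h)] with z hz _
          left; linarith
        · filter_upwards [ev_pos (S₂.y r false - S₂.y r' true) (sub_pos.mpr h)] with z hz _
          right; linarith
  obtain ⟨ml, hl0, hl1, hl2, hl3⟩ := ex_inv h2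
  set lam : ℝ := 1 / ((ml:ℝ) + 1) with hlam
  -- κ
  have h3 : ∀ᶠ (z : ℝ) in 𝓝[>] (0:ℝ), 0 < z ∧
      (∀ r b, |z * (S₂.x r b + lam * S₂.y r b)| ≤ lam / 8) ∧
      (∀ r b α, |z * (S₂.s α * S₂.x r b + S₂.t α - S₂.y r b)| ≤ 1 / 2) ∧
      (∀ r b, |z * S₂.y r b| ≤ 1 / 2) := by
    have aux : ∀ (c g : ℝ), 0 < g → ∀ᶠ z in 𝓝[>] (0:ℝ), |z * c| ≤ g := by
      intro c g hg
      filter_upwards [ev_small |c| hg, self_mem_nhdsWithin] with z hz hz0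
      have hz0' : (0:ℝ) < z := hz0
      rw [abs_mul, abs_of_pos hz0']; exact hz.le
    refine Filter.Eventually.and self_mem_nhdsWithin (Filter.Eventually.and ?_ (Filter.Eventually.and ?_ ?_))
    · rw [eventually_all]; intro r
      rw [eventually_all]; intro b
      exact aux _ _ (by positivity)
    · rw [eventually_all]; intro r
      rw [eventually_all]; intro b
      rw [eventually_all]; intro α
      exact aux _ _ (by norm_num)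
    · rw [eventually_all]; intro r
      rw [eventually_all]; intro b
      exact aux _ _ (by norm_num)
  obtain ⟨κ, hκ0, hκ1, hκ2, hκ3⟩ := h3.exists
  -- δ
  have h4 : ∀ᶠ (z : ℝ) in 𝓝[>] (0:ℝ), 0 < z ∧ z * (V + 1) < φ * lam / 8 ∧ z * (V + 1) < 1 / 8 ∧
      z * (Rz + 1) < φ :=
    Filter.Eventually.and self_mem_nhdsWithin ((ev_small _ (by positivity)).and
      ((ev_small _ (by norm_num)).and (ev_small _ hφ0)))
  obtain ⟨md, hδ0, hδ1, hδ2, hδ3⟩ := ex_inv h4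
  refine ⟨{ φ := φ, lam := lam, κ := κ, δ := 1 / ((md:ℝ) + 1)
            hφ0 := hφ0, hφ1 := hφ1.le, hφ2 := hφ2, hl0 := hl0, hl1 := hl1.le, hl2 := hl2
            hl3 := hl3, hκ0 := hκ0, hκ1 := hκ1, hκ2 := hκ2, hκ3 := hκ3
            hδ0 := hδ0, hδ1 := hδ1.le, hδ2 := hδ2.le, hδ3 := hδ3 },
    1 / ((mφ:ℚ) + 1), 1 / ((ml:ℚ) + 1), 1 / ((md:ℚ) + 1), ?_, ?_, ?_⟩
  · simp only [hφ]; push_cast; rfl
  · simp only [hlam]; push_cast; rfl
  · push_cast; rfl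

/-- all slopes are rational -/
def RatSlopes {ι : Type} (s : ι → ℝ) : Prop := ∀ i, ∃ q : ℚ, s i = q

lemma slp_rat (S₁ : Ev A R₁ k₁ P₁) (S₂ : Cert G R₂ k₂ P₂) (σ : G → ℕ) (Rz Nx V : ℕ)
    (p : Par S₁ S₂ Rz Nx V) (hq : ∃ qφ ql qδ : ℚ, p.φ = qφ ∧ p.lam = ql ∧ p.δ = qδ)
    (hs : RatSlopes S₁.s) : RatSlopes (slp S₁ S₂ σ Rz Nx V p) := by
  obtain ⟨qφ, ql, qδ, h1, h2, h3⟩ := hq
  rintro ⟨c, ⟨i, α, β⟩ | ⟨q, α, β⟩ | ⟨h, α, β⟩⟩
  · exact hs c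
  · exact hs c
  · simp only [slp]
    rcases S₁.evt c h with _ | e
    · exact hs c
    · obtain ⟨u, hu⟩ := hs c
      obtain ⟨v, hv⟩ := hs (S₁.a e)
      obtain ⟨w, hw⟩ := hs (S₁.b e)
      refine ⟨u - (qφ - qδ * σ α / (1 + ql * σ α)) / (1 + qφ) * (v - w), ?_⟩
      simp only [psi, Ev.D, hu, hv, hw, h1, h2, h3]
      push_cast
      rfl

/-- composition with rational slopes preserved -/
theorem compose [Finite R₁] [Finite R₂] (S₁ : Ev A R₁ k₁ P₁) (S₂ : Cert G R₂ k₂ P₂)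
    (σ : G → ℕ) (Rz Nx V₁ : ℕ) (hσ : ∀ α, S₂.s α = σ α) (hR : ∀ α, σ α ≤ Rz)
    (hk : k₂ ≤ Fintype.card G) (hs : RatSlopes S₁.s) :
    ∃ C : Cert (Idx A G Nx P₁ (Rz * Nx + V₁)) (R₁ × ((Fin Nx × Fin V₁) × R₂))
      (k₁ * (Fintype.card G * (Rz * Nx + V₁) * (2 * Nx + 3 * P₁)) +
        Fintype.card G * (Rz * Nx + V₁) * (2 * Nx + 2 * P₁)) (Nx * P₂),
      RatSlopes C.s := by
  obtain ⟨p, hp⟩ := exists_par S₁ S₂ Rz Nx (Rz * Nx + V₁)
  obtain ⟨K, -, hK⟩ := Finset.exists_subset_card_eq (s := (Finset.univ : Finset G)) (n := k₂)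
    (by rw [Finset.card_univ]; exact hk)
  obtain ⟨C, hC⟩ := compose_cert S₁ S₂ σ Rz Nx V₁ p K hK hσ hR
  refine ⟨C, ?_⟩
  intro q
  obtain ⟨u, hu⟩ := slp_rat S₁ S₂ σ Rz Nx (Rz * Nx + V₁) p hp hs q
  exact ⟨u, by rw [hC, hu]⟩

end

end KLev
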