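import Pool.Agent.KLev.Growth

/-!
# The asymptotic statement
-/

namespace KLev

open Finset Filter Topology

section

/-- for every `C`, all large `m`: at most `m` lines with at least `4 m exp (C sqrt (log (4 m)))`
changes -/
theorem final (C : ℝ) (hC : 0 ≤ C) : ∀ᶠ m : ℕ in atTop, ∃ N E P, Has N E P ∧ N ≤ m ∧
    ((4 * m : ℕ) : ℝ) * Real.exp (C * Real.sqrt (Real.log (4 * m : ℕ))) ≤ E := by
  set L : ℝ := Real.log β₀ with hL
  have hL0 : 0 < L := Real.log_pos one_lt_β₀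
  set C₀ : ℝ := Real.log 200 / L with hC₀
  have h200 : 0 < Real.log 200 := Real.log_pos (by norm_num)
  have hC₀0 : 0 < C₀ := div_pos h200 hL0
  obtain ⟨j, hj⟩ : ∃ j : ℕ, 2 * C₀ * (C + 1) ^ 2 ≤ 2 ^ j * L := by
    obtain ⟨j, hj⟩ := pow_unbounded_of_one_lt (2 * C₀ * (C + 1) ^ 2 / L) (one_lt_two (α := ℝ))
    refine ⟨j, ?_⟩
    rw [div_lt_iff₀ hL0] at hj
    exact hj.le
  obtain ⟨M, hM, hcore⟩ := core j
  set lb : ℝ := 2 ^ j * L with hlb
  have hlb0 : 0 < lb := by positivity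
  set lQ : ℝ := 2 ^ j * Real.log 200 with hlQ
  have hlQ0 : 0 < lQ := by positivity
  have hlQb : lQ = C₀ * lb := by
    rw [hlQ, hC₀, hlb]; field_simp
  set D : ℝ := Real.sqrt (2 * lQ) with hD
  have hD0 : 0 < D := Real.sqrt_pos.mpr (by positivity)
  have hDsq : D ^ 2 = 2 * lQ := Real.sq_sqrt (by positivity)
  have hDb : (C + 1) * D ≤ lb := by
    apply abs_le_of_sq_le_sq' _ hlb0.le |>.2
    rw [mul_pow, hDsq, hlQb, sq lb]
    nlinarith
  -- tendsto
  have hlog : Tendsto (fun m : ℕ => Real.sqrt (Real.log (m:ℝ))) atTop atTop :=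
    Real.tendsto_sqrt_atTop.comp (Real.tendsto_log_atTop.comp tendsto_natCast_atTop_atTop)
  have h1 := hlog.eventually (eventually_ge_atTop (D * (3 + Real.log M / lQ)))
  have h2 := hlog.eventually (eventually_ge_atTop (lb + Real.log 4 + 2 * C))
  filter_upwards [h1, h2, eventually_ge_atTop 1] with m hm1 hm2 hm3
  have hmR : (1:ℝ) ≤ m := by exact_mod_cast hm3
  set w : ℝ := Real.sqrt (Real.log (m:ℝ)) with hw
  have hlogm : 0 ≤ Real.log (m:ℝ) := Real.log_nonneg hmR
  have hw0 : 0 ≤ w := Real.sqrt_nonneg _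
  have hwsq : w ^ 2 = Real.log (m:ℝ) := Real.sq_sqrt hlogm
  set I : ℕ := ⌊w / D⌋₊ with hI
  have hwD : 0 ≤ w / D := div_nonneg hw0 hD0.le
  have hI1 : (I:ℝ) ≤ w / D := Nat.floor_le hwD
  have hI2 : w / D < I + 1 := Nat.lt_floor_add_one _
  have hMlog : 0 ≤ Real.log M := Real.log_nonneg (by exact_mod_cast hM)
  have hwD2 : 3 + Real.log M / lQ ≤ w / D := by
    rw [le_div_iff₀ hD0]; linarith
  have hdiv : 0 ≤ Real.log M / lQ := by positivity
  have hI3 : 2 + Real.log M / lQ < I := by linarith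
  have hI4 : 2 ≤ I := by
    have : (2:ℝ) < I := by linarith
    exact_mod_cast this.le
  have hI5 : Real.log M ≤ I * lQ := by
    have : Real.log M / lQ < I := by linarith
    rw [div_lt_iff₀ hlQ0] at this
    exact this.le
  have hthr : M ^ I * (200 ^ (2 ^ j)) ^ (I ^ 2) ≤ m := by
    have hMR : (0:ℝ) < M := by exact_mod_cast hM
    have : ((M:ℝ) ^ I * (200 ^ (2 ^ j)) ^ (I ^ 2)) ≤ m := by
      rw [← Real.log_le_log_iff (by positivity) (by positivity), Real.log_mul (by positivity)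
        (by positivity), Real.log_pow, Real.log_pow, Real.log_pow]
      have e : ((I ^ 2 : ℕ) : ℝ) * (((2 ^ j : ℕ) : ℝ) * Real.log 200) = (I:ℝ) ^ 2 * lQ := by
        rw [hlQ]; push_cast; ring
      rw [e, ← hwsq]
      have h3 : (I:ℝ) * Real.log M ≤ I * (I * lQ) := mul_le_mul_of_nonneg_left hI5 (by positivity)
      have h4 : (I:ℝ) * D ≤ w := by rwa [le_div_iff₀ hD0] at hI1
      have h5 : ((I:ℝ) * D) ^ 2 ≤ w ^ 2 := pow_le_pow_left₀ (by positivity) h4 2
      rw [mul_pow, hDsq] at h5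
      nlinarith
    exact_mod_cast this
  obtain ⟨N, E, P, hH, hN, hE⟩ := hcore I m hI4 hthr
  refine ⟨N, E, P, hH, hN, le_trans ?_ hE⟩
  have hb0 : (0:ℝ) < β₀ := by linarith [one_lt_β₀]
  have e1 : (β₀ ^ (2 ^ j)) ^ I = Real.exp (I * lb) := by
    rw [← Real.exp_log (pow_pos (pow_pos hb0 (2 ^ j)) I), Real.log_pow, Real.log_pow]
    congr 1
    rw [hlb, hL]; push_cast; ring
  rw [e1]
  have e2 : ((4 * m : ℕ) : ℝ) = Real.exp (Real.log 4) * m := by
    rw [Real.exp_log (by norm_num)]; push_cast; ring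
  have e3 : Real.log ((4 * m : ℕ) : ℝ) = Real.log 4 + w ^ 2 := by
    rw [hwsq]; push_cast
    rw [Real.log_mul (by norm_num) (by positivity)]
  rw [e3, e2]
  have hlog4 : Real.log 4 ≤ 2 := by
    have : Real.log 4 = 2 * Real.log 2 := by
      rw [show (4:ℝ) = 2 ^ 2 by norm_num, Real.log_pow]; norm_num
    rw [this]
    have := Real.log_two_lt_d9
    linarith
  have hlog40 : 0 ≤ Real.log 4 := Real.log_nonneg (by norm_num)
  have hsq : Real.sqrt (Real.log 4 + w ^ 2) ≤ w + 2 := by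
    rw [Real.sqrt_le_left (by positivity)]
    nlinarith
  have h6 : Real.log 4 + C * Real.sqrt (Real.log 4 + w ^ 2) ≤ I * lb := by
    have h7 : C * Real.sqrt (Real.log 4 + w ^ 2) ≤ C * (w + 2) :=
      mul_le_mul_of_nonneg_left hsq hC
    have h8 : (w / D - 1) * lb ≤ I * lb :=
      mul_le_mul_of_nonneg_right (by linarith) hlb0.le
    have h9 : (C + 1) * w ≤ w / D * lb := by
      rw [div_mul_eq_mul_div, le_div_iff₀ hD0]
      nlinarith [mul_le_mul_of_nonneg_left hDb hw0]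
    nlinarith
  calc Real.exp (Real.log 4) * m * Real.exp (C * Real.sqrt (Real.log 4 + w ^ 2))
      = Real.exp (Real.log 4 + C * Real.sqrt (Real.log 4 + w ^ 2)) * m := by
        rw [Real.exp_add]; ring
    _ ≤ Real.exp (I * lb) * m := by
        apply mul_le_mul_of_nonneg_right _ (by positivity)
        exact Real.exp_le_exp.mpr h6

end

end KLev
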