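import Pool.Agent.KLev.Final

namespace KLev

open Finset Filter Topology

section

/-- a variant with an arbitrary constant factor -/
theorem final' (C A : ℝ) (hC : 0 ≤ C) : ∀ᶠ m : ℕ in atTop, ∃ N E P, Has N E P ∧ N ≤ m ∧
    A * m * Real.exp (C * Real.sqrt (Real.log (8 * m))) ≤ E := by
  have hlog : Tendsto (fun m : ℕ => Real.exp (Real.sqrt (Real.log (m:ℝ)))) atTop atTop :=
    Real.tendsto_exp_atTop.comp
      (Real.tendsto_sqrt_atTop.comp (Real.tendsto_log_atTop.comp tendsto_natCast_atTop_atTop))
  filter_upwards [final (C + 1) (by linarith), eventually_ge_atTop 1,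
    hlog.eventually (eventually_ge_atTop (A * Real.exp C))] with m hm hm1 hm2
  obtain ⟨N, E, P, h1, h2, h3⟩ := hm
  refine ⟨N, E, P, h1, h2, le_trans ?_ h3⟩
  have hmR : (1:ℝ) ≤ m := by exact_mod_cast hm1
  have e4 : ((4 * m : ℕ) : ℝ) = 4 * m := by push_cast; ring
  rw [e4]
  have hl4 : 0 ≤ Real.log (4 * m) := Real.log_nonneg (by linarith)
  have e8 : Real.log (8 * m) = Real.log 2 + Real.log (4 * m) := by
    rw [← Real.log_mul (by norm_num) (by positivity)]
    congr 1; ring
  set w : ℝ := Real.sqrt (Real.log (4 * m)) with hw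
  have hw0 : 0 ≤ w := Real.sqrt_nonneg _
  have hwsq : w ^ 2 = Real.log (4 * m) := Real.sq_sqrt hl4
  have hlog2 : Real.log 2 ≤ 1 := by
    have := Real.log_two_lt_d9; linarith
  have hsq : Real.sqrt (Real.log (8 * m)) ≤ w + 1 := by
    rw [Real.sqrt_le_left (by positivity), e8, ← hwsq]
    nlinarith
  have hw1 : Real.sqrt (Real.log (m:ℝ)) ≤ w := by
    apply Real.sqrt_le_sqrt
    apply Real.log_le_log (by linarith)
    linarith
  have h4 : A * Real.exp C ≤ Real.exp w := hm2.trans (Real.exp_le_exp.mpr hw1)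
  rcases le_or_gt A 0 with hA | hA
  · have h5 : A * m * Real.exp (C * Real.sqrt (Real.log (8 * m))) ≤ 0 := by
      apply mul_nonpos_of_nonpos_of_nonneg _ (Real.exp_pos _).le
      exact mul_nonpos_of_nonpos_of_nonneg hA (by linarith)
    refine h5.trans (by positivity)
  calc A * m * Real.exp (C * Real.sqrt (Real.log (8 * m)))
      ≤ A * m * Real.exp (C * (w + 1)) := by
        apply mul_le_mul_of_nonneg_left _ (by positivity)
        exact Real.exp_le_exp.mpr (mul_le_mul_of_nonneg_left hsq hC)
    _ = m * Real.exp (C * w) * (A * Real.exp C) := by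
        rw [mul_add, mul_one, Real.exp_add]; ring
    _ ≤ m * Real.exp (C * w) * Real.exp w :=
        mul_le_mul_of_nonneg_left h4 (by positivity)
    _ = 1 * m * Real.exp ((C + 1) * w) := by
        rw [add_mul, one_mul, Real.exp_add]; ring
    _ ≤ 4 * m * Real.exp ((C + 1) * w) := by
        apply mul_le_mul_of_nonneg_right _ (Real.exp_pos _).le
        linarith

end

end KLev
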