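import Pool.Agent.KLev.Regular

/-!
# Perturbation into general position
-/

namespace KLev

open Finset Filter Topology

section

/-- a small perturbation along the moment curve is in general position -/
theorem ev_genpos {d : ℕ} {ι : Type} [Finite ι] (p : ι → Fin d → ℝ) (τ : ι → ℝ)
    (hτ : Function.Injective τ) : ∀ᶠ ε in 𝓝[>] (0:ℝ), ∀ f : Fin (d + 1) → ι,
      Function.Injective f → ∀ (w : Fin d → ℝ) (c : ℝ), w ≠ 0 →
        ¬ ∀ k, ∑ i, w i * (p (f k) i + ε * τ (f k) ^ ((i:ℕ) + 1)) = c := by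
  rw [eventually_all]; intro f
  by_cases hf : Function.Injective f
  swap
  · exact Filter.Eventually.of_forall (fun _ h => absurd h hf)
  set M : ℝ → Matrix (Fin (d + 1)) (Fin (d + 1)) ℝ := fun ε => Matrix.of fun k j =>
    Fin.cases (1:ℝ) (fun i => p (f k) i + ε * τ (f k) ^ ((i:ℕ) + 1)) j with hM
  set N : ℝ → Matrix (Fin (d + 1)) (Fin (d + 1)) ℝ := fun η => Matrix.of fun k j =>
    Fin.cases (1:ℝ) (fun i => η * p (f k) i + τ (f k) ^ ((i:ℕ) + 1)) j with hN
  set Q : Matrix (Fin (d + 1)) (Fin (d + 1)) (Polynomial ℝ) := Matrix.of fun k j =>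
    Fin.cases (1 : Polynomial ℝ) (fun i => Polynomial.C (p (f k) i) +
      Polynomial.X * Polynomial.C (τ (f k) ^ ((i:ℕ) + 1))) j with hQ
  have hQM : ∀ ε, (Q.det).eval ε = (M ε).det := by
    intro ε
    have h := RingHom.map_det (Polynomial.evalRingHom ε) Q
    rw [Polynomial.coe_evalRingHom] at h
    rw [h]
    congr 1
    ext k j
    refine Fin.cases ?_ (fun i => ?_) j
    · simp [hQ, hM]
    · simp [hQ, hM]
  have hMN : ∀ ε, ε ≠ 0 → (M ε).det = (∏ j, (Fin.cases (1:ℝ) (fun _ : Fin d => ε) : Fin (d + 1) → ℝ) j) * (N ε⁻¹).det := by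
    intro ε hε
    rw [← Matrix.det_mul_row]
    congr 1
    ext k j
    refine Fin.cases ?_ (fun i => ?_) j
    · simp [hM, hN]
    · simp only [hM, hN, Matrix.of_apply, Fin.cases_succ]
      field_simp
  have hN0 : (N 0).det ≠ 0 := by
    have e : N 0 = Matrix.vandermonde (fun k => τ (f k)) := by
      ext k j
      refine Fin.cases ?_ (fun i => ?_) j
      · simp [hN, Matrix.vandermonde]
      · simp [hN, Matrix.vandermonde]
    rw [e, Matrix.det_vandermonde_ne_zero_iff]
    exact hτ.comp hf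
  have hNc : Continuous fun η => (N η).det := by
    apply Continuous.matrix_det
    apply continuous_matrix
    intro k j
    refine Fin.cases ?_ (fun i => ?_) j
    · simp only [hN, Matrix.of_apply, Fin.cases_zero]; exact continuous_const
    · simp only [hN, Matrix.of_apply, Fin.cases_succ]; fun_prop
  have hQ0 : Q.det ≠ 0 := by
    intro h
    apply hN0
    have h1 : ∀ η : ℝ, η ≠ 0 → (N η).det = 0 := by
      intro η hη
      have h2 := hMN η⁻¹ (inv_ne_zero hη)
      rw [← hQM, h, Polynomial.eval_zero, inv_inv] at h2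
      have h3 : (∏ j, (Fin.cases (1:ℝ) (fun _ : Fin d => η⁻¹) : Fin (d + 1) → ℝ) j) ≠ 0 := by
        rw [Finset.prod_ne_zero_iff]
        intro j _
        refine Fin.cases ?_ (fun i => ?_) j
        · simp
        · simpa using hη
      exact (mul_eq_zero.mp h2.symm).resolve_left h3
    have h4 : Tendsto (fun η => (N η).det) (𝓝[≠] (0:ℝ)) (𝓝 (N 0).det) :=
      (hNc.tendsto 0).mono_left nhdsWithin_le_nhds
    have h5 : Tendsto (fun η => (N η).det) (𝓝[≠] (0:ℝ)) (𝓝 0) := by
      apply tendsto_const_nhds.congr'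
      filter_upwards [self_mem_nhdsWithin] with η hη
      exact (h1 η hη).symm
    exact tendsto_nhds_unique h4 h5
  filter_upwards [ev_poly hQ0] with ε hε _ w c hw hall
  rw [hQM] at hε
  apply hw
  have h6 : (M ε).mulVec (Fin.cases (-c) w) = 0 := by
    ext k
    simp only [Matrix.mulVec, dotProduct, Fin.sum_univ_succ, hM, Matrix.of_apply, Fin.cases_zero,
      Fin.cases_succ, Pi.zero_apply]
    have := hall k
    rw [← this]
    have e : ∀ i, (p (f k) i + ε * τ (f k) ^ ((i:ℕ) + 1)) * w i =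
      w i * (p (f k) i + ε * τ (f k) ^ ((i:ℕ) + 1)) := fun i => mul_comm _ _
    simp only [e]
    ring
  have h7 := Matrix.eq_zero_of_mulVec_eq_zero hε h6
  ext i
  have := congrFun h7 i.succ
  simpa using this

/-- general position of the image of an indexed family -/
lemma genpos_image {d : ℕ} {ι : Type} [Fintype ι] (p' : ι → Fin d → ℝ)
    (H : ∀ f : Fin (d + 1) → ι, Function.Injective f → ∀ (w : Fin d → ℝ) (c : ℝ), w ≠ 0 →
        ¬ ∀ k, ∑ i, w i * p' (f k) i = c) (S : Finset (Fin d → ℝ)) (hS : ∀ q ∈ S, ∃ v, p' v = q)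
    (w : Fin d → ℝ) (c : ℝ) (hw : w ≠ 0)
    (T : Finset (Fin d → ℝ)) (hT : T ⊆ S) (hT2 : ∀ q ∈ T, ∑ i, w i * q i = c) : T.card ≤ d := by
  classical
  by_contra hcon
  push Not at hcon
  have h1 : Fintype.card (Fin (d + 1)) ≤ Fintype.card T := by
    simp only [Fintype.card_fin, Fintype.card_coe]; omega
  obtain ⟨g⟩ := Function.Embedding.nonempty_of_card_le h1
  choose f hf using fun k => hS _ (hT (g k).2)
  refine H f ?_ w c hw ?_
  · intro k k' h
    apply g.injective
    apply Subtype.ext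
    rw [← hf, ← hf, h]
  · intro k
    rw [hf k]
    exact hT2 _ (g k).2

/-- perturbed points are distinct -/
lemma ev_inj {d : ℕ} (hd : 0 < d) {ι : Type} [Finite ι] (p : ι → Fin d → ℝ) (τ : ι → ℝ)
    (hτ : Function.Injective τ) : ∀ᶠ ε in 𝓝[>] (0:ℝ), Function.Injective
      (fun v => fun i : Fin d => p v i + ε * τ v ^ ((i:ℕ) + 1)) := by
  have h : ∀ᶠ ε in 𝓝[>] (0:ℝ), ∀ v v', v ≠ v' →
      (p v ⟨0, hd⟩ - p v' ⟨0, hd⟩) + ε * (τ v - τ v') ≠ 0 := by
    rw [eventually_all]; intro v
    rw [eventually_all]; intro v'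
    by_cases hvv : v = v'
    · exact Filter.Eventually.of_forall (fun _ h => absurd hvv h)
    have hτ' : τ v - τ v' ≠ 0 := sub_ne_zero.mpr (fun h => hvv (hτ h))
    by_cases h0 : p v ⟨0, hd⟩ - p v' ⟨0, hd⟩ = 0
    · filter_upwards [self_mem_nhdsWithin] with ε hε _
      have hε' : (0:ℝ) < ε := hε
      rw [h0, zero_add]
      exact mul_ne_zero hε'.ne' hτ'
    · filter_upwards [ev_sign (τ v - τ v') h0] with ε hε _
      exact hε.1
  filter_upwards [h] with ε hε v v' hvv
  by_contra hne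
  apply hε v v' hne
  have h1 := congrFun hvv ⟨0, hd⟩
  simp only [zero_add, pow_one] at h1
  linarith

end

end KLev
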