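import Pool.Agent.KLev.Count

namespace KLev

open Finset Filter Topology

section

variable {A R₁ G R₂ : Type} [Fintype A] [Fintype G] {k₁ P₁ k₂ P₂ : ℕ}
variable (S₁ : Ev A R₁ k₁ P₁) (S₂ : Cert G R₂ k₂ P₂) (σ : G → ℕ) (Rz Nx V₁ : ℕ)
variable (p : Par S₁ S₂ Rz Nx (Rz * Nx + V₁)) (K : Finset G)

/-- the intercept index of the pool line through a full lattice point -/
def beta0 (hR : ∀ α, σ α ≤ Rz) (α : G) (i : Fin Nx) (j : Fin V₁) : Fin (Rz * Nx + V₁) :=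
  ⟨Rz * Nx + j - σ α * i, by have := j.2; omega⟩

omit [Fintype G] in
lemma beta0_spec (hR : ∀ α, σ α ≤ Rz) (α : G) (i : Fin Nx) (j : Fin V₁) :
    σ α * (i:ℕ) + (beta0 σ Rz Nx V₁ hR α i j : ℕ) = Rz * Nx + j := by
  unfold beta0
  have : σ α * (i:ℕ) ≤ Rz * Nx := Nat.mul_le_mul (hR α) i.2.le
  simp only []
  omega

lemma xi_lt_of (i i' j j' : ℕ) (hj : j < Rz * Nx + V₁) (hj' : j' < Rz * Nx + V₁)
    (r r' : R₂) (b b' : Bool)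
    (h : i < i' ∨ (i = i' ∧ j < j') ∨ (i = i' ∧ j = j' ∧
      S₂.x r b + p.lam * S₂.y r b < S₂.x r' b' + p.lam * S₂.y r' b')) :
    xiS S₁ S₂ Rz Nx (Rz * Nx + V₁) p i j r b < xiS S₁ S₂ Rz Nx (Rz * Nx + V₁) p i' j' r' b' := by
  obtain ⟨h1, h2, h3, h4⟩ := xi_bounds (i := i) (j := j) (V := Rz * Nx + V₁) (Rz := Rz) (Nx := Nx)
    (κ := p.κ) (x := S₂.x r b) (y := S₂.y r b) p.hl0 p.hl1 hj (p.hκ1 r b)
  obtain ⟨h1', h2', h3', h4'⟩ := xi_bounds (i := i') (j := j') (V := Rz * Nx + V₁) (Rz := Rz)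
    (Nx := Nx) (κ := p.κ) (x := S₂.x r' b') (y := S₂.y r' b') p.hl0 p.hl1 hj' (p.hκ1 r' b')
  have hl := p.hl0
  unfold xiS
  have hj0 : 0 ≤ p.lam * j' := by positivity
  rcases h with h | ⟨h, h'⟩ | ⟨h, h', h''⟩
  · have hc : (i:ℝ) + 1 ≤ i' := by exact_mod_cast h
    linarith
  · subst h
    have hc : (j:ℝ) + 1 ≤ j' := by exact_mod_cast h'
    have : p.lam * (j + 1) ≤ p.lam * j' := mul_le_mul_of_nonneg_left hc hl.le
    linarith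
  · subst h; subst h'
    have := mul_lt_mul_of_pos_left h'' p.hκ0
    linarith

lemma US_lt_of (e : R₁) (i i' j j' : ℕ) (r r' : R₂) (b b' : Bool)
    (h : xiS S₁ S₂ Rz Nx (Rz * Nx + V₁) p i j r b <
      xiS S₁ S₂ Rz Nx (Rz * Nx + V₁) p i' j' r' b') (ε : ℝ) (hε : 0 < ε) :
    xs S₁ S₂ Rz Nx (Rz * Nx + V₁) p ε e i j r b <
      xs S₁ S₂ Rz Nx (Rz * Nx + V₁) p ε e i' j' r' b' := by
  have hD := S₁.D_pos e
  have hφ := p.hφ0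
  unfold xs US
  have h1 : (1 + p.φ) * xiS S₁ S₂ Rz Nx (Rz * Nx + V₁) p i j r b <
      (1 + p.φ) * xiS S₁ S₂ Rz Nx (Rz * Nx + V₁) p i' j' r' b' :=
    mul_lt_mul_of_pos_left h (by linarith)
  have h2 := div_lt_div_of_pos_right (add_lt_add_right h1 ((S₁.c0 e:ℝ) + 1/2)) hD
  have h3 := mul_lt_mul_of_pos_left h2 hε
  linarith

theorem compose_cert [Finite R₁] [Finite R₂] (hK : K.card = k₂)
    (hσ : ∀ α, S₂.s α = σ α) (hR : ∀ α, σ α ≤ Rz) :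
    ∃ C : Cert (Idx A G Nx P₁ (Rz * Nx + V₁)) (R₁ × ((Fin Nx × Fin V₁) × R₂))
      (k₁ * (Fintype.card G * (Rz * Nx + V₁) * (2 * Nx + 3 * P₁)) +
        Fintype.card G * (Rz * Nx + V₁) * (2 * Nx + 2 * P₁)) (Nx * P₂),
      ∀ q, C.s q = slp S₁ S₂ σ Rz Nx (Rz * Nx + V₁) p q := by
  classical
  -- choose ε
  have hsign : ∀ᶠ ε in 𝓝[>] (0:ℝ), ∀ (z : R₁ × ((Fin Nx × Fin V₁) × R₂)) (b : Bool)
      (q : Idx A G Nx P₁ (Rz * Nx + V₁)),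
      (slp S₁ S₂ σ Rz Nx (Rz * Nx + V₁) p q *
        xs S₁ S₂ Rz Nx (Rz * Nx + V₁) p ε z.1 z.2.1.1 (Rz * Nx + z.2.1.2) z.2.2 b +
        icp S₁ S₂ σ Rz Nx (Rz * Nx + V₁) p K ε q -
        ys S₁ S₂ Rz Nx (Rz * Nx + V₁) p ε z.1 z.2.1.1 (Rz * Nx + z.2.1.2) z.2.2 b ≠ 0 ∧
      (slp S₁ S₂ σ Rz Nx (Rz * Nx + V₁) p q *
        xs S₁ S₂ Rz Nx (Rz * Nx + V₁) p ε z.1 z.2.1.1 (Rz * Nx + z.2.1.2) z.2.2 b +
        icp S₁ S₂ σ Rz Nx (Rz * Nx + V₁) p K ε q -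
        ys S₁ S₂ Rz Nx (Rz * Nx + V₁) p ε z.1 z.2.1.1 (Rz * Nx + z.2.1.2) z.2.2 b < 0 ↔
        bel S₁ S₂ σ Nx (Rz * Nx + V₁) K z.1 z.2.1.1 (Rz * Nx + z.2.1.2) z.2.2 b q)) := by
    rw [eventually_all]; intro z
    rw [eventually_all]; intro b
    rw [eventually_all]; intro q
    exact sign_line S₁ S₂ σ Rz Nx (Rz * Nx + V₁) p K hσ hR z.1 z.2.1.1 (Rz * Nx + z.2.1.2)
      z.2.1.1.2 (by have := z.2.1.2.2; omega) z.2.2 b q
  have hsep : ∀ᶠ ε in 𝓝[>] (0:ℝ), ∀ (z z' : R₁ × ((Fin Nx × Fin V₁) × R₂)),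
      S₁.X z.1 < S₁.X z'.1 →
      xs S₁ S₂ Rz Nx (Rz * Nx + V₁) p ε z.1 z.2.1.1 (Rz * Nx + z.2.1.2) z.2.2 true <
      xs S₁ S₂ Rz Nx (Rz * Nx + V₁) p ε z'.1 z'.2.1.1 (Rz * Nx + z'.2.1.2) z'.2.2 false := by
    rw [eventually_all]; intro z
    rw [eventually_all]; intro z'
    by_cases h : S₁.X z.1 < S₁.X z'.1
    · have h1 := ev_pos (A := S₁.X z'.1 - S₁.X z.1)
        (US S₁ S₂ Rz Nx (Rz * Nx + V₁) p z'.1 z'.2.1.1 (Rz * Nx + z'.2.1.2) z'.2.2 false / S₁.D z'.1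
        - US S₁ S₂ Rz Nx (Rz * Nx + V₁) p z.1 z.2.1.1 (Rz * Nx + z.2.1.2) z.2.2 true / S₁.D z.1)
        (sub_pos.mpr h)
      filter_upwards [h1] with ε h2 _
      unfold xs
      linarith
    · exact Filter.Eventually.of_forall (fun _ h' => absurd h' h)
  obtain ⟨ε, hs, hsep, hε⟩ := (hsign.and (hsep.and self_mem_nhdsWithin)).exists
  have hε' : (0:ℝ) < ε := hε
  refine ⟨{
    s := slp S₁ S₂ σ Rz Nx (Rz * Nx + V₁) p
    t := icp S₁ S₂ σ Rz Nx (Rz * Nx + V₁) p K ε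
    x := fun z b => xs S₁ S₂ Rz Nx (Rz * Nx + V₁) p ε z.1 z.2.1.1 (Rz * Nx + z.2.1.2) z.2.2 b
    y := fun z b => ys S₁ S₂ Rz Nx (Rz * Nx + V₁) p ε z.1 z.2.1.1 (Rz * Nx + z.2.1.2) z.2.2 b
    l := fun z => (S₁.a z.1, Sum.inr (Sum.inr (S₁.slot z.1,
      (S₂.l z.2.2, beta0 σ Rz Nx V₁ hR (S₂.l z.2.2) z.2.1.1 z.2.1.2))))
    slot := fun z => finProdFinEquiv (z.2.1.1, S₂.slot z.2.2)
    hlt := ?_, hdisj := ?_, hne := ?_, hcard := ?_, hl0 := ?_, hl1 := ?_, hslot := ?_ }, ?_⟩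
  · intro z
    apply US_lt_of _ _ _ _ _ _ _ _ _ _ _ _ _ _ _ _ ε hε'
    apply xi_lt_of
    · have := z.2.1.2.2; omega
    · have := z.2.1.2.2; omega
    · exact Or.inr (Or.inr ⟨rfl, rfl, p.hl2 z.2.2⟩)
  · intro z z' hzz
    by_cases he : z.1 = z'.1
    · -- same event
      have key : (xiS S₁ S₂ Rz Nx (Rz * Nx + V₁) p z.2.1.1 (Rz * Nx + z.2.1.2) z.2.2 true <
          xiS S₁ S₂ Rz Nx (Rz * Nx + V₁) p z'.2.1.1 (Rz * Nx + z'.2.1.2) z'.2.2 false) ∨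
          (xiS S₁ S₂ Rz Nx (Rz * Nx + V₁) p z'.2.1.1 (Rz * Nx + z'.2.1.2) z'.2.2 true <
          xiS S₁ S₂ Rz Nx (Rz * Nx + V₁) p z.2.1.1 (Rz * Nx + z.2.1.2) z.2.2 false) := by
        have hb : (Rz * Nx + (z.2.1.2:ℕ)) < Rz * Nx + V₁ := by have := z.2.1.2.2; omega
        have hb' : (Rz * Nx + (z'.2.1.2:ℕ)) < Rz * Nx + V₁ := by have := z'.2.1.2.2; omega
        rcases lt_trichotomy (z.2.1.1:ℕ) (z'.2.1.1:ℕ) with h | h | h
        · exact Or.inl (xi_lt_of _ _ _ _ _ _ _ _ _ _ hb hb' _ _ _ _ (Or.inl h))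
        · rcases lt_trichotomy (z.2.1.2:ℕ) (z'.2.1.2:ℕ) with h2 | h2 | h2
          · exact Or.inl (xi_lt_of _ _ _ _ _ _ _ _ _ _ hb hb' _ _ _ _
              (Or.inr (Or.inl ⟨h, by omega⟩)))
          · have hr : z.2.2 ≠ z'.2.2 := by
              intro h3
              apply hzz
              exact Prod.ext he (Prod.ext (Prod.ext (Fin.ext h) (Fin.ext h2)) h3)
            rcases p.hl3 _ _ hr with h3 | h3
            · exact Or.inl (xi_lt_of _ _ _ _ _ _ _ _ _ _ hb hb' _ _ _ _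
                (Or.inr (Or.inr ⟨h, by omega, h3⟩)))
            · exact Or.inr (xi_lt_of _ _ _ _ _ _ _ _ _ _ hb' hb _ _ _ _
                (Or.inr (Or.inr ⟨h.symm, by omega, h3⟩)))
          · exact Or.inr (xi_lt_of _ _ _ _ _ _ _ _ _ _ hb' hb _ _ _ _
              (Or.inr (Or.inl ⟨h.symm, by omega⟩)))
        · exact Or.inr (xi_lt_of _ _ _ _ _ _ _ _ _ _ hb' hb _ _ _ _ (Or.inl h))
      rcases key with h | h
      · left
        rw [he]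
        exact US_lt_of _ _ _ _ _ _ _ _ _ _ _ _ _ _ _ h ε hε'
      · right
        rw [he]
        exact US_lt_of _ _ _ _ _ _ _ _ _ _ _ _ _ _ _ h ε hε'
    · have hX : S₁.X z.1 ≠ S₁.X z'.1 := fun h => he (S₁.hX h)
      rcases lt_or_gt_of_ne hX with h | h
      · exact Or.inl (hsep z z' h)
      · exact Or.inr (hsep z' z h)
  · intro z b q h
    exact (hs z b q).1 (sub_eq_zero.mpr h)
  · intro z b
    have hb : (Rz * Nx + (z.2.1.2:ℕ)) < Rz * Nx + V₁ := by have := z.2.1.2.2; omega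
    have hc := count_bel S₁ S₂ σ Rz Nx (Rz * Nx + V₁) K hK hR z.1 z.2.1.1 (Rz * Nx + z.2.1.2)
      z.2.1.1.2 (by omega) hb z.2.2 b
    rw [← hc]
    apply Finset.sum_congr rfl
    intro q _
    have h2 := (hs z b q).2
    rw [sub_neg] at h2
    by_cases h3 : bel S₁ S₂ σ Nx (Rz * Nx + V₁) K z.1 z.2.1.1 (Rz * Nx + z.2.1.2) z.2.2 b q
    · rw [if_pos h3, if_pos (h2.mpr h3)]
    · rw [if_neg h3, if_neg (fun h4 => h3 (h2.mp h4))]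
  · intro z
    have h2 := (hs z false (S₁.a z.1, Sum.inr (Sum.inr (S₁.slot z.1,
      (S₂.l z.2.2, beta0 σ Rz Nx V₁ hR (S₂.l z.2.2) z.2.1.1 z.2.1.2))))).2
    rw [sub_neg] at h2
    apply h2.mpr
    simp only [bel, S₁.evt_self]
    refine Or.inl ⟨trivial, Or.inr ⟨beta0_spec σ Rz Nx V₁ hR _ _ _, S₂.hl0 _⟩⟩
  · intro z
    have h1 := (hs z true (S₁.a z.1, Sum.inr (Sum.inr (S₁.slot z.1,
      (S₂.l z.2.2, beta0 σ Rz Nx V₁ hR (S₂.l z.2.2) z.2.1.1 z.2.1.2)))))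
    have h2 := h1.2
    rw [sub_neg] at h2
    by_contra h3
    push Not at h3
    have h4 := lt_of_le_of_ne h3 (fun h => h1.1 (sub_eq_zero.mpr h))
    have h5 := h2.mp h4
    simp only [bel, S₁.evt_self] at h5
    have h6 := beta0_spec σ Rz Nx V₁ hR (S₂.l z.2.2) z.2.1.1 z.2.1.2
    rcases h5 with ⟨-, h5 | ⟨-, h5⟩⟩ | ⟨h5, -⟩ | ⟨h5, -⟩
    · omega
    · exact absurd h5 (not_lt.mpr (S₂.hl1 _).le)
    · exact absurd rfl h5
    · exact absurd rfl h5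
  · intro z z' hl hsl
    simp only [Prod.mk.injEq, Sum.inr.injEq] at hl
    obtain ⟨h1, h2, h3, h4⟩ := hl
    have he := S₁.hslot _ _ h1 h2
    have h5 := finProdFinEquiv.injective hsl
    simp only [Prod.mk.injEq] at h5
    have hr := S₂.hslot _ _ h3 h5.2
    have hj : z.2.1.2 = z'.2.1.2 := by
      have e1 := beta0_spec σ Rz Nx V₁ hR (S₂.l z.2.2) z.2.1.1 z.2.1.2
      have e2 := beta0_spec σ Rz Nx V₁ hR (S₂.l z'.2.2) z'.2.1.1 z'.2.1.2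
      rw [h4, h3, h5.1] at e1
      apply Fin.ext
      omega
    exact Prod.ext he (Prod.ext (Prod.ext h5.1 hj) hr)
  · intro q; rfl

end

end KLev
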