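import Pool.Agent.KLev.Num

/-!
# Growth of the iterated compositions
-/

namespace KLev

open Finset Filter Topology

section

/-- `N` lines, at most `P` changes per line, at least `(5253/2500) β N` changes -/
def HasR (N P : ℕ) (β : ℝ) : Prop :=
  1 ≤ N ∧ 1 ≤ P ∧ ∃ E, 1 ≤ E ∧ Has N E P ∧ β * N * 5253 ≤ 2500 * E

/-- the fixed inner arrangement -/
def HasS (g P Rz : ℕ) (β : ℝ) : Prop :=
  1 ≤ g ∧ 1 ≤ P ∧ 1 ≤ Rz ∧ ∃ E, 1 ≤ E ∧ Has2 g E P Rz ∧ β * g * 5253 ≤ 2500 * E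

lemma HasR.two {N P : ℕ} {β : ℝ} (h : HasR N P β) : ∃ Rz, HasS N P Rz β := by
  obtain ⟨h1, h2, E, h3, h4, h5⟩ := h
  obtain ⟨Rz, h6, h7⟩ := h4.two
  exact ⟨Rz, h1, h2, h6, E, h3, h7, h5⟩

lemma HasR.step {N P g P₂ Rz : ℕ} {β b : ℝ} (h : HasR N P β) (h2 : HasS g P₂ Rz b)
    (hβ : 0 ≤ β) (hb : 0 ≤ b) : HasR (N * (g * Rz * 262650) * P ^ 2) (50 * P * P₂) (β * b) := by
  obtain ⟨hN, hP, E, hE, H, hr⟩ := h
  obtain ⟨hg, hP₂, hRz, E₂, hE₂, H₂, hr₂⟩ := h2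
  have hc := H.comp H₂ (50 * P) (2500 * Rz * P) (by omega)
    (Nat.mul_pos (Nat.mul_pos (by norm_num) hRz) hP) hE hE₂
  refine ⟨?_, ?_, E * (50 * P * (2500 * Rz * P) * E₂), ?_, ?_, ?_⟩
  · exact Nat.mul_pos (Nat.mul_pos hN (Nat.mul_pos (Nat.mul_pos hg hRz) (by norm_num)))
      (pow_pos hP 2)
  · exact Nat.mul_pos (Nat.mul_pos (by norm_num) hP) hP₂
  · exact Nat.mul_pos hE (Nat.mul_pos (Nat.mul_pos (Nat.mul_pos (by norm_num) hP)
      (Nat.mul_pos (Nat.mul_pos (by norm_num) hRz) hP)) hE₂)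
  · have e : N * (g * Rz * 262650) * P ^ 2 =
        N * (g * (Rz * (50 * P) + 2500 * Rz * P) * (2 * (50 * P) + 3 * P)) := by ring
    rw [e]; exact hc
  · have h1 : (β * N * 5253) * (b * g * 5253) ≤ (2500 * E) * (2500 * E₂) :=
      mul_le_mul hr hr₂ (by positivity) (by positivity)
    have h2 : (0:ℝ) ≤ Rz * P ^ 2 * 50 := by positivity
    have h3 := mul_le_mul_of_nonneg_right h1 h2
    push_cast
    nlinarith [h3]

lemma HasR.fill {N P g P₂ Rz : ℕ} {β b : ℝ} (h : HasR N P β) (h2 : HasS g P₂ Rz b)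
    (hβ : 0 ≤ β) (hb : 0 ≤ b) (m : ℕ) (hm : N * (g * Rz * 262650) * P ^ 2 ≤ m) :
    ∃ N' E' P', Has N' E' P' ∧ N' ≤ m ∧ β * b * m ≤ E' := by
  obtain ⟨hN, hP, E, hE, H, hr⟩ := h
  obtain ⟨hg, hP₂, hRz, E₂, hE₂, H₂, hr₂⟩ := h2
  set u : ℕ := N * (g * (103 * P)) with hu
  have hu0 : 0 < u := Nat.mul_pos hN (Nat.mul_pos hg (by omega))
  set V : ℕ := m / u with hV
  have hVle : 2550 * Rz * P ≤ V := by
    rw [hV, Nat.le_div_iff_mul_le hu0]
    refine le_trans (le_of_eq ?_) hm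
    rw [hu]; ring
  have huV : u * V ≤ m := Nat.mul_div_le m u
  have hVpos : 0 < V := lt_of_lt_of_le (Nat.mul_pos (Nat.mul_pos (by norm_num) hRz) hP) hVle
  have hm2 : m ≤ 2 * (u * V) := by
    have h1 := Nat.lt_mul_div_succ m hu0
    rw [← hV] at h1
    nlinarith
  obtain ⟨V₁, hV₁⟩ : ∃ V₁, V = Rz * (50 * P) + V₁ := by
    refine ⟨V - Rz * (50 * P), ?_⟩
    have : Rz * (50 * P) ≤ V := le_trans (by nlinarith) hVle
    omega
  have hV₁' : 50 * V ≤ 51 * V₁ := by nlinarith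
  have hV₁0 : 1 ≤ V₁ := by omega
  have hc := H.comp H₂ (50 * P) V₁ (by omega) hV₁0 hE hE₂
  refine ⟨_, _, _, hc, ?_, ?_⟩
  · refine le_trans (le_of_eq ?_) huV
    rw [← hV₁, hu]; ring
  push_cast
  have h1 : (β * N * 5253) * (b * g * 5253) ≤ (2500 * E) * (2500 * E₂) :=
    mul_le_mul hr hr₂ (by positivity) (by positivity)
  have h2 : (m : ℝ) ≤ 2 * (N * (g * (103 * P)) * V) := by
    have : ((m : ℕ) : ℝ) ≤ ((2 * (u * V) : ℕ) : ℝ) := by exact_mod_cast hm2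
    rw [hu] at this; push_cast at this; exact this
  have h3 : (50:ℝ) * V ≤ 51 * V₁ := by exact_mod_cast hV₁'
  have h4 : β * b * m ≤ β * b * (2 * (N * (g * (103 * P)) * V)) :=
    mul_le_mul_of_nonneg_left h2 (by positivity)
  have h5 : (0:ℝ) ≤ P * V := by positivity
  have h6 := mul_le_mul_of_nonneg_right h1 h5
  have h7 : (E * E₂ * P : ℝ) * (50 * V) ≤ (E * E₂ * P) * (51 * V₁) :=
    mul_le_mul_of_nonneg_left h3 (by positivity)
  have h8 : (0:ℝ) ≤ E * E₂ * P * V := by positivity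
  nlinarith [h4, h6, h7, h8]

/-- the initial ratio -/
noncomputable def β₀ : ℝ := 127500 / 126072

lemma one_lt_β₀ : 1 < β₀ := by unfold β₀; norm_num

lemma hasR_base : HasR 24 4 β₀ := by
  refine ⟨by norm_num, by norm_num, 51, by norm_num, has_base, ?_⟩
  unfold β₀; norm_num

lemma hasR_pow (j : ℕ) : ∃ N P, HasR N P (β₀ ^ (2 ^ j)) ∧ 50 * P = 200 ^ (2 ^ j) := by
  induction j with
  | zero => exact ⟨24, 4, by simpa using hasR_base, by norm_num⟩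
  | succ j ih =>
    obtain ⟨N, P, h, hP⟩ := ih
    obtain ⟨Rz, hS⟩ := h.two
    have hb : (0:ℝ) ≤ β₀ ^ (2 ^ j) := pow_nonneg (by linarith [one_lt_β₀]) _
    refine ⟨N * (N * Rz * 262650) * P ^ 2, 50 * P * P, ?_, ?_⟩
    · have h5 := h.step hS hb hb
      have e : β₀ ^ 2 ^ (j + 1) = β₀ ^ 2 ^ j * β₀ ^ 2 ^ j := by
        rw [pow_succ 2 j, pow_mul, sq]
      rw [e]
      exact h5
    · rw [pow_succ, pow_mul, sq, ← hP]
      ring

/-- nested compositions with a fixed inner arrangement -/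
lemma hasR_iter {g P₂ Rz : ℕ} {b : ℝ} (h : HasR g P₂ b) (h2 : HasS g P₂ Rz b)
    (hb : 0 ≤ b) (i : ℕ) :
    ∃ N P, HasR N P (b ^ (i + 1)) ∧ 50 * P = (50 * P₂) ^ (i + 1) ∧
      N ≤ (g * Rz * 262650) ^ (i + 1) * (50 * P₂) ^ (i * (i + 1)) := by
  induction i with
  | zero =>
    refine ⟨g, P₂, by simpa using h, by simp, ?_⟩
    obtain ⟨-, -, h3, -⟩ := h2
    simp only [zero_add, pow_one, Nat.zero_mul, pow_zero, mul_one]
    nlinarith [Nat.zero_le g]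
  | succ i ih =>
    obtain ⟨N, P, h3, hP, hN⟩ := ih
    refine ⟨N * (g * Rz * 262650) * P ^ 2, 50 * P * P₂, ?_, ?_, ?_⟩
    · have h5 := h3.step h2 (pow_nonneg hb _) hb
      have e : b ^ (i + 1 + 1) = b ^ (i + 1) * b := pow_succ _ _
      rw [e]
      exact h5
    · rw [pow_succ, ← hP]; ring
    · have h4 : P ^ 2 ≤ (50 * P₂) ^ (2 * (i + 1)) := by
        rw [mul_comm 2, pow_mul, ← hP]
        exact Nat.pow_le_pow_left (by omega) 2
      calc N * (g * Rz * 262650) * P ^ 2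
          ≤ ((g * Rz * 262650) ^ (i + 1) * (50 * P₂) ^ (i * (i + 1))) * (g * Rz * 262650) *
            (50 * P₂) ^ (2 * (i + 1)) :=
            Nat.mul_le_mul (Nat.mul_le_mul_right _ hN) h4
        _ = _ := by ring

/-- the core estimate -/
lemma core (j : ℕ) : ∃ M : ℕ, 1 ≤ M ∧ ∀ I m : ℕ, 2 ≤ I →
    M ^ I * (200 ^ (2 ^ j)) ^ (I ^ 2) ≤ m →
      ∃ N' E' P', Has N' E' P' ∧ N' ≤ m ∧ (β₀ ^ (2 ^ j)) ^ I * m ≤ E' := by
  obtain ⟨g, P₂, h, hP⟩ := hasR_pow j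
  obtain ⟨Rz, hS⟩ := h.two
  have hb : (0:ℝ) ≤ β₀ ^ (2 ^ j) := pow_nonneg (by linarith [one_lt_β₀]) _
  have hg : 1 ≤ g := hS.1
  have hRz : 1 ≤ Rz := hS.2.2.1
  refine ⟨g * Rz * 262650, Nat.mul_pos (Nat.mul_pos hg hRz) (by norm_num), ?_⟩
  intro I m hI hm
  obtain ⟨i, rfl⟩ : ∃ i, I = i + 2 := ⟨I - 2, by omega⟩
  obtain ⟨N, P, h3, hP3, hN⟩ := hasR_iter h hS hb i
  have := h3.fill hS (pow_nonneg hb _) hb m ?_
  · rw [← pow_succ] at this
    exact this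
  · refine le_trans ?_ hm
    have h4 : P ^ 2 ≤ (50 * P₂) ^ (2 * (i + 1)) := by
      rw [mul_comm 2, pow_mul, ← hP3]
      exact Nat.pow_le_pow_left (by omega) 2
    calc N * (g * Rz * 262650) * P ^ 2
        ≤ ((g * Rz * 262650) ^ (i + 1) * (50 * P₂) ^ (i * (i + 1))) * (g * Rz * 262650) *
          (50 * P₂) ^ (2 * (i + 1)) :=
          Nat.mul_le_mul (Nat.mul_le_mul_right _ hN) h4
      _ = (g * Rz * 262650) ^ (i + 2) * (50 * P₂) ^ ((i + 1) * (i + 2)) := by ring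
      _ ≤ (g * Rz * 262650) ^ (i + 2) * (50 * P₂) ^ ((i + 2) ^ 2) := by
          apply Nat.mul_le_mul_left
          apply Nat.pow_le_pow_right
          · have := hS.2.1; omega
          · nlinarith
      _ = _ := by rw [hP]

end

end KLev
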