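import Pool.Agent.KLev.Nice

/-!
# Bisectors of planar point sets
-/

namespace KLev.Halving

open Finset Filter Topology

/-- The set of points `(x, y)` of the plane with `a x + b y = c`. -/
def Line (a b c : ℝ) : Set (ℝ × ℝ) := {p | a * p.1 + b * p.2 = c}

/-- General position: no three distinct points of `P` lie on a common line. -/
def GeneralPosition (P : Finset (ℝ × ℝ)) : Prop :=
  ∀ a b c : ℝ, (a ≠ 0 ∨ b ≠ 0) → ∀ p ∈ P, ∀ q ∈ P, ∀ r ∈ P, p ≠ q → p ≠ r → q ≠ r →
    ¬ (p ∈ Line a b c ∧ q ∈ Line a b c ∧ r ∈ Line a b c)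

open scoped Classical in
/-- `L` is a bisector (halving line) of `P`: a line through two points of `P` such that each of
the two open half-planes bounded by it contains exactly `|P| / 2 - 1` points of `P`. -/
def IsBisector (P : Finset (ℝ × ℝ)) (L : Set (ℝ × ℝ)) : Prop :=
  ∃ a b c : ℝ, (a ≠ 0 ∨ b ≠ 0) ∧ L = Line a b c ∧
    (∃ p ∈ P, ∃ q ∈ P, p ≠ q ∧ p ∈ L ∧ q ∈ L) ∧
    (P.filter (fun p => a * p.1 + b * p.2 < c)).card = P.card / 2 - 1 ∧
    (P.filter (fun p => c < a * p.1 + b * p.2)).card = P.card / 2 - 1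

/-- The maximum number of bisectors of a set of `n` points in general position. -/
noncomputable def f (n : ℕ) : ℕ :=
  sSup {m : ℕ | ∃ P : Finset (ℝ × ℝ), P.card = n ∧ GeneralPosition P ∧
    {L | IsBisector P L}.ncard = m}

lemma line_eq {a b c : ℝ} (hab : a ≠ 0 ∨ b ≠ 0) {p q : ℝ × ℝ} (hpq : p ≠ q)
    (hp : p ∈ Line a b c) (hq : q ∈ Line a b c) :
    Line a b c = Line (q.2 - p.2) (p.1 - q.1) ((q.2 - p.2) * p.1 + (p.1 - q.1) * p.2) := by
  simp only [Line, Set.mem_setOf_eq] at hp hq
  have hdet : a * (p.1 - q.1) - b * (q.2 - p.2) = 0 := by linarith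
  have hv : q.2 - p.2 ≠ 0 ∨ p.1 - q.1 ≠ 0 := by
    by_contra h
    push Not at h
    apply hpq
    exact Prod.ext (by linarith [h.2]) (by linarith [h.1])
  ext r
  simp only [Line, Set.mem_setOf_eq]
  constructor
  · intro hr
    have hw : a * (r.1 - p.1) + b * (r.2 - p.2) = 0 := by linarith
    have e1 : a * ((q.2 - p.2) * (r.1 - p.1) + (p.1 - q.1) * (r.2 - p.2)) = 0 := by
      have : a * ((q.2 - p.2) * (r.1 - p.1) + (p.1 - q.1) * (r.2 - p.2)) =
        (q.2 - p.2) * (a * (r.1 - p.1) + b * (r.2 - p.2)) +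
          (r.2 - p.2) * (a * (p.1 - q.1) - b * (q.2 - p.2)) := by ring
      rw [this, hw, hdet]; ring
    have e2 : b * ((q.2 - p.2) * (r.1 - p.1) + (p.1 - q.1) * (r.2 - p.2)) = 0 := by
      have : b * ((q.2 - p.2) * (r.1 - p.1) + (p.1 - q.1) * (r.2 - p.2)) =
        (p.1 - q.1) * (a * (r.1 - p.1) + b * (r.2 - p.2)) -
          (r.1 - p.1) * (a * (p.1 - q.1) - b * (q.2 - p.2)) := by ring
      rw [this, hw, hdet]; ring
    have e3 : (q.2 - p.2) * (r.1 - p.1) + (p.1 - q.1) * (r.2 - p.2) = 0 := by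
      rcases hab with h | h
      · exact (mul_eq_zero.mp e1).resolve_left h
      · exact (mul_eq_zero.mp e2).resolve_left h
    linarith
  · intro hr
    have hw : (q.2 - p.2) * (r.1 - p.1) + (p.1 - q.1) * (r.2 - p.2) = 0 := by linarith
    have e1 : (q.2 - p.2) * (a * (r.1 - p.1) + b * (r.2 - p.2)) = 0 := by
      have : (q.2 - p.2) * (a * (r.1 - p.1) + b * (r.2 - p.2)) =
        a * ((q.2 - p.2) * (r.1 - p.1) + (p.1 - q.1) * (r.2 - p.2)) -
          (r.2 - p.2) * (a * (p.1 - q.1) - b * (q.2 - p.2)) := by ring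
      rw [this, hw, hdet]; ring
    have e2 : (p.1 - q.1) * (a * (r.1 - p.1) + b * (r.2 - p.2)) = 0 := by
      have : (p.1 - q.1) * (a * (r.1 - p.1) + b * (r.2 - p.2)) =
        b * ((q.2 - p.2) * (r.1 - p.1) + (p.1 - q.1) * (r.2 - p.2)) +
          (r.1 - p.1) * (a * (p.1 - q.1) - b * (q.2 - p.2)) := by ring
      rw [this, hw, hdet]; ring
    have e3 : a * (r.1 - p.1) + b * (r.2 - p.2) = 0 := by
      rcases hv with h | h
      · exact (mul_eq_zero.mp e1).resolve_left h
      · exact (mul_eq_zero.mp e2).resolve_left h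
    linarith

lemma bisectors_subset (P : Finset (ℝ × ℝ)) :
    {L | IsBisector P L} ⊆ (fun z : (ℝ × ℝ) × (ℝ × ℝ) => Line (z.2.2 - z.1.2) (z.1.1 - z.2.1)
      ((z.2.2 - z.1.2) * z.1.1 + (z.1.1 - z.2.1) * z.1.2)) '' (P ×ˢ P : Finset _) := by
  rintro L ⟨a, b, c, hab, rfl, ⟨p, hp, q, hq, hpq, hpL, hqL⟩, -, -⟩
  refine ⟨(p, q), ?_, ?_⟩
  · simp [hp, hq]
  · exact (line_eq hab hpq hpL hqL).symm

lemma bisectors_finite (P : Finset (ℝ × ℝ)) : {L | IsBisector P L}.Finite :=
  ((Finset.finite_toSet _).image _).subset (bisectors_subset P)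

lemma bisectors_ncard_le (P : Finset (ℝ × ℝ)) :
    {L | IsBisector P L}.ncard ≤ P.card * P.card := by
  refine (Set.ncard_le_ncard (bisectors_subset P) ((Finset.finite_toSet _).image _)).trans ?_
  refine (Set.ncard_image_le (Finset.finite_toSet (P ×ˢ P))).trans ?_
  rw [Set.ncard_coe_finset, Finset.card_product]

lemma le_f {n : ℕ} (P : Finset (ℝ × ℝ)) (h1 : P.card = n) (h2 : GeneralPosition P) :
    {L | IsBisector P L}.ncard ≤ f n := by
  apply le_csSup
  · refine ⟨n * n, ?_⟩
    rintro m ⟨Q, hQ, -, rfl⟩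
    rw [← hQ]; exact bisectors_ncard_le Q
  · exact ⟨P, h1, h2, rfl⟩

theorem f_ge_ev {ι R : Type} [Fintype ι] [Fintype R] {k P : ℕ} (S : Ev ι R k P)
    (hinj : Function.Injective S.s) (hsim : Simple S.s S.t) (hcard : Fintype.card ι = 2 * (k + 1)) :
    Fintype.card R ≤ f (2 * (k + 1)) := by
  classical
  set g : ι → ℝ × ℝ := fun i => (S.s i, S.t i) with hg
  have hginj : Function.Injective g := by
    intro i j h
    exact hinj (congrArg Prod.fst h)
  set Pt : Finset (ℝ × ℝ) := Finset.univ.image g with hPt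
  have hPc : Pt.card = 2 * (k + 1) := by
    rw [hPt, Finset.card_image_of_injective _ hginj, Finset.card_univ, hcard]
  have hGP : GeneralPosition Pt := by
    intro a b c hab p hp q hq r hr hpq hpr hqr h
    simp only [hPt, Finset.mem_image, Finset.mem_univ, true_and] at hp hq hr
    obtain ⟨i, rfl⟩ := hp
    obtain ⟨j, rfl⟩ := hq
    obtain ⟨l, rfl⟩ := hr
    have hij : i ≠ j := fun h => hpq (by rw [h])
    have hil : i ≠ l := fun h => hpr (by rw [h])
    have hjl : j ≠ l := fun h => hqr (by rw [h])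
    simp only [Line, Set.mem_setOf_eq, hg] at h
    obtain ⟨h1, h2, h3⟩ := h
    by_cases hb : b = 0
    · subst hb
      have ha : a ≠ 0 := by
        rcases hab with h | h
        · exact h
        · exact absurd rfl h
      apply hij; apply hinj
      have : a * S.s i = a * S.s j := by linarith
      exact mul_left_cancel₀ ha this
    · apply hsim.1 i j l hij hil hjl (a / b)
      · field_simp; linarith
      · field_simp; linarith
  have hcnt : ∀ r, ((Finset.univ : Finset ι).filter (fun i => S.s i * S.X r + S.t i <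
      S.s (S.a r) * S.X r + S.t (S.a r))).card = k := by
    intro r; rw [Finset.card_filter]; convert S.hcard r
  have hcnt2 : ∀ r, ((Finset.univ : Finset ι).filter (fun i => S.s (S.a r) * S.X r + S.t (S.a r) <
      S.s i * S.X r + S.t i)).card = k := by
    intro r
    have hne : S.a r ≠ S.b r := S.ab_ne r
    have h1 := Finset.card_filter_add_card_filter_not (s := (Finset.univ : Finset ι))
      (p := fun i => S.s i * S.X r + S.t i < S.s (S.a r) * S.X r + S.t (S.a r))
    have h2 : (Finset.univ : Finset ι).filter (fun i => ¬ (S.s i * S.X r + S.t i <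
      S.s (S.a r) * S.X r + S.t (S.a r))) = insert (S.a r) (insert (S.b r)
        ((Finset.univ : Finset ι).filter (fun i => S.s (S.a r) * S.X r + S.t (S.a r) <
      S.s i * S.X r + S.t i))) := by
      ext i
      simp only [Finset.mem_filter, Finset.mem_univ, true_and, Finset.mem_insert]
      constructor
      · intro h
        by_cases hia : i = S.a r
        · exact Or.inl hia
        · by_cases hib : i = S.b r
          · exact Or.inr (Or.inl hib)
          · right; right
            exact lt_of_le_of_ne (not_lt.mp h) (Ne.symm (S.hne r i hia hib))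
      · rintro (rfl | rfl | h)
        · exact lt_irrefl _
        · rw [S.tie r]; exact lt_irrefl _
        · exact not_lt.mpr h.le
    rw [h2, hcnt r, Finset.card_insert_of_notMem, Finset.card_insert_of_notMem, Finset.card_univ,
      hcard] at h1
    · omega
    · simp only [Finset.mem_filter, Finset.mem_univ, true_and]
      rw [S.tie r]; exact lt_irrefl _
    · simp only [Finset.mem_insert, Finset.mem_filter, Finset.mem_univ, true_and]
      rintro (h | h)
      · exact hne h
      · exact lt_irrefl _ h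
  have hbis : ∀ r, IsBisector Pt (Line (S.X r) 1 (S.s (S.a r) * S.X r + S.t (S.a r))) := by
    intro r
    refine ⟨S.X r, 1, _, Or.inr one_ne_zero, rfl, ⟨g (S.a r), ?_, g (S.b r), ?_, ?_, ?_, ?_⟩, ?_, ?_⟩
    · simp [hPt]
    · simp [hPt]
    · intro h; exact S.ab_ne r (hginj h)
    · simp only [Line, Set.mem_setOf_eq, hg]; ring
    · simp only [Line, Set.mem_setOf_eq, hg]; rw [S.tie r]; ring
    · rw [hPc, hPt, Finset.filter_image, Finset.card_image_of_injective _ hginj]
      have : (Finset.univ : Finset ι).filter (fun i => S.X r * (g i).1 + 1 * (g i).2 <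
          S.s (S.a r) * S.X r + S.t (S.a r)) = (Finset.univ : Finset ι).filter
          (fun i => S.s i * S.X r + S.t i < S.s (S.a r) * S.X r + S.t (S.a r)) := by
        ext i; simp only [hg, Finset.mem_filter, Finset.mem_univ, true_and, one_mul, mul_comm]
      rw [this, hcnt r]; omega
    · rw [hPc, hPt, Finset.filter_image, Finset.card_image_of_injective _ hginj]
      have : (Finset.univ : Finset ι).filter (fun i => S.s (S.a r) * S.X r + S.t (S.a r) <
          S.X r * (g i).1 + 1 * (g i).2) = (Finset.univ : Finset ι).filter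
          (fun i => S.s (S.a r) * S.X r + S.t (S.a r) < S.s i * S.X r + S.t i) := by
        ext i; simp only [hg, Finset.mem_filter, Finset.mem_univ, true_and, one_mul, mul_comm]
      rw [this, hcnt2 r]; omega
  set G : R → Set (ℝ × ℝ) := fun r => Line (S.X r) 1 (S.s (S.a r) * S.X r + S.t (S.a r)) with hG
  have hGinj : Function.Injective G := by
    intro r r' h
    apply S.hX
    have h1 : ((0:ℝ), S.s (S.a r) * S.X r + S.t (S.a r)) ∈ G r := by
      simp [hG, Line]
    have h2 : ((1:ℝ), S.s (S.a r) * S.X r + S.t (S.a r) - S.X r) ∈ G r := by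
      simp [hG, Line]
    rw [h] at h1 h2
    simp only [hG, Line, Set.mem_setOf_eq] at h1 h2
    linarith
  calc Fintype.card R = (Set.range G).ncard := by
        rw [← Set.image_univ, Set.ncard_image_of_injective _ hGinj, Set.ncard_univ,
          Nat.card_eq_fintype_card]
    _ ≤ {L | IsBisector Pt L}.ncard := by
        apply Set.ncard_le_ncard _ (bisectors_finite Pt)
        rintro _ ⟨r, rfl⟩
        exact hbis r
    _ ≤ f (2 * (k + 1)) := le_f Pt hPc hGP

/-- lower bound for `f` from a certificate -/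
theorem f_ge_cert {ι R : Type} [Fintype ι] [Fintype R] {κ P : ℕ} (C : Cert ι R κ P)
    (hκ : 1 ≤ κ) (hκ2 : κ ≤ Fintype.card ι) (m : ℕ) (hm : Fintype.card ι ≤ m) :
    Fintype.card R ≤ f (2 * m) := by
  obtain ⟨C'⟩ := pad C (m + κ - Fintype.card ι) (m - κ)
  have hm' : κ + (m - κ) = (m - 1) + 1 := by omega
  rw [hm'] at C'
  obtain ⟨S, h1, h2⟩ := nice C'
  have := f_ge_ev S h1 h2 (by
    simp only [Fintype.card_sum, Fintype.card_fin]; omega)
  have e : m - 1 + 1 = m := by omega
  rwa [e] at this

end KLev.Halving
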