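import Pool.Agent.KLev.Final
import Pool.Agent.KLev.GenPos

/-!
# Halving partitions in three dimensions
-/

namespace KLev

open Finset Filter Topology

/-- the set of lines below the left sample points are pairwise distinct -/
lemma cert_sets_ne {ι R : Type} [Fintype ι] {κ P : ℕ} (C : Cert ι R κ P) {r r' : R}
    (h : r ≠ r') : ∃ i, ¬ (C.s i * C.x r false + C.t i < C.y r false ↔
      C.s i * C.x r' false + C.t i < C.y r' false) := by
  classical
  by_contra hcon
  push Not at hcon
  -- the general claim for an ordered pair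
  have key : ∀ r r' : R, C.x r true < C.x r' false →
      (∀ i, (C.s i * C.x r false + C.t i < C.y r false ↔
        C.s i * C.x r' false + C.t i < C.y r' false)) → False := by
    intro r r' hlt hiff
    have h0 := C.hlt r
    set a := C.x r false with ha
    set b := C.x r true with hb
    set c := C.x r' false with hc
    set θ : ℝ := (b - a) / (c - a) with hθ
    have hca : 0 < c - a := by linarith
    have hθ0 : 0 < θ := div_pos (by linarith) hca
    have hθ1 : θ < 1 := by rw [hθ, div_lt_one hca]; linarith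
    have hbθ : b = (1 - θ) * a + θ * c := by
      rw [hθ]; field_simp; ring
    set Y : ℝ := (1 - θ) * C.y r false + θ * C.y r' false with hY
    have hval : ∀ i, C.s i * b + C.t i = (1 - θ) * (C.s i * a + C.t i) +
        θ * (C.s i * c + C.t i) := by
      intro i; rw [hbθ]; ring
    have hbelow : ∀ i, (C.s i * b + C.t i < Y ↔ C.s i * a + C.t i < C.y r false) := by
      intro i
      constructor
      · intro h1
        by_contra h2
        have h3 : ¬ C.s i * c + C.t i < C.y r' false := fun h => h2 ((hiff i).mpr h)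
        push Not at h2 h3
        have h4 := mul_le_mul_of_nonneg_left h2 (by linarith : (0:ℝ) ≤ 1 - θ)
        have h5 := mul_le_mul_of_nonneg_left h3 hθ0.le
        rw [hval] at h1
        linarith
      · intro h2
        have h3 := (hiff i).mp h2
        have h4 := mul_lt_mul_of_pos_left h2 (by linarith : (0:ℝ) < 1 - θ)
        have h5 := mul_lt_mul_of_pos_left h3 hθ0
        rw [hval]
        linarith
    -- same number below two thresholds on the same vertical line
    have hc0 : ((Finset.univ : Finset ι).filter (fun i => C.s i * b + C.t i < Y)).card = κ := by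
      have : (Finset.univ : Finset ι).filter (fun i => C.s i * b + C.t i < Y) =
          (Finset.univ : Finset ι).filter (fun i => C.s i * a + C.t i < C.y r false) := by
        ext i; simp only [Finset.mem_filter, Finset.mem_univ, true_and]; exact hbelow i
      rw [this, Finset.card_filter]
      exact C.hcard r false
    have hc1 : ((Finset.univ : Finset ι).filter
        (fun i => C.s i * b + C.t i < C.y r true)).card = κ := by
      rw [Finset.card_filter]
      exact C.hcard r true
    have heq : (Finset.univ : Finset ι).filter (fun i => C.s i * b + C.t i < Y) =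
        (Finset.univ : Finset ι).filter (fun i => C.s i * b + C.t i < C.y r true) := by
      rcases le_total Y (C.y r true) with h1 | h1
      · apply Finset.eq_of_subset_of_card_le
        · intro i
          simp only [Finset.mem_filter, Finset.mem_univ, true_and]
          intro h; linarith
        · rw [hc0, hc1]
      · symm
        apply Finset.eq_of_subset_of_card_le
        · intro i
          simp only [Finset.mem_filter, Finset.mem_univ, true_and]
          intro h; linarith
        · rw [hc0, hc1]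
    have h6 : C.l r ∈ (Finset.univ : Finset ι).filter (fun i => C.s i * b + C.t i < Y) := by
      simp only [Finset.mem_filter, Finset.mem_univ, true_and]
      exact (hbelow _).mpr (C.hl0 r)
    rw [heq] at h6
    simp only [Finset.mem_filter, Finset.mem_univ, true_and] at h6
    have := C.hl1 r
    linarith
  rcases C.hdisj r r' h with h1 | h1
  · exact key r r' h1 hcon
  · exact key r' r h1 (fun i => (hcon i).symm)

namespace Halving3

/-- General position: no four points of `X` lie on a common plane. -/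
def GeneralPosition (X : Finset (Fin 3 → ℝ)) : Prop :=
  ∀ (w : Fin 3 → ℝ) (c : ℝ), w ≠ 0 → ∀ T ⊆ X, (∀ p ∈ T, ∑ i, w i * p i = c) → T.card ≤ 3

/-- `π` is a halving partition of `X`: an unordered partition of `X` into two halves, strictly
separated by a plane. -/
def IsHalving (X : Finset (Fin 3 → ℝ)) (π : Sym2 (Finset (Fin 3 → ℝ))) : Prop :=
  ∃ A B : Finset (Fin 3 → ℝ), π = s(A, B) ∧ (∀ p, p ∈ X ↔ p ∈ A ∨ p ∈ B) ∧ Disjoint A B ∧
    2 * A.card = X.card ∧ 2 * B.card = X.card ∧
    ∃ (w : Fin 3 → ℝ) (c : ℝ), w ≠ 0 ∧ (∀ p ∈ A, ∑ i, w i * p i < c) ∧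
      (∀ p ∈ B, c < ∑ i, w i * p i)

/-- The number of halving partitions. -/
noncomputable def h (X : Finset (Fin 3 → ℝ)) : ℕ := {π | IsHalving X π}.ncard

/-- `h3 n`: the maximum number of halving partitions of an `n`-point set in general position. -/
noncomputable def h3 (n : ℕ) : ℕ :=
  sSup {m : ℕ | ∃ X : Finset (Fin 3 → ℝ), X.card = n ∧ GeneralPosition X ∧ h X = m}

lemma halving_subset (X : Finset (Fin 3 → ℝ)) : {π | IsHalving X π} ⊆
    (fun z : Finset (Fin 3 → ℝ) × Finset (Fin 3 → ℝ) => s(z.1, z.2)) ''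
      (X.powerset ×ˢ X.powerset : Finset _) := by
  rintro π ⟨A, B, rfl, h1, -⟩
  refine ⟨(A, B), ?_, rfl⟩
  rw [Finset.mem_coe, Finset.mem_product, Finset.mem_powerset, Finset.mem_powerset]
  exact ⟨fun p hp => (h1 p).mpr (Or.inl hp), fun p hp => (h1 p).mpr (Or.inr hp)⟩

lemma halving_finite (X : Finset (Fin 3 → ℝ)) : {π | IsHalving X π}.Finite :=
  ((Finset.finite_toSet _).image _).subset (halving_subset X)

lemma h_le (X : Finset (Fin 3 → ℝ)) : h X ≤ 2 ^ X.card * 2 ^ X.card := by
  unfold h
  refine (Set.ncard_le_ncard (halving_subset X) ((Finset.finite_toSet _).image _)).trans ?_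
  refine (Set.ncard_image_le (Finset.finite_toSet (X.powerset ×ˢ X.powerset))).trans ?_
  rw [Set.ncard_coe_finset, Finset.card_product, Finset.card_powerset]

lemma le_h3 {n : ℕ} (X : Finset (Fin 3 → ℝ)) (h1 : X.card = n) (h2 : GeneralPosition X) :
    h X ≤ h3 n := by
  apply le_csSup
  · refine ⟨2 ^ n * 2 ^ n, ?_⟩
    rintro m ⟨Q, hQ, -, rfl⟩
    rw [← hQ]; exact h_le Q
  · exact ⟨X, h1, h2, rfl⟩

section

variable {ι R : Type} [Fintype ι] [Fintype R] {κ P : ℕ} (C : Cert ι R κ P) (m : ℕ) (L : ℝ)

/-- the unperturbed points -/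
noncomputable def pt : ι ⊕ (Fin m × Bool) → Fin 3 → ℝ
  | Sum.inl i => ![C.s i, 0, C.t i]
  | Sum.inr (i, false) => ![0, L, -(L * ((i:ℕ) + 1/2))]
  | Sum.inr (i, true) => ![0, -L, L * ((i:ℕ) + 1/2)]

/-- value of the functional -/
noncomputable def val (x y : ℝ) (v : ι ⊕ (Fin m × Bool)) : ℝ :=
  ∑ i, ![x, y, 1] i * pt C m L v i

lemma val_inl (x y : ℝ) (i : ι) : val C m L x y (Sum.inl i) = C.s i * x + C.t i := by
  simp [val, pt, Fin.sum_univ_three]; ring

lemma val_false (x y : ℝ) (i : Fin m) : val C m L x y (Sum.inr (i, false)) =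
    L * (y - i - 1/2) := by
  simp [val, pt, Fin.sum_univ_three]; ring

lemma val_true (x y : ℝ) (i : Fin m) : val C m L x y (Sum.inr (i, true)) =
    -(L * (y - i - 1/2)) := by
  simp [val, pt, Fin.sum_univ_three]; ring

theorem h3_ge_cert (C : Cert ι R κ P) (m : ℕ) (hκ : Fintype.card ι = 2 * κ) :
    Fintype.card R * m ≤ h3 (2 * κ + 2 * m) := by
  classical
  obtain ⟨T, hT⟩ : ∃ T : ℝ, ∀ r, |C.y r false| < T := by
    refine ⟨∑ r, |C.y r false| + 1, ?_⟩
    intro r
    have h1 : |C.y r false| ≤ ∑ r, |C.y r false| :=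
      Finset.single_le_sum (f := fun r => |C.y r false|) (fun _ _ => abs_nonneg _)
        (Finset.mem_univ r)
    linarith
  set L : ℝ := 2 * max T 1 with hL
  have hL0 : 0 < L := by
    have : (1:ℝ) ≤ max T 1 := le_max_right _ _
    linarith
  have hLr : ∀ r, |C.y r false| < L / 2 := by
    intro r
    have : T ≤ max T 1 := le_max_left _ _
    have := hT r
    linarith
  set τ : ι ⊕ (Fin m × Bool) → ℝ := fun v => ((Fintype.equivFin _ v : ℕ) : ℝ) with hτ
  have hτinj : Function.Injective τ := by
    intro v v' h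
    exact (Fintype.equivFin _).injective (Fin.ext (Nat.cast_injective h))
  -- the predicate below
  set b : R × Fin m → (ι ⊕ (Fin m × Bool)) → Prop := fun z v =>
    val C m L (C.x z.1 false) ((z.2:ℕ) + 1) v < C.y z.1 false with hb
  have hne : ∀ z v, val C m L (C.x z.1 false) (((z : R × Fin m).2:ℕ) + 1) v - C.y z.1 false ≠ 0 := by
    rintro ⟨r, q⟩ v
    have h1 := abs_lt.mp (hLr r)
    rcases v with i | ⟨i, _ | _⟩
    · rw [val_inl]; exact sub_ne_zero.mpr (C.hne r false i)
    · rw [val_false]
      rcases le_or_gt (i:ℕ) q with h | h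
      · have h2 : ((i:ℕ):ℝ) ≤ (q:ℕ) := by exact_mod_cast h
        have h3 : L * (1/2) ≤ L * (((q:ℕ):ℝ) + 1 - (i:ℕ) - 1/2) :=
          mul_le_mul_of_nonneg_left (by linarith) hL0.le
        intro h4
        dsimp only at h4
        linarith
      · have h2 : ((q:ℕ):ℝ) + 1 ≤ (i:ℕ) := by exact_mod_cast h
        have h3 : L * (((q:ℕ):ℝ) + 1 - (i:ℕ) - 1/2) ≤ L * (-(1/2)) :=
          mul_le_mul_of_nonneg_left (by linarith) hL0.le
        intro h4
        dsimp only at h4
        linarith
    · rw [val_true]
      rcases le_or_gt (i:ℕ) q with h | h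
      · have h2 : ((i:ℕ):ℝ) ≤ (q:ℕ) := by exact_mod_cast h
        have h3 : L * (1/2) ≤ L * (((q:ℕ):ℝ) + 1 - (i:ℕ) - 1/2) :=
          mul_le_mul_of_nonneg_left (by linarith) hL0.le
        intro h4
        dsimp only at h4
        linarith
      · have h2 : ((q:ℕ):ℝ) + 1 ≤ (i:ℕ) := by exact_mod_cast h
        have h3 : L * (((q:ℕ):ℝ) + 1 - (i:ℕ) - 1/2) ≤ L * (-(1/2)) :=
          mul_le_mul_of_nonneg_left (by linarith) hL0.le
        intro h4
        dsimp only at h4
        linarith
  have hbl : ∀ z i, (b z (Sum.inl i) ↔ C.s i * C.x z.1 false + C.t i < C.y z.1 false) := by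
    intro z i; simp only [hb, val_inl]
  have hbf : ∀ (z : R × Fin m) (i : Fin m), (b z (Sum.inr (i, false)) ↔ (z.2:ℕ) < i) := by
    rintro ⟨r, q⟩ i
    have h1 := abs_lt.mp (hLr r)
    simp only [hb, val_false]
    rcases le_or_gt (i:ℕ) q with h | h
    · have h2 : ((i:ℕ):ℝ) ≤ (q:ℕ) := by exact_mod_cast h
      have h3 : L * (1/2) ≤ L * (((q:ℕ):ℝ) + 1 - (i:ℕ) - 1/2) :=
        mul_le_mul_of_nonneg_left (by linarith) hL0.le
      constructor
      · intro h4; linarith
      · intro h4; omega
    · have h2 : ((q:ℕ):ℝ) + 1 ≤ (i:ℕ) := by exact_mod_cast h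
      have h3 : L * (((q:ℕ):ℝ) + 1 - (i:ℕ) - 1/2) ≤ L * (-(1/2)) :=
        mul_le_mul_of_nonneg_left (by linarith) hL0.le
      constructor
      · intro _; exact h
      · intro _; linarith
  have hbt : ∀ (z : R × Fin m) (i : Fin m), (b z (Sum.inr (i, true)) ↔ (i:ℕ) ≤ z.2) := by
    rintro ⟨r, q⟩ i
    have h1 := abs_lt.mp (hLr r)
    simp only [hb, val_true]
    rcases le_or_gt (i:ℕ) q with h | h
    · have h2 : ((i:ℕ):ℝ) ≤ (q:ℕ) := by exact_mod_cast h
      have h3 : L * (1/2) ≤ L * (((q:ℕ):ℝ) + 1 - (i:ℕ) - 1/2) :=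
        mul_le_mul_of_nonneg_left (by linarith) hL0.le
      constructor
      · intro _; exact h
      · intro _; linarith
    · have h2 : ((q:ℕ):ℝ) + 1 ≤ (i:ℕ) := by exact_mod_cast h
      have h3 : L * (((q:ℕ):ℝ) + 1 - (i:ℕ) - 1/2) ≤ L * (-(1/2)) :=
        mul_le_mul_of_nonneg_left (by linarith) hL0.le
      constructor
      · intro h4; linarith
      · intro h4; omega
  -- number of points below
  have hcount : ∀ z, ((Finset.univ : Finset (ι ⊕ (Fin m × Bool))).filter (b z)).card =
      κ + m := by
    intro z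
    rw [Finset.card_filter, Fintype.sum_sum_type, Fintype.sum_prod_type]
    congr 1
    · refine Eq.trans (Finset.sum_congr rfl fun i _ => ?_) (C.hcard z.1 false)
      have h1 := hbl z i
      by_cases hh : b z (Sum.inl i)
      · rw [if_pos hh, if_pos (h1.mp hh)]
      · rw [if_neg hh, if_neg (fun h => hh (h1.mpr h))]
    · calc _ = ∑ i : Fin m, 1 := by
            apply Finset.sum_congr rfl
            intro i _
            rw [Fintype.sum_bool]
            have h1 := hbf z i
            have h2 := hbt z i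
            rcases le_or_gt (i:ℕ) z.2 with h | h
            · rw [if_pos (h2.mpr h), if_neg (fun h3 => not_lt.mpr h (h1.mp h3))]
            · rw [if_neg (fun h3 => not_le.mpr h (h2.mp h3)), if_pos (h1.mpr h)]
        _ = m := by simp
  -- choose the perturbation
  have hsgn : ∀ᶠ ε in 𝓝[>] (0:ℝ), ∀ (z : R × Fin m) v,
      ((val C m L (C.x z.1 false) ((z.2:ℕ) + 1) v - C.y z.1 false) +
        ε * (∑ i : Fin 3, ![C.x z.1 false, ((z.2:ℕ):ℝ) + 1, 1] i * τ v ^ ((i:ℕ) + 1)) ≠ 0 ∧
      ((val C m L (C.x z.1 false) ((z.2:ℕ) + 1) v - C.y z.1 false) +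
        ε * (∑ i : Fin 3, ![C.x z.1 false, ((z.2:ℕ):ℝ) + 1, 1] i * τ v ^ ((i:ℕ) + 1)) < 0 ↔
        val C m L (C.x z.1 false) ((z.2:ℕ) + 1) v - C.y z.1 false < 0)) := by
    rw [eventually_all]; intro z
    rw [eventually_all]; intro v
    exact ev_sign _ (hne z v)
  obtain ⟨ε, hε1, hε2, hε3⟩ := (hsgn.and ((ev_inj (d := 3) (by norm_num) (pt C m L) τ hτinj).and
    (ev_genpos (pt C m L) τ hτinj))).exists
  set p' : ι ⊕ (Fin m × Bool) → Fin 3 → ℝ :=
    fun v => fun i => pt C m L v i + ε * τ v ^ ((i:ℕ) + 1) with hp'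
  have hsum : ∀ (x y : ℝ) v, ∑ i, ![x, y, 1] i * p' v i =
      val C m L x y v + ε * (∑ i : Fin 3, ![x, y, 1] i * τ v ^ ((i:ℕ) + 1)) := by
    intro x y v
    unfold val
    rw [Finset.mul_sum, ← Finset.sum_add_distrib]
    apply Finset.sum_congr rfl
    intro i _
    simp only [hp']; ring
  set X : Finset (Fin 3 → ℝ) := Finset.univ.image p' with hX
  have hXc : X.card = 2 * κ + 2 * m := by
    rw [hX, Finset.card_image_of_injective _ hε2, Finset.card_univ]
    simp only [Fintype.card_sum, Fintype.card_prod, Fintype.card_fin, Fintype.card_bool, hκ]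
    ring
  have hGP : GeneralPosition X := by
    intro w c hw T hT hT2
    refine genpos_image p' hε3 X ?_ w c hw T hT hT2
    intro q hq
    simp only [hX, Finset.mem_image, Finset.mem_univ, true_and] at hq
    exact hq
  set A : R × Fin m → Finset (Fin 3 → ℝ) := fun z => (Finset.univ.filter (b z)).image p' with hA
  set B : R × Fin m → Finset (Fin 3 → ℝ) :=
    fun z => (Finset.univ.filter (fun v => ¬ b z v)).image p' with hB
  have hmemA : ∀ z v, (p' v ∈ A z ↔ b z v) := by
    intro z v
    simp only [hA, Finset.mem_image, Finset.mem_filter, Finset.mem_univ, true_and]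
    constructor
    · rintro ⟨v', h1, h2⟩; rw [← hε2 h2]; exact h1
    · intro h; exact ⟨v, h, rfl⟩
  have hmemB : ∀ z v, (p' v ∈ B z ↔ ¬ b z v) := by
    intro z v
    simp only [hB, Finset.mem_image, Finset.mem_filter, Finset.mem_univ, true_and]
    constructor
    · rintro ⟨v', h1, h2⟩; rw [← hε2 h2]; exact h1
    · intro h; exact ⟨v, h, rfl⟩
  have hcA : ∀ z, (A z).card = κ + m := by
    intro z
    rw [hA]; simp only
    rw [Finset.card_image_of_injective _ hε2, hcount z]
  have hcB : ∀ z, (B z).card = κ + m := by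
    intro z
    rw [hB]; simp only
    rw [Finset.card_image_of_injective _ hε2]
    have h1 := Finset.card_filter_add_card_filter_not
      (s := (Finset.univ : Finset (ι ⊕ (Fin m × Bool)))) (p := b z)
    rw [hcount z, Finset.card_univ] at h1
    simp only [Fintype.card_sum, Fintype.card_prod, Fintype.card_fin, Fintype.card_bool, hκ] at h1
    omega
  have hhalv : ∀ z, IsHalving X s(A z, B z) := by
    intro z
    refine ⟨A z, B z, rfl, ?_, ?_, ?_, ?_, ![C.x z.1 false, ((z.2:ℕ):ℝ) + 1, 1], C.y z.1 false,
      ?_, ?_, ?_⟩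
    · intro q
      constructor
      · intro hq
        simp only [hX, Finset.mem_image, Finset.mem_univ, true_and] at hq
        obtain ⟨v, rfl⟩ := hq
        rw [hmemA, hmemB]
        exact em _
      · rintro (hq | hq)
        · simp only [hA, Finset.mem_image] at hq
          obtain ⟨v, -, rfl⟩ := hq
          simp [hX]
        · simp only [hB, Finset.mem_image] at hq
          obtain ⟨v, -, rfl⟩ := hq
          simp [hX]
    · rw [Finset.disjoint_left]
      intro q hq hq'
      simp only [hA, Finset.mem_image] at hq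
      obtain ⟨v, -, rfl⟩ := id hq
      have h1 : p' v ∈ A z := by
        simp only [hA, Finset.mem_image]; exact hq
      rw [hmemB] at hq'
      rw [hmemA] at h1
      exact hq' h1
    · rw [hcA, hXc]; ring
    · rw [hcB, hXc]; ring
    · intro h0
      have := congrFun h0 2
      simp at this
    · intro q hq
      have hq2 := hq
      simp only [hA, Finset.mem_image] at hq
      obtain ⟨v, -, rfl⟩ := hq
      rw [hmemA] at hq2
      rw [hsum]
      have h1 := (hε1 z v).2.mpr (by simp only [hb] at hq2; linarith)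
      linarith
    · intro q hq
      have hq2 := hq
      simp only [hB, Finset.mem_image] at hq
      obtain ⟨v, -, rfl⟩ := hq
      rw [hmemB] at hq2
      rw [hsum]
      have h1 := (hε1 z v).1
      have h2 : ¬ ((val C m L (C.x z.1 false) ((z.2:ℕ) + 1) v - C.y z.1 false) +
        ε * (∑ i : Fin 3, ![C.x z.1 false, ((z.2:ℕ):ℝ) + 1, 1] i * τ v ^ ((i:ℕ) + 1)) < 0) := by
        intro h3
        apply hq2
        have h4 := (hε1 z v).2.mp h3
        simp only [hb]
        linarith
      have h3 := lt_of_le_of_ne (not_lt.mp h2) (Ne.symm h1)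
      linarith
  have hinj : Function.Injective (fun z => s(A z, B z)) := by
    intro z z' hzz
    simp only [Sym2.eq_iff] at hzz
    rcases hzz with ⟨h1, -⟩ | ⟨h1, -⟩
    · have hbb : ∀ v, (b z v ↔ b z' v) := by
        intro v; rw [← hmemA, ← hmemA, h1]
      have hr : z.1 = z'.1 := by
        by_contra hr
        obtain ⟨i, hi⟩ := cert_sets_ne C hr
        apply hi
        rw [← hbl, ← hbl]
        exact hbb _
      have hq : z.2 = z'.2 := by
        rcases lt_trichotomy (z.2:ℕ) z'.2 with h | h | h
        · have := hbb (Sum.inr (z'.2, false))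
          rw [hbf, hbf] at this
          omega
        · exact Fin.ext h
        · have := hbb (Sum.inr (z.2, false))
          rw [hbf, hbf] at this
          omega
      exact Prod.ext hr hq
    · exfalso
      have hm0 : 0 < m := lt_of_le_of_lt (Nat.zero_le _) z.2.2
      have h2 : p' (Sum.inr (⟨0, hm0⟩, true)) ∈ A z := by
        rw [hmemA, hbt]; exact Nat.zero_le _
      rw [h1, hmemB, hbt] at h2
      exact h2 (Nat.zero_le _)
  calc Fintype.card R * m = (Set.range (fun z => s(A z, B z))).ncard := by
        rw [← Set.image_univ, Set.ncard_image_of_injective _ hinj, Set.ncard_univ,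
          Nat.card_eq_fintype_card, Fintype.card_prod, Fintype.card_fin]
    _ ≤ h X := by
        unfold h
        apply Set.ncard_le_ncard _ (halving_finite X)
        rintro _ ⟨z, rfl⟩
        exact hhalv z
    _ ≤ h3 (2 * κ + 2 * m) := le_h3 X hXc hGP

end

/-- lower bound for `h3` from a certificate -/
theorem h3_ge {N E P : ℕ} (hH : Has N E P) (m' m : ℕ) (h1 : N ≤ m') :
    E * m ≤ h3 (2 * m' + 2 * m) := by
  obtain ⟨ι, R, _, _, κ, C, -, h3, h4, h5, h6⟩ := hH
  obtain ⟨C'⟩ := pad C (m' + κ - N) (m' - κ)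
  have e1 : κ + (m' - κ) = m' := by omega
  rw [e1] at C'
  have := h3_ge_cert C' m (by
    simp only [Fintype.card_sum, Fintype.card_fin, h3]; omega)
  rwa [h4] at this

end Halving3

end KLev
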