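import Mathlib

/-!
# Rational numbers of bounded height
-/

namespace KLev

/-- `x` is a fraction with denominator and numerator at most `H ^ k` -/
def B (H k : ℕ) (x : ℝ) : Prop :=
  ∃ (a : ℤ) (b : ℕ), 0 < b ∧ b ≤ H ^ k ∧ |a| ≤ (H : ℤ) ^ k ∧ x = (a : ℝ) / (b : ℝ)

section

variable {H : ℕ} {k l m : ℕ} {x y : ℝ}

lemma B.mono (h : B H k x) (hH : 1 ≤ H) (hkl : k ≤ l) : B H l x := by
  obtain ⟨a, b, h1, h2, h3, h4⟩ := h
  refine ⟨a, b, h1, h2.trans (Nat.pow_le_pow_right hH hkl), h3.trans ?_, h4⟩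
  have : H ^ k ≤ H ^ l := Nat.pow_le_pow_right hH hkl
  exact_mod_cast this

lemma B.add (hx : B H k x) (hy : B H l y) (hH : 2 ≤ H) (hm : k + l + 1 ≤ m) :
    B H m (x + y) := by
  obtain ⟨a, b, h1, h2, h3, h4⟩ := hx
  obtain ⟨c, d, h5, h6, h7, h8⟩ := hy
  have hpow : 2 * (H ^ k * H ^ l) ≤ H ^ m := by
    calc 2 * (H ^ k * H ^ l) ≤ H * (H ^ k * H ^ l) := Nat.mul_le_mul_right _ hH
      _ = H ^ (k + l + 1) := by ring
      _ ≤ H ^ m := Nat.pow_le_pow_right (by omega) hm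
  refine ⟨a * d + c * b, b * d, Nat.mul_pos h1 h5, ?_, ?_, ?_⟩
  · calc b * d ≤ H ^ k * H ^ l := Nat.mul_le_mul h2 h6
      _ ≤ 2 * (H ^ k * H ^ l) := Nat.le_mul_of_pos_left _ (by norm_num)
      _ ≤ H ^ m := hpow
  · have hd : ((d : ℤ)) ≤ (H : ℤ) ^ l := by exact_mod_cast h6
    have hb : ((b : ℤ)) ≤ (H : ℤ) ^ k := by exact_mod_cast h2
    have hd0 : (0:ℤ) ≤ d := Int.natCast_nonneg _
    have hb0 : (0:ℤ) ≤ b := Int.natCast_nonneg _
    have hpow' : 2 * ((H:ℤ) ^ k * (H:ℤ) ^ l) ≤ (H:ℤ) ^ m := by exact_mod_cast hpow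
    calc |a * d + c * b| ≤ |a * d| + |c * b| := abs_add_le _ _
      _ = |a| * d + |c| * b := by rw [abs_mul, abs_mul, abs_of_nonneg hd0, abs_of_nonneg hb0]
      _ ≤ (H:ℤ) ^ k * (H:ℤ) ^ l + (H:ℤ) ^ l * (H:ℤ) ^ k := by
          apply add_le_add
          · exact mul_le_mul h3 hd hd0 (by positivity)
          · exact mul_le_mul h7 hb hb0 (by positivity)
      _ = 2 * ((H:ℤ) ^ k * (H:ℤ) ^ l) := by ring
      _ ≤ _ := hpow'
  · have hb' : (b:ℝ) ≠ 0 := by positivity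
    have hd' : (d:ℝ) ≠ 0 := by positivity
    rw [h4, h8]; push_cast
    field_simp
    try ring

lemma B.mul (hx : B H k x) (hy : B H l y) (hH : 2 ≤ H) (hm : k + l ≤ m) :
    B H m (x * y) := by
  obtain ⟨a, b, h1, h2, h3, h4⟩ := hx
  obtain ⟨c, d, h5, h6, h7, h8⟩ := hy
  have hpow : H ^ k * H ^ l ≤ H ^ m := by
    calc H ^ k * H ^ l = H ^ (k + l) := by ring
      _ ≤ H ^ m := Nat.pow_le_pow_right (by omega) hm
  refine ⟨a * c, b * d, Nat.mul_pos h1 h5, (Nat.mul_le_mul h2 h6).trans hpow, ?_, ?_⟩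
  · have hpow' : ((H:ℤ) ^ k * (H:ℤ) ^ l) ≤ (H:ℤ) ^ m := by exact_mod_cast hpow
    rw [abs_mul]
    exact (mul_le_mul h3 h7 (abs_nonneg _) (by positivity)).trans hpow'
  · rw [h4, h8]; push_cast
    rw [div_mul_div_comm]

lemma B.neg (hx : B H k x) : B H k (-x) := by
  obtain ⟨a, b, h1, h2, h3, h4⟩ := hx
  refine ⟨-a, b, h1, h2, by rwa [abs_neg], ?_⟩
  rw [h4]; push_cast; ring

lemma B.sub (hx : B H k x) (hy : B H l y) (hH : 2 ≤ H) (hm : k + l + 1 ≤ m) :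
    B H m (x - y) := by
  rw [sub_eq_add_neg]; exact hx.add hy.neg hH hm

lemma B.inv (hx : B H k x) (hH : 2 ≤ H) : B H k x⁻¹ := by
  by_cases h0 : x = 0
  · rw [h0, inv_zero, ← h0]; exact hx
  obtain ⟨a, b, h1, h2, h3, h4⟩ := hx
  have ha : a ≠ 0 := by
    rintro rfl; apply h0; rw [h4]; simp
  refine ⟨Int.sign a * b, a.natAbs, Int.natAbs_pos.mpr ha, ?_, ?_, ?_⟩
  · have : ((a.natAbs : ℕ) : ℤ) ≤ ((H ^ k : ℕ) : ℤ) := by
      rw [Int.natCast_natAbs]; push_cast; exact h3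
    exact_mod_cast this
  · rw [abs_mul, Int.abs_sign_of_ne_zero ha, one_mul, abs_of_nonneg (Int.natCast_nonneg _)]
    exact_mod_cast h2
  · rw [h4, inv_div]
    have h5 : ((a.natAbs : ℕ) : ℝ) = (Int.sign a : ℝ) * a := by
      have h6 : (a.natAbs : ℤ) = Int.sign a * a := by
        rw [Int.natCast_natAbs]; exact (Int.sign_mul_self_eq_abs a).symm
      have h7 : (((a.natAbs : ℕ) : ℤ) : ℝ) = ((Int.sign a * a : ℤ) : ℝ) := by rw [h6]
      push_cast at h7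
      simpa using h7
    have h8 : (Int.sign a : ℝ) ≠ 0 := by
      have : Int.sign a ≠ 0 := fun h => ha (Int.sign_eq_zero_iff_zero.mp h)
      exact_mod_cast this
    have h9 : (a : ℝ) ≠ 0 := by exact_mod_cast ha
    rw [h5]; push_cast
    field_simp

lemma B.div (hx : B H k x) (hy : B H l y) (hH : 2 ≤ H) (hm : k + l ≤ m) :
    B H m (x / y) := by
  rw [div_eq_mul_inv]; exact hx.mul (hy.inv hH) hH hm

lemma B.nat (n : ℕ) (hn : n ≤ H ^ k) (hH : 1 ≤ H) : B H k (n : ℝ) :=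
  ⟨n, 1, one_pos, Nat.one_le_pow _ _ hH, by
    rw [abs_of_nonneg (Int.natCast_nonneg _)]; exact_mod_cast hn, by simp⟩

lemma B.zero (hH : 1 ≤ H) : B H k (0 : ℝ) := by
  have := B.nat (H := H) (k := k) 0 (Nat.zero_le _) hH
  simpa using this

lemma B.one (hH : 1 ≤ H) : B H k (1 : ℝ) := by
  have := B.nat (H := H) (k := k) 1 (Nat.one_le_pow _ _ hH) hH
  simpa using this

lemma B.inv_pow (hH : 2 ≤ H) (k : ℕ) : B H k (((H : ℝ) ^ k)⁻¹) := by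
  apply B.inv _ hH
  have := B.nat (H := H) (k := k) (H ^ k) le_rfl (by omega)
  push_cast at this
  exact this

lemma B.half (hH : 2 ≤ H) : B H 1 (1 / 2 : ℝ) :=
  ⟨1, 2, by norm_num, by simpa using hH, by
    rw [abs_one, pow_one]; exact_mod_cast (by omega : 1 ≤ H), by norm_num⟩

lemma B.abs_le (hx : B H k x) : |x| ≤ (H : ℝ) ^ k := by
  obtain ⟨a, b, h1, h2, h3, h4⟩ := hx
  have hb : (1:ℝ) ≤ b := by exact_mod_cast h1
  have ha : |(a:ℝ)| ≤ (H:ℝ) ^ k := by exact_mod_cast h3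
  rw [h4, abs_div, abs_of_nonneg (by linarith : (0:ℝ) ≤ b)]
  exact (div_le_self (abs_nonneg _) hb).trans ha

lemma B.gap (hx : B H k x) (hH : 1 ≤ H) (h0 : x ≠ 0) : ((H : ℝ) ^ k)⁻¹ ≤ |x| := by
  obtain ⟨a, b, h1, h2, h3, h4⟩ := hx
  have ha : a ≠ 0 := by
    rintro rfl; apply h0; rw [h4]; simp
  have ha1 : (1:ℝ) ≤ |(a:ℝ)| := by
    have : (1:ℤ) ≤ |a| := Int.one_le_abs ha
    exact_mod_cast this
  have hb : (0:ℝ) < b := by exact_mod_cast h1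
  have hb2 : (b:ℝ) ≤ (H:ℝ) ^ k := by exact_mod_cast h2
  rw [h4, abs_div, abs_of_pos hb]
  calc ((H:ℝ) ^ k)⁻¹ ≤ (b:ℝ)⁻¹ := inv_anti₀ hb hb2
    _ = 1 / b := (one_div _).symm
    _ ≤ |(a:ℝ)| / b := div_le_div_of_nonneg_right ha1 hb.le

end

end KLev
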