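import Pool.Agent.KLev.Final2
import Pool.Agent.KLev.GenPos

/-!
# Hyperplanes in higher dimensions
-/

namespace KLev.HighDim

open Finset Filter Topology

/-- General position: no `d + 1` points of `S` lie on a common affine hyperplane. -/
def GeneralPosition {d : ℕ} (S : Finset (Fin d → ℝ)) : Prop :=
  ∀ (w : Fin d → ℝ) (c : ℝ), w ≠ 0 → ∀ T ⊆ S, (∀ p ∈ T, ∑ i, w i * p i = c) → T.card ≤ d

open scoped Classical in
/-- `T` is a `k`-hyperplane of `S`: a `d`-element subset contained in an affine hyperplane one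
of whose two open half-spaces contains exactly `k` points of `S`. -/
def IsKHyperplane {d : ℕ} (S : Finset (Fin d → ℝ)) (k : ℕ) (T : Finset (Fin d → ℝ)) : Prop :=
  T ⊆ S ∧ T.card = d ∧ ∃ (w : Fin d → ℝ) (c : ℝ), w ≠ 0 ∧ (∀ p ∈ T, ∑ i, w i * p i = c) ∧
    ((S.filter (fun p => ∑ i, w i * p i < c)).card = k ∨
      (S.filter (fun p => c < ∑ i, w i * p i)).card = k)

/-- `eMax d k n`: the maximum number of `k`-hyperplanes of an `n`-point set in general position
in `ℝ ^ d`. -/
noncomputable def eMax (d k n : ℕ) : ℕ :=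
  sSup {m : ℕ | ∃ S : Finset (Fin d → ℝ), S.card = n ∧ GeneralPosition S ∧
    {T | IsKHyperplane S k T}.ncard = m}

lemma khyp_subset {d : ℕ} (S : Finset (Fin d → ℝ)) (k : ℕ) :
    {T | IsKHyperplane S k T} ⊆ (S.powerset : Set (Finset (Fin d → ℝ))) := by
  rintro T ⟨h1, -⟩
  exact Finset.mem_coe.mpr (Finset.mem_powerset.mpr h1)

lemma khyp_finite {d : ℕ} (S : Finset (Fin d → ℝ)) (k : ℕ) :
    {T | IsKHyperplane S k T}.Finite :=
  (Finset.finite_toSet _).subset (khyp_subset S k)

lemma khyp_le {d : ℕ} (S : Finset (Fin d → ℝ)) (k : ℕ) :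
    {T | IsKHyperplane S k T}.ncard ≤ 2 ^ S.card := by
  refine (Set.ncard_le_ncard (khyp_subset S k) (Finset.finite_toSet _)).trans ?_
  rw [Set.ncard_coe_finset, Finset.card_powerset]

lemma le_eMax {d n : ℕ} (S : Finset (Fin d → ℝ)) (k : ℕ) (h1 : S.card = n)
    (h2 : GeneralPosition S) : {T | IsKHyperplane S k T}.ncard ≤ eMax d k n := by
  apply le_csSup
  · refine ⟨2 ^ n, ?_⟩
    rintro m ⟨Q, hQ, -, rfl⟩
    rw [← hQ]; exact khyp_le Q k
  · exact ⟨S, h1, h2, rfl⟩

section

/-- normal vector with first coordinate one -/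
noncomputable def nv {d : ℕ} (u : Fin (d + 1) → ℝ) : Fin (d + 1) → ℝ :=
  Fin.cons 1 (fun j => u j.succ)

/-- signed height of a point over the hyperplane -/
noncomputable def ht {d : ℕ} (u p : Fin (d + 1) → ℝ) : ℝ := ∑ i, nv u i * p i - u 0

lemma ht_eq {d : ℕ} (u p : Fin (d + 1) → ℝ) :
    ht u p = ∑ j, (Fin.cons (-1) (fun j => p j.succ) : Fin (d + 1) → ℝ) j * u j + p 0 := by
  unfold ht nv
  rw [Fin.sum_univ_succ, Fin.sum_univ_succ]
  simp only [Fin.cons_zero, Fin.cons_succ]
  have : ∑ i : Fin d, u i.succ * p i.succ = ∑ i : Fin d, p i.succ * u i.succ :=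
    Finset.sum_congr rfl (fun i _ => mul_comm _ _)
  rw [this]; ring

/-- hyperplanes through moving points move continuously -/
lemma move {d : ℕ} {ι : Type} (p q : ι → Fin (d + 1) → ℝ) (f : Fin (d + 1) → ι)
    (u₀ : Fin (d + 1) → ℝ) (h0 : ∀ t, ht u₀ (p (f t)) = 0)
    (hinj : ∀ v : Fin (d + 1) → ℝ, (∀ t, ∑ j, (Fin.cons (-1) (fun j => p (f t) j.succ) :
      Fin (d + 1) → ℝ) j * v j = 0) → v = 0) :
    ∃ u : ℝ → Fin (d + 1) → ℝ, ContinuousAt u 0 ∧ u 0 = u₀ ∧
      ∀ᶠ ε in 𝓝 (0:ℝ), ∀ t, ht (u ε) (fun i => p (f t) i + ε * q (f t) i) = 0 := by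
  set M : ℝ → Matrix (Fin (d + 1)) (Fin (d + 1)) ℝ := fun ε => Matrix.of fun t =>
    Fin.cons (-1) (fun j => p (f t) j.succ + ε * q (f t) j.succ) with hM
  set b : ℝ → Fin (d + 1) → ℝ := fun ε t => -(p (f t) 0 + ε * q (f t) 0) with hb
  have hMc : Continuous M := by
    apply continuous_matrix
    intro t j
    refine Fin.cases ?_ (fun i => ?_) j
    · simp only [hM, Matrix.of_apply, Fin.cons_zero]; exact continuous_const
    · simp only [hM, Matrix.of_apply, Fin.cons_succ]; fun_prop
  have hbc : Continuous b := by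
    apply continuous_pi; intro t; simp only [hb]; fun_prop
  have hdet0 : (M 0).det ≠ 0 := by
    intro h
    obtain ⟨v, hv, hv0⟩ := Matrix.exists_mulVec_eq_zero_iff.mpr h
    apply hv
    apply hinj
    intro t
    have := congrFun hv0 t
    simp only [Matrix.mulVec, dotProduct, hM, Matrix.of_apply, Pi.zero_apply] at this
    rw [← this]
    apply Finset.sum_congr rfl
    intro j _
    refine Fin.cases ?_ (fun i => ?_) j
    · simp
    · simp
  have hdetc : Continuous fun ε => (M ε).det := hMc.matrix_det
  have hcr : Continuous fun ε => Matrix.cramer (M ε) (b ε) := hMc.matrix_cramer hbc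
  refine ⟨fun ε => ((M ε).det)⁻¹ • Matrix.cramer (M ε) (b ε), ?_, ?_, ?_⟩
  · exact (hdetc.continuousAt.inv₀ hdet0).smul hcr.continuousAt
  · have h1 : (M 0).mulVec u₀ = b 0 := by
      ext t
      have h2 := h0 t
      rw [ht_eq] at h2
      simp only [Matrix.mulVec, dotProduct, hM, hb, Matrix.of_apply, zero_mul, add_zero]
      linarith
    have h2 : (M 0).mulVec (((M 0).det)⁻¹ • Matrix.cramer (M 0) (b 0)) = b 0 := by
      rw [Matrix.mulVec_smul, Matrix.mulVec_cramer, smul_smul, inv_mul_cancel₀ hdet0, one_smul]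
    have h3 : (M 0).mulVec (((M 0).det)⁻¹ • Matrix.cramer (M 0) (b 0) - u₀) = 0 := by
      rw [Matrix.mulVec_sub, h1, h2, sub_self]
    exact sub_eq_zero.mp (Matrix.eq_zero_of_mulVec_eq_zero hdet0 h3)
  · filter_upwards [hdetc.continuousAt.eventually_ne hdet0] with ε hε t
    have h2 : (M ε).mulVec (((M ε).det)⁻¹ • Matrix.cramer (M ε) (b ε)) = b ε := by
      rw [Matrix.mulVec_smul, Matrix.mulVec_cramer, smul_smul, inv_mul_cancel₀ hε, one_smul]
    have h3 := congrFun h2 t
    rw [ht_eq]
    simp only [Matrix.mulVec, dotProduct, hM, Matrix.of_apply] at h3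
    simp only [hM, Matrix.of_apply]
    rw [h3]
    simp only [hb]
    ring

/-- sign attached to a member of a pencil -/
def sg : Bool → ℝ
  | false => 1
  | true => -1

lemma sg_sq (b : Bool) : sg b * sg b = 1 := by cases b <;> simp [sg]

/-- position of a member of a pencil -/
def pos {m : ℕ} (z : Fin m × Bool) : ℕ := 2 * (z.1 : ℕ) + z.2.toNat

lemma pos_inj {m : ℕ} {z z' : Fin m × Bool} (h : pos z = pos z') : z = z' := by
  obtain ⟨i, b⟩ := z
  obtain ⟨i', b'⟩ := z'
  simp only [pos] at h
  cases b <;> cases b' <;> simp only [Bool.toNat_false, Bool.toNat_true] at h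
  · have : i = i' := Fin.ext (by omega)
    rw [this]
  · omega
  · omega
  · have : i = i' := Fin.ext (by omega)
    rw [this]

/-- the members of a pencil below a point of the member `j` -/
def low {m : ℕ} (j z : Fin m × Bool) : Prop :=
  (z.2 = true ∧ pos z < pos j) ∨ (z.2 = false ∧ pos j < pos z)

open scoped Classical in
lemma low_count {m : ℕ} (j : Fin m × Bool) : ∑ z, (if low j z then 1 else 0) = m - 1 := by
  rw [Fintype.sum_prod_type]
  have h1 : ∀ i : Fin m, ∑ b : Bool, (if low j (i, b) then 1 else 0) = if i = j.1 then 0 else 1 := by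
    intro i
    rw [Fintype.sum_bool]
    have hc : j.2.toNat ≤ 1 := Bool.toNat_le j.2
    have ht : low j (i, true) ↔ (i:ℕ) < j.1 := by
      simp only [low, pos, Bool.toNat_true, true_and, reduceCtorEq, false_and, or_false]
      omega
    have hf : low j (i, false) ↔ (j.1:ℕ) < i := by
      simp only [low, pos, Bool.toNat_false, true_and, Bool.false_eq_true, false_and, false_or]
      omega
    rcases lt_trichotomy (i:ℕ) j.1 with h | h | h
    · have hne : i ≠ j.1 := fun h' => by rw [h'] at h; exact lt_irrefl _ h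
      rw [if_pos (ht.mpr h), if_neg (fun h' => absurd (hf.mp h') (by omega)), if_neg hne]
    · have he : i = j.1 := Fin.ext h
      rw [if_neg (fun h' => absurd (ht.mp h') (by omega)),
        if_neg (fun h' => absurd (hf.mp h') (by omega)), if_pos he]
    · have hne : i ≠ j.1 := fun h' => by rw [h'] at h; exact lt_irrefl _ h
      rw [if_neg (fun h' => absurd (ht.mp h') (by omega)), if_pos (hf.mpr h), if_neg hne]
  simp only [h1]
  have h2 : ∑ i : Fin m, (if i = j.1 then 0 else 1) = (Finset.univ.erase j.1).card := by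
    rw [Finset.card_eq_sum_ones, ← Finset.sum_erase_add _ _ (Finset.mem_univ j.1), if_pos rfl,
      add_zero]
    apply Finset.sum_congr rfl
    intro i hi
    rw [if_neg (Finset.ne_of_mem_erase hi)]
  rw [h2, Finset.card_erase_of_mem (Finset.mem_univ _), Finset.card_univ, Fintype.card_fin]

variable {ι R : Type} [Fintype ι] [Fintype R] {k P : ℕ}

/-- the unperturbed points -/
noncomputable def pt (S : Ev ι R k P) (e m : ℕ) (L : ℝ) :
    ι ⊕ (Fin e × (Fin m × Bool)) → Fin (e + 2) → ℝ
  | Sum.inl i => Fin.cons (S.t i) (Fin.cons (S.s i) (fun _ => 0))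
  | Sum.inr (l, z) => Fin.cons (-(sg z.2 * L * (pos z : ℝ)))
      (Fin.cons 0 (fun l' => if l' = l then sg z.2 * L else 0))

/-- the unperturbed hyperplane -/
noncomputable def u₀ (S : Ev ι R k P) (e m : ℕ) (L : ℝ) (r : R) (J : Fin e → Fin m × Bool) :
    Fin (e + 2) → ℝ :=
  Fin.cons (S.s (S.a r) * S.X r + S.t (S.a r)) (Fin.cons (S.X r)
    (fun l => (pos (J l) : ℝ) + sg (J l).2 * (S.s (S.a r) * S.X r + S.t (S.a r)) / L))

/-- the points on the hyperplane -/
noncomputable def fT (S : Ev ι R k P) (e m : ℕ) (r : R) (J : Fin e → Fin m × Bool) :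
    Fin (e + 2) → ι ⊕ (Fin e × (Fin m × Bool)) :=
  Fin.cons (Sum.inl (S.a r)) (Fin.cons (Sum.inl (S.b r)) (fun l => Sum.inr (l, J l)))

lemma ht_inl (S : Ev ι R k P) (e m : ℕ) (L : ℝ) (r : R) (J : Fin e → Fin m × Bool) (i : ι) :
    ht (u₀ S e m L r J) (pt S e m L (Sum.inl i)) =
      S.s i * S.X r + S.t i - (S.s (S.a r) * S.X r + S.t (S.a r)) := by
  simp only [ht, nv, u₀, pt, Fin.sum_univ_succ, Fin.cons_zero, Fin.cons_succ, mul_zero,
    Finset.sum_const_zero]
  ring

lemma ht_inr (S : Ev ι R k P) (e m : ℕ) (L : ℝ) (r : R) (J : Fin e → Fin m × Bool) (l : Fin e)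
    (z : Fin m × Bool) :
    ht (u₀ S e m L r J) (pt S e m L (Sum.inr (l, z))) =
      sg z.2 * L * ((pos (J l) : ℝ) + sg (J l).2 * (S.s (S.a r) * S.X r + S.t (S.a r)) / L -
        pos z) - (S.s (S.a r) * S.X r + S.t (S.a r)) := by
  have h1 : ∑ l' : Fin e, ((pos (J l') : ℝ) + sg (J l').2 *
      (S.s (S.a r) * S.X r + S.t (S.a r)) / L) * (if l' = l then sg z.2 * L else 0) =
      ((pos (J l) : ℝ) + sg (J l).2 * (S.s (S.a r) * S.X r + S.t (S.a r)) / L) *
        (sg z.2 * L) := by
    rw [Finset.sum_eq_single l]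
    · rw [if_pos rfl]
    · intro b _ hb; rw [if_neg hb, mul_zero]
    · intro h; exact absurd (Finset.mem_univ l) h
  have h2 : ht (u₀ S e m L r J) (pt S e m L (Sum.inr (l, z))) =
      1 * (-(sg z.2 * L * (pos z : ℝ))) + (S.X r * 0 + ∑ l' : Fin e, ((pos (J l') : ℝ) +
        sg (J l').2 * (S.s (S.a r) * S.X r + S.t (S.a r)) / L) *
        (if l' = l then sg z.2 * L else 0)) - (S.s (S.a r) * S.X r + S.t (S.a r)) := by
    unfold ht nv
    rw [Fin.sum_univ_succ, Fin.sum_univ_succ]
    simp only [u₀, pt, Fin.cons_zero, Fin.cons_succ]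
  rw [h2, h1]; ring

theorem eMax_ge_ev (S : Ev ι R k P) (e m : ℕ) :
    Fintype.card R * (2 * m) ^ e ≤ eMax (e + 2) (k + e * (m - 1))
      (Fintype.card ι + e * (2 * m)) := by
  classical
  set Z : R → ℝ := fun r => S.s (S.a r) * S.X r + S.t (S.a r) with hZ
  obtain ⟨T, hT⟩ : ∃ T : ℝ, ∀ r, |Z r| < T := by
    refine ⟨∑ r, |Z r| + 1, ?_⟩
    intro r
    have h1 : |Z r| ≤ ∑ r, |Z r| :=
      Finset.single_le_sum (f := fun r => |Z r|) (fun _ _ => abs_nonneg _) (Finset.mem_univ r)
    linarith
  set L : ℝ := 4 * max T 1 with hL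
  have hL0 : 0 < L := by
    have : (1:ℝ) ≤ max T 1 := le_max_right _ _
    linarith
  have hLr : ∀ r, 4 * |Z r| < L := by
    intro r
    have : T ≤ max T 1 := le_max_left _ _
    have := hT r
    linarith
  set V := ι ⊕ (Fin e × (Fin m × Bool)) with hV
  set τ : V → ℝ := fun v => ((Fintype.equivFin _ v : ℕ) : ℝ) with hτ
  have hτinj : Function.Injective τ := by
    intro v v' h
    exact (Fintype.equivFin _).injective (Fin.ext (Nat.cast_injective h))
  -- signs at the unperturbed hyperplane
  have hself : ∀ r (J : Fin e → Fin m × Bool) l,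
      ht (u₀ S e m L r J) (pt S e m L (Sum.inr (l, J l))) = 0 := by
    intro r J l
    rw [ht_inr]
    have h1 := sg_sq (J l).2
    have h2 : sg (J l).2 * L * ((pos (J l) : ℝ) + sg (J l).2 *
        (S.s (S.a r) * S.X r + S.t (S.a r)) / L - pos (J l)) =
        (sg (J l).2 * sg (J l).2) * (S.s (S.a r) * S.X r + S.t (S.a r)) := by
      field_simp
      ring
    rw [h2, h1]; ring
  have hsign : ∀ r (J : Fin e → Fin m × Bool) l z, z ≠ J l →
      ht (u₀ S e m L r J) (pt S e m L (Sum.inr (l, z))) ≠ 0 ∧
      (ht (u₀ S e m L r J) (pt S e m L (Sum.inr (l, z))) < 0 ↔ low (J l) z) := by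
    intro r J l z hz
    have hval : ht (u₀ S e m L r J) (pt S e m L (Sum.inr (l, z))) =
        sg z.2 * (L * ((pos (J l) : ℝ) - pos z)) + (sg z.2 * sg (J l).2 * Z r - Z r) := by
      rw [ht_inr]; field_simp; ring
    have h1 := hLr r
    have h2 : |sg z.2 * sg (J l).2 * Z r - Z r| ≤ 2 * |Z r| := by
      have h3 := abs_nonneg (Z r)
      rcases z with ⟨i, _ | _⟩ <;> rcases hj : (J l).2 with _ | _ <;> simp only [sg]
      · rw [one_mul, one_mul, sub_self, abs_zero]; linarith
      · rw [show (1:ℝ) * -1 * Z r - Z r = -(2 * Z r) by ring, abs_neg, abs_mul, abs_two]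
      · rw [show (-1:ℝ) * 1 * Z r - Z r = -(2 * Z r) by ring, abs_neg, abs_mul, abs_two]
      · rw [show (-1:ℝ) * -1 * Z r - Z r = 0 by ring, abs_zero]; linarith
    have h3 := abs_le.mp h2
    have hp : pos z ≠ pos (J l) := fun h => hz (pos_inj h)
    rw [hval]
    rcases lt_or_gt_of_ne hp with h | h
    · have h4 : (pos z : ℝ) + 1 ≤ pos (J l) := by exact_mod_cast h
      have h5 : L * 1 ≤ L * ((pos (J l) : ℝ) - pos z) :=
        mul_le_mul_of_nonneg_left (by linarith) hL0.le
      rcases hb : z.2 with _ | _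
      · simp only [sg, hb] at h3 ⊢
        have hlow : ¬ low (J l) z := by
          rintro (⟨h6, -⟩ | ⟨-, h6⟩)
          · rw [hb] at h6; exact Bool.false_ne_true h6
          · omega
        constructor
        · intro h6; linarith
        · constructor
          · intro h6; linarith
          · intro h6; exact absurd h6 hlow
      · simp only [sg, hb] at h3 ⊢
        have hlow : low (J l) z := Or.inl ⟨hb, h⟩
        constructor
        · intro h6; linarith
        · constructor
          · intro _; exact hlow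
          · intro _; linarith
    · have h4 : (pos (J l) : ℝ) + 1 ≤ pos z := by exact_mod_cast h
      have h5 : L * ((pos (J l) : ℝ) - pos z) ≤ L * (-1) :=
        mul_le_mul_of_nonneg_left (by linarith) hL0.le
      rcases hb : z.2 with _ | _
      · simp only [sg, hb] at h3 ⊢
        have hlow : low (J l) z := Or.inr ⟨hb, h⟩
        constructor
        · intro h6; linarith
        · constructor
          · intro _; exact hlow
          · intro _; linarith
      · simp only [sg, hb] at h3 ⊢
        have hlow : ¬ low (J l) z := by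
          rintro (⟨-, h6⟩ | ⟨h6, -⟩)
          · omega
          · rw [hb] at h6; exact Bool.false_ne_true h6.symm
        constructor
        · intro h6; linarith
        · constructor
          · intro h6; linarith
          · intro h6; exact absurd h6 hlow
  have hlowself : ∀ (z : Fin m × Bool), ¬ low z z := by
    rintro z (⟨-, h⟩ | ⟨-, h⟩) <;> exact lt_irrefl _ h
  have hiff : ∀ r (J : Fin e → Fin m × Bool) l z,
      (ht (u₀ S e m L r J) (pt S e m L (Sum.inr (l, z))) < 0 ↔ low (J l) z) := by
    intro r J l z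
    by_cases h : z = J l
    · rw [h, hself]
      exact ⟨fun h => absurd h (lt_irrefl _), fun h => absurd h (hlowself _)⟩
    · exact (hsign r J l z h).2
  -- number below
  have hcount : ∀ r (J : Fin e → Fin m × Bool), ((Finset.univ : Finset V).filter
      (fun v => ht (u₀ S e m L r J) (pt S e m L v) < 0)).card = k + e * (m - 1) := by
    intro r J
    rw [Finset.card_filter, Fintype.sum_sum_type, Fintype.sum_prod_type]
    congr 1
    · refine Eq.trans (Finset.sum_congr rfl fun i _ => ?_) (S.hcard r)
      rw [ht_inl]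
      by_cases hh : S.s i * S.X r + S.t i < S.s (S.a r) * S.X r + S.t (S.a r)
      · rw [if_pos hh, if_pos (by linarith)]
      · rw [if_neg hh, if_neg (fun h => hh (by linarith))]
    · calc _ = ∑ l : Fin e, (m - 1) := by
            apply Finset.sum_congr rfl
            intro l _
            refine Eq.trans (Finset.sum_congr rfl fun z _ => ?_) (low_count (J l))
            have h1 := hiff r J l z
            by_cases hh : low (J l) z
            · rw [if_pos hh, if_pos (h1.mpr hh)]
            · rw [if_neg hh, if_neg (fun h => hh (h1.mp h))]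
        _ = e * (m - 1) := by simp
  -- the hyperplane after perturbation
  have hab : ∀ r, S.a r ≠ S.b r := fun r => S.ab_ne r
  have hfinj : ∀ r (J : Fin e → Fin m × Bool), Function.Injective (fT S e m r J) := by
    intro r J
    unfold fT
    rw [Fin.cons_injective_iff]
    constructor
    · rintro ⟨t, ht⟩
      refine Fin.cases (motive := fun t => (Fin.cons (Sum.inl (S.b r))
        (fun l => Sum.inr (l, J l)) : Fin (e + 1) → V) t = Sum.inl (S.a r) → False) ?_ ?_ t ht
      · intro h; rw [Fin.cons_zero] at h; exact hab r (Sum.inl.inj h).symm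
      · intro l h; rw [Fin.cons_succ] at h; exact absurd h (by simp)
    · rw [Fin.cons_injective_iff]
      constructor
      · rintro ⟨l, hl⟩; exact absurd hl (by simp)
      · intro l l' h
        exact (Prod.mk.inj (Sum.inr.inj h)).1
  have hmem : ∀ r (J : Fin e → Fin m × Bool) t, ht (u₀ S e m L r J) (pt S e m L (fT S e m r J t)) = 0 := by
    intro r J t
    unfold fT
    refine Fin.cases ?_ (fun t => Fin.cases ?_ (fun l => ?_) t) t
    · rw [Fin.cons_zero, ht_inl]; ring
    · rw [Fin.cons_succ, Fin.cons_zero, ht_inl]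
      have := S.tie r
      linarith
    · rw [Fin.cons_succ, Fin.cons_succ]
      exact hself r J l
  have hker : ∀ r (J : Fin e → Fin m × Bool) (v : Fin (e + 2) → ℝ),
      (∀ t, ∑ j, (Fin.cons (-1) (fun j => pt S e m L (fT S e m r J t) j.succ) :
        Fin (e + 2) → ℝ) j * v j = 0) → v = 0 := by
    intro r J v hv
    have h0 := hv 0
    have h1 := hv 1
    have e1 : fT S e m r J 1 = Sum.inl (S.b r) := rfl
    have e0 : fT S e m r J 0 = Sum.inl (S.a r) := rfl
    rw [e0] at h0
    rw [e1] at h1
    simp only [pt, Fin.sum_univ_succ, Fin.cons_zero, Fin.cons_succ, zero_mul,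
      Finset.sum_const_zero, add_zero] at h0 h1
    have hs := S.hs r
    have e2 : (Fin.succ 0 : Fin (e + 2)) = 1 := rfl
    have h2 : (S.s (S.a r) - S.s (S.b r)) * v (Fin.succ 0) = 0 := by linarith
    have h3 : v (Fin.succ 0) = 0 := (mul_eq_zero.mp h2).resolve_left (sub_pos.mpr hs).ne'
    rw [h3] at h0
    have h4 : v 0 = 0 := by linarith
    have h5 : ∀ l : Fin e, v l.succ.succ = 0 := by
      intro l
      have h6 := hv l.succ.succ
      have e3 : fT S e m r J l.succ.succ = Sum.inr (l, J l) := rfl
      rw [e3] at h6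
      simp only [pt] at h6
      rw [Fin.sum_univ_succ, Fin.sum_univ_succ] at h6
      simp only [Fin.cons_zero, Fin.cons_succ, zero_mul, zero_add] at h6
      rw [h4, Finset.sum_eq_single l] at h6
      · rw [if_pos rfl] at h6
        have h7 : sg (J l).2 * L ≠ 0 := by
          apply mul_ne_zero _ hL0.ne'
          rcases (J l).2 with _ | _ <;> simp [sg]
        have h8 : sg (J l).2 * L * v l.succ.succ = 0 := by linarith
        exact (mul_eq_zero.mp h8).resolve_left h7
      · intro b _ hb; rw [if_neg hb, zero_mul]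
      · intro h; exact absurd (Finset.mem_univ l) h
    ext t
    exact Fin.cases h4 (fun t => Fin.cases h3 h5 t) t
  set q : V → Fin (e + 2) → ℝ := fun v i => τ v ^ ((i:ℕ) + 1) with hq
  choose u hu1 hu2 hu3 using fun (r : R) (J : Fin e → Fin m × Bool) =>
    move (pt S e m L) q (fT S e m r J) (u₀ S e m L r J) (hmem r J) (hker r J)
  have hev : ∀ᶠ ε in 𝓝[>] (0:ℝ), ∀ r (J : Fin e → Fin m × Bool),
      (∀ t, ht (u r J ε) (fun i => pt S e m L (fT S e m r J t) i +
        ε * q (fT S e m r J t) i) = 0) ∧
      ∀ v, (ht (u r J ε) (fun i => pt S e m L v i + ε * q v i) < 0 ↔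
        ht (u₀ S e m L r J) (pt S e m L v) < 0) := by
    rw [eventually_all]; intro r
    rw [eventually_all]; intro J
    have hT0 := (hu3 r J).filter_mono (nhdsWithin_le_nhds (s := Set.Ioi (0:ℝ)))
    refine hT0.and ?_
    rw [eventually_all]; intro v
    by_cases hv : ∃ t, fT S e m r J t = v
    · obtain ⟨t, rfl⟩ := hv
      filter_upwards [hT0] with ε hε
      rw [hε t, hmem r J t]
    · have hne : ht (u₀ S e m L r J) (pt S e m L v) ≠ 0 := by
        rcases v with i | ⟨l, z⟩
        · rw [ht_inl]
          apply sub_ne_zero.mpr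
          apply S.hne r i
          · rintro rfl; exact hv ⟨0, rfl⟩
          · rintro rfl; exact hv ⟨1, rfl⟩
        · apply (hsign r J l z _).1
          rintro rfl; exact hv ⟨l.succ.succ, rfl⟩
      have hc : ContinuousAt (fun ε => ht (u r J ε) (fun i => pt S e m L v i + ε * q v i)) 0 := by
        have hcu : ∀ i, ContinuousAt (fun ε => u r J ε i) 0 := fun i =>
          (continuousAt_pi.mp (hu1 r J)) i
        simp only [ht]
        apply ContinuousAt.sub _ (hcu 0)
        apply tendsto_finsetSum
        intro i _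
        apply Tendsto.mul
        · refine Fin.cases ?_ (fun i => ?_) i
          · simp only [nv, Fin.cons_zero]; exact tendsto_const_nhds
          · simp only [nv, Fin.cons_succ]; exact hcu _
        · have : Continuous (fun ε : ℝ => pt S e m L v i + ε * q v i) := by fun_prop
          exact this.continuousAt
      have h0 : (fun ε => ht (u r J ε) (fun i => pt S e m L v i + ε * q v i)) 0 =
          ht (u₀ S e m L r J) (pt S e m L v) := by
        simp only [zero_mul, add_zero, hu2]
      rcases lt_or_gt_of_ne hne with h | h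
      · have h1 : (fun ε => ht (u r J ε) (fun i => pt S e m L v i + ε * q v i)) 0 < 0 := by
          rw [h0]; exact h
        filter_upwards [(hc.eventually (gt_mem_nhds h1)).filter_mono
          (nhdsWithin_le_nhds (s := Set.Ioi (0:ℝ)))] with ε hε
        exact ⟨fun _ => h, fun _ => hε⟩
      · have h1 : 0 < (fun ε => ht (u r J ε) (fun i => pt S e m L v i + ε * q v i)) 0 := by
          rw [h0]; exact h
        filter_upwards [(hc.eventually (lt_mem_nhds h1)).filter_mono
          (nhdsWithin_le_nhds (s := Set.Ioi (0:ℝ)))] with ε hε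
        exact ⟨fun h' => absurd h' (not_lt.mpr hε.le), fun h' => absurd h' (not_lt.mpr h.le)⟩
  obtain ⟨ε, hε1, hε2, hε3⟩ := (hev.and ((ev_inj (d := e + 2) (by omega) (pt S e m L) τ
    hτinj).and (ev_genpos (pt S e m L) τ hτinj))).exists
  set p' : V → Fin (e + 2) → ℝ := fun v => fun i => pt S e m L v i + ε * q v i with hp'
  set X : Finset (Fin (e + 2) → ℝ) := Finset.univ.image p' with hX
  have hXc : X.card = Fintype.card ι + e * (2 * m) := by
    rw [hX, Finset.card_image_of_injective _ hε2, Finset.card_univ]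
    simp only [hV, Fintype.card_sum, Fintype.card_prod, Fintype.card_fin, Fintype.card_bool]
    ring
  have hGP : GeneralPosition X := by
    intro w c hw T hT hT2
    refine genpos_image p' hε3 X ?_ w c hw T hT hT2
    intro y hy
    simp only [hX, Finset.mem_image, Finset.mem_univ, true_and] at hy
    exact hy
  set G : R × (Fin e → Fin m × Bool) → Finset (Fin (e + 2) → ℝ) := fun z =>
    (Finset.univ.image (fT S e m z.1 z.2)).image p' with hG
  have hkh : ∀ z, IsKHyperplane X (k + e * (m - 1)) (G z) := by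
    rintro ⟨r, J⟩
    refine ⟨?_, ?_, nv (u r J ε), u r J ε 0, ?_, ?_, Or.inl ?_⟩
    · intro y hy
      simp only [hG, Finset.mem_image, Finset.mem_univ, true_and] at hy
      obtain ⟨v, -, rfl⟩ := hy
      simp [hX]
    · rw [hG]; simp only
      rw [Finset.card_image_of_injective _ hε2, Finset.card_image_of_injective _ (hfinj r J),
        Finset.card_univ, Fintype.card_fin]
    · intro h
      have := congrFun h 0
      simp [nv] at this
    · intro y hy
      simp only [hG, Finset.mem_image, Finset.mem_univ, true_and] at hy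
      obtain ⟨v, ⟨t, rfl⟩, rfl⟩ := hy
      have := (hε1 r J).1 t
      unfold ht at this
      linarith
    · rw [hX, Finset.filter_image, Finset.card_image_of_injective _ hε2]
      refine Eq.trans (congrArg Finset.card ?_) (hcount r J)
      ext v
      simp only [Finset.mem_filter, Finset.mem_univ, true_and]
      rw [← (hε1 r J).2 v]
      unfold ht
      constructor
      · intro h; linarith
      · intro h; linarith
  have hGinj : Function.Injective G := by
    rintro ⟨r, J⟩ ⟨r', J'⟩ h
    have h1 : Finset.univ.image (fT S e m r J) = Finset.univ.image (fT S e m r' J') :=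
      Finset.image_injective hε2 h
    have hm1 : ∀ v, (∃ t, fT S e m r J t = v) → ∃ t, fT S e m r' J' t = v := by
      rintro v ⟨t, rfl⟩
      have : fT S e m r J t ∈ Finset.univ.image (fT S e m r J) :=
        Finset.mem_image_of_mem _ (Finset.mem_univ _)
      rw [h1] at this
      simp only [Finset.mem_image, Finset.mem_univ, true_and] at this
      exact this
    have hJ : J = J' := by
      ext1 l
      obtain ⟨t, ht⟩ := hm1 (Sum.inr (l, J l)) ⟨l.succ.succ, rfl⟩
      refine Fin.cases (motive := fun t => fT S e m r' J' t = Sum.inr (l, J l) → J l = J' l)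
        ?_ (fun t => Fin.cases ?_ ?_ t) t ht
      · intro h; exact absurd h (by simp [fT])
      · intro h; exact absurd h (by simp [fT])
      · intro l' h
        have h2 : (l', J' l') = (l, J l) := Sum.inr.inj h
        have h3 : l' = l := congrArg Prod.fst h2
        have h4 : J' l' = J l := congrArg Prod.snd h2
        rw [← h4, h3]
    have haux : ∀ i, (∃ t, fT S e m r' J' t = Sum.inl i) → i = S.a r' ∨ i = S.b r' := by
      rintro i ⟨t, ht⟩
      refine Fin.cases (motive := fun t => fT S e m r' J' t = Sum.inl i → _)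
        ?_ (fun t => Fin.cases ?_ ?_ t) t ht
      · intro h; left; exact (Sum.inl.inj h).symm
      · intro h; right; exact (Sum.inl.inj h).symm
      · intro l' h; exact absurd h (by simp [fT])
    have ha := haux _ (hm1 (Sum.inl (S.a r)) ⟨0, rfl⟩)
    have hb := haux _ (hm1 (Sum.inl (S.b r)) ⟨1, rfl⟩)
    have hs := S.hs r
    have hs' := S.hs r'
    have hr : r = r' := by
      rcases ha with ha | ha <;> rcases hb with hb | hb
      · exact absurd (ha.trans hb.symm) (hab r)
      · apply S.hX
        have h3 := S.tie r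
        have h4 := S.tie r'
        rw [ha, hb] at h3 hs
        have h6 : (S.s (S.a r') - S.s (S.b r')) * S.X r =
          (S.s (S.a r') - S.s (S.b r')) * S.X r' := by linarith
        exact mul_left_cancel₀ (sub_pos.mpr hs).ne' h6
      · rw [ha, hb] at hs; exfalso; linarith
      · exact absurd (ha.trans hb.symm) (hab r)
    rw [hr, hJ]
  calc Fintype.card R * (2 * m) ^ e = (Set.range G).ncard := by
        rw [← Set.image_univ, Set.ncard_image_of_injective _ hGinj, Set.ncard_univ,
          Nat.card_eq_fintype_card, Fintype.card_prod, Fintype.card_fun, Fintype.card_prod,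
          Fintype.card_fin, Fintype.card_bool, Fintype.card_fin, mul_comm 2 m]
    _ ≤ {T | IsKHyperplane X (k + e * (m - 1)) T}.ncard := by
        apply Set.ncard_le_ncard _ (khyp_finite X _)
        rintro _ ⟨z, rfl⟩
        exact hkh z
    _ ≤ _ := le_eMax X _ hXc hGP

/-- lower bound from a certificate -/
theorem eMax_ge {N E P : ℕ} (h : Has N E P) (e m k n : ℕ) (h1 : N ≤ k + 1)
    (h2 : N + k + 1 ≤ n) :
    E * (2 * m) ^ e ≤ eMax (e + 2) (k + e * (m - 1)) (n + e * (2 * m)) := by
  obtain ⟨ι, R, _, _, κ, C, -, h3, h4, h5, h6⟩ := h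
  obtain ⟨C'⟩ := pad C (n - N - (k + 1 - κ)) (k + 1 - κ)
  have e1 : κ + (k + 1 - κ) = k + 1 := by omega
  rw [e1] at C'
  obtain ⟨S, -, -⟩ := nice C'
  have := eMax_ge_ev S e m
  simp only [Fintype.card_sum, Fintype.card_fin, h3, h4] at this
  have e2 : N + (n - N - (k + 1 - κ) + (k + 1 - κ)) = n := by omega
  rwa [e2] at this

end

end KLev.HighDim
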