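import Pool.Agent.KLev.Final2

/-!
# Halving lines as edges of the `k`-graph
-/

namespace KLev.KGraph

open Finset Filter Topology

/-- General position: no three points collinear. -/
def GeneralPosition (S : Finset (ℝ × ℝ)) : Prop :=
  ∀ p ∈ S, ∀ q ∈ S, ∀ r ∈ S, p ≠ q → p ≠ r → q ≠ r →
    (q.1 - p.1) * (r.2 - p.2) - (q.2 - p.2) * (r.1 - p.1) ≠ 0

open scoped Classical in
/-- `right S p q` is the number of points of `S` in the open half-plane to the right of the
directed line from `p` through `q`. -/
noncomputable def right (S : Finset (ℝ × ℝ)) (p q : ℝ × ℝ) : ℕ :=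
  (S.filter (fun r => (q.1 - p.1) * (r.2 - p.2) - (q.2 - p.2) * (r.1 - p.1) < 0)).card

/-- The edges of the `k`-graph: the ordered pairs of distinct points of `S` with exactly `k`
points of `S` to the right of the directed line through them. -/
def edges (S : Finset (ℝ × ℝ)) (k : ℕ) : Set ((ℝ × ℝ) × (ℝ × ℝ)) :=
  {z | z.1 ∈ S ∧ z.2 ∈ S ∧ z.1 ≠ z.2 ∧ right S z.1 z.2 = k}

/-- `eMax m k`: the maximum number of edges of the `k`-graph of `m` points in general
position. -/
noncomputable def eMax (m k : ℕ) : ℕ :=
  sSup {c : ℕ | ∃ S : Finset (ℝ × ℝ), S.card = m ∧ GeneralPosition S ∧ (edges S k).ncard = c}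

lemma edges_finite (S : Finset (ℝ × ℝ)) (k : ℕ) : (edges S k).Finite := by
  apply (Finset.finite_toSet (S ×ˢ S)).subset
  rintro ⟨p, q⟩ ⟨h1, h2, -⟩
  simp only [Finset.coe_product, Set.mem_prod, Finset.mem_coe]
  exact ⟨h1, h2⟩

lemma edges_le (S : Finset (ℝ × ℝ)) (k : ℕ) : (edges S k).ncard ≤ S.card * S.card := by
  rw [← Finset.card_product, ← Set.ncard_coe_finset]
  apply Set.ncard_le_ncard _ (Finset.finite_toSet _)
  rintro ⟨p, q⟩ ⟨h1, h2, -⟩
  simp only [Finset.coe_product, Set.mem_prod, Finset.mem_coe]
  exact ⟨h1, h2⟩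

lemma le_eMax {m : ℕ} (S : Finset (ℝ × ℝ)) (k : ℕ) (h1 : S.card = m) (h2 : GeneralPosition S) :
    (edges S k).ncard ≤ eMax m k := by
  apply le_csSup
  · refine ⟨m * m, ?_⟩
    rintro c ⟨Q, hQ, -, rfl⟩
    rw [← hQ]; exact edges_le Q k
  · exact ⟨S, h1, h2, rfl⟩

theorem eMax_ge_ev {ι R : Type} [Fintype ι] [Fintype R] {k P : ℕ} (S : Ev ι R k P)
    (hinj : Function.Injective S.s) (hsim : Simple S.s S.t) (hcard : Fintype.card ι = 2 * (k + 1)) :
    2 * Fintype.card R ≤ eMax (2 * (k + 1)) k := by
  classical
  set g : ι → ℝ × ℝ := fun i => (S.s i, S.t i) with hg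
  have hginj : Function.Injective g := by
    intro i j h
    exact hinj (congrArg Prod.fst h)
  set Pt : Finset (ℝ × ℝ) := Finset.univ.image g with hPt
  have hPc : Pt.card = 2 * (k + 1) := by
    rw [hPt, Finset.card_image_of_injective _ hginj, Finset.card_univ, hcard]
  have hGP : GeneralPosition Pt := by
    intro p hp q hq r hr hpq hpr hqr h
    simp only [hPt, Finset.mem_image, Finset.mem_univ, true_and] at hp hq hr
    obtain ⟨i, rfl⟩ := hp
    obtain ⟨j, rfl⟩ := hq
    obtain ⟨l, rfl⟩ := hr
    have hij : i ≠ j := fun h => hpq (by rw [h])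
    have hil : i ≠ l := fun h => hpr (by rw [h])
    have hjl : j ≠ l := fun h => hqr (by rw [h])
    simp only [hg] at h
    have hs : S.s j - S.s i ≠ 0 := by
      intro h0; apply hij; apply hinj; linarith
    set x : ℝ := -(S.t j - S.t i) / (S.s j - S.s i) with hx
    have hx' : (S.s j - S.s i) * x = -(S.t j - S.t i) := by
      rw [hx]; field_simp
    apply hsim.1 i j l hij hil hjl x
    · linarith
    · have h1 : (S.s j - S.s i) * ((S.s l - S.s i) * x + (S.t l - S.t i)) = 0 := by
        have : (S.s j - S.s i) * ((S.s l - S.s i) * x + (S.t l - S.t i)) =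
          (S.s l - S.s i) * ((S.s j - S.s i) * x) + (S.s j - S.s i) * (S.t l - S.t i) := by ring
        rw [this, hx']
        linarith
      have h2 := (mul_eq_zero.mp h1).resolve_left hs
      linarith
  have hcnt : ∀ r, ((Finset.univ : Finset ι).filter (fun i => S.s i * S.X r + S.t i <
      S.s (S.a r) * S.X r + S.t (S.a r))).card = k := by
    intro r; rw [Finset.card_filter]; convert S.hcard r
  have hcnt2 : ∀ r, ((Finset.univ : Finset ι).filter (fun i => S.s (S.a r) * S.X r + S.t (S.a r) <
      S.s i * S.X r + S.t i)).card = k := by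
    intro r
    have hne : S.a r ≠ S.b r := S.ab_ne r
    have h1 := Finset.card_filter_add_card_filter_not (s := (Finset.univ : Finset ι))
      (p := fun i => S.s i * S.X r + S.t i < S.s (S.a r) * S.X r + S.t (S.a r))
    have h2 : (Finset.univ : Finset ι).filter (fun i => ¬ (S.s i * S.X r + S.t i <
      S.s (S.a r) * S.X r + S.t (S.a r))) = insert (S.a r) (insert (S.b r)
        ((Finset.univ : Finset ι).filter (fun i => S.s (S.a r) * S.X r + S.t (S.a r) <
      S.s i * S.X r + S.t i))) := by
      ext i
      simp only [Finset.mem_filter, Finset.mem_univ, true_and, Finset.mem_insert]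
      constructor
      · intro h
        by_cases hia : i = S.a r
        · exact Or.inl hia
        · by_cases hib : i = S.b r
          · exact Or.inr (Or.inl hib)
          · right; right
            exact lt_of_le_of_ne (not_lt.mp h) (Ne.symm (S.hne r i hia hib))
      · rintro (rfl | rfl | h)
        · exact lt_irrefl _
        · rw [S.tie r]; exact lt_irrefl _
        · exact not_lt.mpr h.le
    rw [h2, hcnt r, Finset.card_insert_of_notMem, Finset.card_insert_of_notMem, Finset.card_univ,
      hcard] at h1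
    · omega
    · simp only [Finset.mem_filter, Finset.mem_univ, true_and]
      rw [S.tie r]; exact lt_irrefl _
    · simp only [Finset.mem_insert, Finset.mem_filter, Finset.mem_univ, true_and]
      rintro (h | h)
      · exact hne h
      · exact lt_irrefl _ h
  -- orientation identity
  have hor : ∀ r i, (S.s (S.b r) - S.s (S.a r)) * (S.t i - S.t (S.a r)) -
      (S.t (S.b r) - S.t (S.a r)) * (S.s i - S.s (S.a r)) =
      (S.s (S.b r) - S.s (S.a r)) * ((S.s i * S.X r + S.t i) -
        (S.s (S.a r) * S.X r + S.t (S.a r))) := by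
    intro r i
    have h1 := S.tie r
    have h2 : S.t (S.b r) - S.t (S.a r) = -((S.s (S.b r) - S.s (S.a r)) * S.X r) := by linarith
    rw [h2]; ring
  have hor' : ∀ r i, (S.s (S.a r) - S.s (S.b r)) * (S.t i - S.t (S.b r)) -
      (S.t (S.a r) - S.t (S.b r)) * (S.s i - S.s (S.b r)) =
      (S.s (S.a r) - S.s (S.b r)) * ((S.s i * S.X r + S.t i) -
        (S.s (S.a r) * S.X r + S.t (S.a r))) := by
    intro r i
    have h1 := S.tie r
    have h2 : S.t (S.a r) - S.t (S.b r) = -((S.s (S.a r) - S.s (S.b r)) * S.X r) := by linarith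
    rw [h2, h1]; ring
  have hr1 : ∀ r, right Pt (g (S.a r)) (g (S.b r)) = k := by
    intro r
    unfold right
    rw [hPt, Finset.filter_image, Finset.card_image_of_injective _ hginj]
    refine Eq.trans (congrArg Finset.card ?_) (hcnt2 r)
    ext i
    simp only [Finset.mem_filter, Finset.mem_univ, true_and, hg]
    rw [hor r i]
    have h1 := S.hs r
    constructor
    · intro h; by_contra h3; push Not at h3; nlinarith
    · intro h; nlinarith
  have hr2 : ∀ r, right Pt (g (S.b r)) (g (S.a r)) = k := by
    intro r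
    unfold right
    rw [hPt, Finset.filter_image, Finset.card_image_of_injective _ hginj]
    refine Eq.trans (congrArg Finset.card ?_) (hcnt r)
    ext i
    simp only [Finset.mem_filter, Finset.mem_univ, true_and, hg]
    rw [hor' r i]
    have h1 := S.hs r
    constructor
    · intro h; by_contra h3; push Not at h3; nlinarith
    · intro h; nlinarith
  have hX : ∀ r r', S.a r = S.a r' → S.b r = S.b r' → r = r' := by
    intro r r' h1 h2
    apply S.hX
    have h3 := S.tie r
    have h4 := S.tie r'
    have h5 := S.hs r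
    rw [← h1, ← h2] at h4
    have h6 : (S.s (S.a r) - S.s (S.b r)) * S.X r = (S.s (S.a r) - S.s (S.b r)) * S.X r' := by
      linarith
    exact mul_left_cancel₀ (sub_pos.mpr h5).ne' h6
  set G : R × Bool → (ℝ × ℝ) × (ℝ × ℝ) := fun z =>
    if z.2 then (g (S.a z.1), g (S.b z.1)) else (g (S.b z.1), g (S.a z.1)) with hG
  have hGinj : Function.Injective G := by
    rintro ⟨r, b⟩ ⟨r', b'⟩ h
    have e1 := S.hs r
    have e2 := S.hs r'
    cases b <;> cases b'
    · simp only [hG, Bool.false_eq_true, if_false, Prod.mk.injEq] at h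
      rw [hX r r' (hginj h.2) (hginj h.1)]
    · simp only [hG, Bool.false_eq_true, if_false, if_true, Prod.mk.injEq] at h
      have h1 := hginj h.1
      have h2 := hginj h.2
      rw [h1, h2] at e1
      linarith
    · simp only [hG, Bool.false_eq_true, if_false, if_true, Prod.mk.injEq] at h
      have h1 := hginj h.1
      have h2 := hginj h.2
      rw [h1, h2] at e1
      linarith
    · simp only [hG, if_true, Prod.mk.injEq] at h
      rw [hX r r' (hginj h.1) (hginj h.2)]
  have hmem : ∀ i, g i ∈ Pt := fun i => by simp [hPt]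
  calc 2 * Fintype.card R = (Set.range G).ncard := by
        rw [← Set.image_univ, Set.ncard_image_of_injective _ hGinj, Set.ncard_univ,
          Nat.card_eq_fintype_card, Fintype.card_prod, Fintype.card_bool, mul_comm]
    _ ≤ (edges Pt k).ncard := by
        apply Set.ncard_le_ncard _ (edges_finite Pt k)
        rintro _ ⟨⟨r, b⟩, rfl⟩
        cases b
        · simp only [hG, Bool.false_eq_true, if_false]
          exact ⟨hmem _, hmem _, fun h => S.ab_ne r (hginj h).symm, hr2 r⟩
        · simp only [hG, if_true]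
          exact ⟨hmem _, hmem _, fun h => S.ab_ne r (hginj h), hr1 r⟩
    _ ≤ eMax (2 * (k + 1)) k := le_eMax Pt k hPc hGP

/-- lower bound from a certificate -/
theorem eMax_ge {N E P : ℕ} (h : Has N E P) (n : ℕ) (hn : N ≤ n) (hn0 : 1 ≤ n) :
    2 * E ≤ eMax (2 * n) (n - 1) := by
  obtain ⟨ι, R, _, _, κ, C, -, h3, h4, h5, h6⟩ := h
  obtain ⟨C'⟩ := pad C (n + κ - N) (n - κ)
  have e1 : κ + (n - κ) = (n - 1) + 1 := by omega
  rw [e1] at C'
  obtain ⟨S, h7, h8⟩ := nice C'
  have := eMax_ge_ev S h7 h8 (by
    simp only [Fintype.card_sum, Fintype.card_fin, h3]; omega)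
  have e2 : n - 1 + 1 = n := by omega
  rw [e2, h4] at this
  exact this

end KLev.KGraph
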