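import Pool.Agent.KLev.Final

/-!
# Levels of line arrangements
-/

namespace KLev.Levels

open Finset Filter Topology

/-- The height at abscissa `x` of the non-vertical line with slope `l.1` and intercept `l.2`. -/
def height (l : ℝ × ℝ) (x : ℝ) : ℝ := l.1 * x + l.2

open scoped Classical in
/-- The level of a point: the number of lines of `Γ` passing strictly below it. -/
noncomputable def level (Γ : Finset (ℝ × ℝ)) (p : ℝ × ℝ) : ℕ :=
  (Γ.filter (fun l => height l p.1 < p.2)).card

/-- The `k`-level: the closure of the set of points that lie on some line of `Γ` and have level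
exactly `k`. -/
def kLevel (Γ : Finset (ℝ × ℝ)) (k : ℕ) : Set (ℝ × ℝ) :=
  closure {p | (∃ l ∈ Γ, height l p.1 = p.2) ∧ level Γ p = k}

/-- The vertices of the `k`-level: the points where the chain passes from one line `l` of `Γ`
to another line `m` of `Γ`. -/
def IsVertex (Γ : Finset (ℝ × ℝ)) (k : ℕ) (p : ℝ × ℝ) : Prop :=
  ∃ l ∈ Γ, ∃ m ∈ Γ, l ≠ m ∧ height l p.1 = p.2 ∧ height m p.1 = p.2 ∧
    ∃ δ > 0, (∀ x, p.1 - δ < x → x < p.1 → (x, height l x) ∈ kLevel Γ k) ∧
      (∀ x, p.1 < x → x < p.1 + δ → (x, height m x) ∈ kLevel Γ k)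

/-- The complexity of the `k`-level: the number of its vertices. -/
noncomputable def complexity (Γ : Finset (ℝ × ℝ)) (k : ℕ) : ℕ := {p | IsVertex Γ k p}.ncard

/-- `e k n` is the maximum complexity of the `k`-level over all sets of `n` lines. -/
noncomputable def e (k n : ℕ) : ℕ :=
  sSup {c : ℕ | ∃ Γ : Finset (ℝ × ℝ), Γ.card = n ∧ complexity Γ k = c}

lemma vertices_subset (Γ : Finset (ℝ × ℝ)) (k : ℕ) :
    {p | IsVertex Γ k p} ⊆ (fun z : (ℝ × ℝ) × (ℝ × ℝ) =>
      ((z.2.2 - z.1.2) / (z.1.1 - z.2.1), height z.1 ((z.2.2 - z.1.2) / (z.1.1 - z.2.1)))) ''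
      (Γ ×ˢ Γ : Finset _) := by
  rintro ⟨x, y⟩ ⟨l, hl, m, hm, hlm, h1, h2, -⟩
  refine ⟨(l, m), by simp [hl, hm], ?_⟩
  simp only [height] at h1 h2 ⊢
  have hs : l.1 - m.1 ≠ 0 := by
    intro h
    apply hlm
    have h3 : l.1 = m.1 := by linarith
    refine Prod.ext h3 ?_
    rw [h3] at h1
    linarith
  have hx : (m.2 - l.2) / (l.1 - m.1) = x := by
    rw [div_eq_iff hs]
    linarith
  rw [hx, h1]

lemma vertices_finite (Γ : Finset (ℝ × ℝ)) (k : ℕ) : {p | IsVertex Γ k p}.Finite :=
  ((Finset.finite_toSet _).image _).subset (vertices_subset Γ k)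

lemma complexity_le (Γ : Finset (ℝ × ℝ)) (k : ℕ) : complexity Γ k ≤ Γ.card * Γ.card := by
  unfold complexity
  refine (Set.ncard_le_ncard (vertices_subset Γ k) ((Finset.finite_toSet _).image _)).trans ?_
  refine (Set.ncard_image_le (Finset.finite_toSet (Γ ×ˢ Γ))).trans ?_
  rw [Set.ncard_coe_finset, Finset.card_product]

lemma le_e (Γ : Finset (ℝ × ℝ)) (k : ℕ) : complexity Γ k ≤ e k Γ.card := by
  apply le_csSup
  · refine ⟨Γ.card * Γ.card, ?_⟩
    rintro c ⟨Δ, hΔ, rfl⟩
    rw [← hΔ]; exact complexity_le Δ k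
  · exact ⟨Γ, rfl, rfl⟩

theorem e_ge_ev {ι R : Type} [Fintype ι] [Fintype R] {k P : ℕ} (S : Ev ι R k P)
    (hinj : Function.Injective S.s) : Fintype.card R ≤ e k (Fintype.card ι) := by
  classical
  set g : ι → ℝ × ℝ := fun i => (S.s i, S.t i) with hg
  have hginj : Function.Injective g := by
    intro i j h
    exact hinj (congrArg Prod.fst h)
  set Γ : Finset (ℝ × ℝ) := Finset.univ.image g with hΓ
  have hΓc : Γ.card = Fintype.card ι := by
    rw [hΓ, Finset.card_image_of_injective _ hginj, Finset.card_univ]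
  have hmem : ∀ i, g i ∈ Γ := fun i => by simp [hΓ]
  have hlev : ∀ p : ℝ × ℝ, level Γ p =
      ((Finset.univ : Finset ι).filter (fun i => S.s i * p.1 + S.t i < p.2)).card := by
    intro p
    unfold level
    rw [hΓ, Finset.filter_image, Finset.card_image_of_injective _ hginj]
    rfl
  have hcnt : ∀ r, ((Finset.univ : Finset ι).filter (fun i => S.s i * S.X r + S.t i <
      S.s (S.a r) * S.X r + S.t (S.a r))).card = k := by
    intro r; rw [Finset.card_filter]; convert S.hcard r
  have hcont : ∀ i, Continuous (fun x : ℝ => S.s i * x + S.t i) := by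
    intro i; fun_prop
  -- near the event the other lines keep their side
  have hnear : ∀ r, ∀ᶠ x in 𝓝 (S.X r), ∀ c, c ≠ S.a r → c ≠ S.b r →
      (S.s c * x + S.t c < S.s (S.a r) * x + S.t (S.a r) ↔
        S.s c * S.X r + S.t c < S.s (S.a r) * S.X r + S.t (S.a r)) ∧
      (S.s c * x + S.t c < S.s (S.b r) * x + S.t (S.b r) ↔
        S.s c * S.X r + S.t c < S.s (S.a r) * S.X r + S.t (S.a r)) := by
    intro r
    rw [eventually_all]; intro c
    by_cases hca : c = S.a r
    · exact Filter.Eventually.of_forall (fun _ h => absurd hca h)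
    by_cases hcb : c = S.b r
    · exact Filter.Eventually.of_forall (fun _ _ h => absurd hcb h)
    have hne := S.hne r c hca hcb
    have hne2 : S.s c * S.X r + S.t c ≠ S.s (S.b r) * S.X r + S.t (S.b r) := by
      rw [← S.tie r]; exact hne
    rcases lt_or_gt_of_ne hne with h | h
    · have h' : S.s c * S.X r + S.t c < S.s (S.b r) * S.X r + S.t (S.b r) := by
        rw [← S.tie r]; exact h
      filter_upwards [(hcont c).continuousAt.eventually_lt (hcont (S.a r)).continuousAt h,
        (hcont c).continuousAt.eventually_lt (hcont (S.b r)).continuousAt h'] with x h1 h2 _ _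
      exact ⟨⟨fun _ => h, fun _ => h1⟩, ⟨fun _ => h, fun _ => h2⟩⟩
    · have h' : S.s (S.b r) * S.X r + S.t (S.b r) < S.s c * S.X r + S.t c := by
        rw [← S.tie r]; exact h
      filter_upwards [(hcont (S.a r)).continuousAt.eventually_lt (hcont c).continuousAt h,
        (hcont (S.b r)).continuousAt.eventually_lt (hcont c).continuousAt h'] with x h1 h2 _ _
      exact ⟨⟨fun h3 => absurd h3 (not_lt.mpr h1.le), fun h3 => absurd h3 (not_lt.mpr h.le)⟩,
        ⟨fun h3 => absurd h3 (not_lt.mpr h2.le), fun h3 => absurd h3 (not_lt.mpr h.le)⟩⟩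
  have hver : ∀ r, IsVertex Γ k (S.X r, S.s (S.a r) * S.X r + S.t (S.a r)) := by
    intro r
    obtain ⟨δ, hδ, hball⟩ := Metric.eventually_nhds_iff.mp (hnear r)
    refine ⟨g (S.a r), hmem _, g (S.b r), hmem _, ?_, rfl, ?_, δ, hδ, ?_, ?_⟩
    · intro h; exact S.ab_ne r (hginj h)
    · exact (S.tie r).symm
    · intro x hx1 hx2
      have hx1' : S.X r - δ < x := hx1
      have hx2' : x < S.X r := hx2
      have hx : dist x (S.X r) < δ := by rw [Real.dist_eq, abs_lt]; constructor <;> linarith
      have hs := S.hs r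
      have htie := S.tie r
      apply subset_closure
      refine ⟨⟨g (S.a r), hmem _, rfl⟩, ?_⟩
      rw [hlev]
      refine Eq.trans (congrArg Finset.card ?_) (hcnt r)
      ext c
      simp only [Finset.mem_filter, Finset.mem_univ, true_and]
      show S.s c * x + S.t c < S.s (S.a r) * x + S.t (S.a r) ↔ _
      by_cases hca : c = S.a r
      · subst hca; simp
      by_cases hcb : c = S.b r
      · rw [hcb]
        constructor
        · intro h; exfalso; nlinarith
        · intro h; exfalso; linarith
      · exact (hball hx c hca hcb).1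
    · intro x hx1 hx2
      have hx1' : S.X r < x := hx1
      have hx2' : x < S.X r + δ := hx2
      have hx : dist x (S.X r) < δ := by rw [Real.dist_eq, abs_lt]; constructor <;> linarith
      have hs := S.hs r
      have htie := S.tie r
      apply subset_closure
      refine ⟨⟨g (S.b r), hmem _, rfl⟩, ?_⟩
      rw [hlev]
      refine Eq.trans (congrArg Finset.card ?_) (hcnt r)
      ext c
      simp only [Finset.mem_filter, Finset.mem_univ, true_and]
      show S.s c * x + S.t c < S.s (S.b r) * x + S.t (S.b r) ↔ _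
      by_cases hca : c = S.a r
      · rw [hca]
        constructor
        · intro h; exfalso; nlinarith
        · intro h; exfalso; linarith
      by_cases hcb : c = S.b r
      · rw [hcb]
        constructor
        · intro h; exfalso; linarith
        · intro h; exfalso; linarith
      · exact (hball hx c hca hcb).2
  set G : R → ℝ × ℝ := fun r => (S.X r, S.s (S.a r) * S.X r + S.t (S.a r)) with hG
  have hGinj : Function.Injective G := by
    intro r r' h
    exact S.hX (congrArg Prod.fst h)
  calc Fintype.card R = (Set.range G).ncard := by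
        rw [← Set.image_univ, Set.ncard_image_of_injective _ hGinj, Set.ncard_univ,
          Nat.card_eq_fintype_card]
    _ ≤ complexity Γ k := by
        unfold complexity
        apply Set.ncard_le_ncard _ (vertices_finite Γ k)
        rintro _ ⟨r, rfl⟩
        exact hver r
    _ ≤ e k Γ.card := le_e Γ k
    _ = _ := by rw [hΓc]

/-- lower bound for the complexity from a certificate -/
theorem e_ge {N E P : ℕ} (h : Has N E P) (k n : ℕ) (h1 : N ≤ k + 1) (h2 : N + k + 1 ≤ n) :
    E ≤ e k n := by
  obtain ⟨ι, R, _, _, κ, C, -, h3, h4, h5, h6⟩ := h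
  obtain ⟨C'⟩ := pad C (n - N - (k + 1 - κ)) (k + 1 - κ)
  have e1 : κ + (k + 1 - κ) = k + 1 := by omega
  rw [e1] at C'
  obtain ⟨S, h7, -⟩ := nice C'
  have := e_ge_ev S h7
  simp only [Fintype.card_sum, Fintype.card_fin, h3, h4] at this
  have e2 : N + (n - N - (k + 1 - κ) + (k + 1 - κ)) = n := by omega
  rwa [e2] at this

end KLev.Levels
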