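import Pool.Agent.KLev.Regular

namespace KLev

open Finset Filter Topology

section

/-- slopes can be made pairwise distinct -/
theorem inj_slopes {ι R : Type} [Fintype ι] [Finite R] {k P : ℕ} (C : Cert ι R k P) :
    ∃ C' : Cert ι R k P, Function.Injective C'.s := by
  classical
  set n : ι → ℕ := fun i => (Fintype.equivFin ι i : ℕ) with hn
  have hninj : Function.Injective n := by
    intro i j h
    exact (Fintype.equivFin ι).injective (Fin.ext h)
  have hsgn : ∀ᶠ z in 𝓝[>] (0:ℝ), ∀ r b i,
      (C.s i * C.x r b + C.t i - C.y r b + z * (z ^ n i * C.x r b) ≠ 0 ∧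
      (C.s i * C.x r b + C.t i - C.y r b + z * (z ^ n i * C.x r b) < 0 ↔
        C.s i * C.x r b + C.t i - C.y r b < 0)) := by
    rw [eventually_all]; intro r
    rw [eventually_all]; intro b
    rw [eventually_all]; intro i
    have hA : C.s i * C.x r b + C.t i - C.y r b ≠ 0 := sub_ne_zero.mpr (C.hne r b i)
    set A := C.s i * C.x r b + C.t i - C.y r b with hAdef
    have hc : Tendsto (fun z : ℝ => A + z * (z ^ n i * C.x r b)) (𝓝[>] (0:ℝ))
        (𝓝 A) := by
      have h : ContinuousAt (fun z : ℝ => A + z * (z ^ n i * C.x r b)) 0 := by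
        fun_prop
      have h2 := h.tendsto
      simp only [zero_mul, add_zero] at h2
      exact h2.mono_left nhdsWithin_le_nhds
    rcases lt_or_gt_of_ne hA with h | h
    · filter_upwards [hc.eventually (gt_mem_nhds h)] with ε hε
      exact ⟨hε.ne, by simp [hε, h]⟩
    · filter_upwards [hc.eventually (lt_mem_nhds h)] with ε hε
      exact ⟨hε.ne', by constructor <;> intro h' <;> linarith⟩
  have h1 : ∀ᶠ z in 𝓝[>] (0:ℝ), ∀ i j, i ≠ j → C.s i + z ^ (n i + 1) ≠ C.s j + z ^ (n j + 1) := by
    rw [eventually_all]; intro i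
    rw [eventually_all]; intro j
    by_cases hij : i = j
    · exact Filter.Eventually.of_forall (fun z h => absurd hij h)
    · set p : Polynomial ℝ := Polynomial.C (C.s i) + Polynomial.X ^ (n i + 1) -
        Polynomial.C (C.s j) - Polynomial.X ^ (n j + 1) with hp
      have hp0 : p ≠ 0 := by
        intro h
        have h2 : p.coeff (n i + 1) = 0 := by rw [h]; simp
        have h3 : n i ≠ n j := fun h => hij (hninj h)
        simp [hp, Polynomial.coeff_C, Polynomial.coeff_X_pow, h3] at h2
      filter_upwards [ev_poly hp0] with z hz _ h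
      apply hz
      simp only [hp, Polynomial.eval_sub, Polynomial.eval_add, Polynomial.eval_C,
        Polynomial.eval_pow, Polynomial.eval_X]
      linarith
  obtain ⟨z, hz1, hz2⟩ := (hsgn.and h1).exists
  set s' : ι → ℝ := fun i => C.s i + z ^ (n i + 1) with hs'
  have e : ∀ r b i, s' i * C.x r b + C.t i - C.y r b =
      C.s i * C.x r b + C.t i - C.y r b + z * (z ^ n i * C.x r b) := by
    intro r b i
    simp only [hs', pow_succ]; ring
  have hpos : ∀ r b i, (s' i * C.x r b + C.t i < C.y r b ↔ C.s i * C.x r b + C.t i < C.y r b) := by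
    intro r b i
    have h := (hz1 r b i).2
    rw [← sub_neg, e, h, sub_neg]
  have hne' : ∀ r b i, s' i * C.x r b + C.t i ≠ C.y r b := by
    intro r b i h
    apply (hz1 r b i).1
    rw [← e, h, sub_self]
  refine ⟨{ s := s', t := C.t, x := C.x, y := C.y, l := C.l, slot := C.slot, hlt := C.hlt
            hdisj := C.hdisj, hne := hne', hcard := ?_, hl0 := ?_, hl1 := ?_
            hslot := C.hslot }, ?_⟩
  · intro r b
    refine Eq.trans ?_ (C.hcard r b)
    apply Finset.sum_congr rfl
    intro i _
    simp only [hpos]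
  · intro r; exact (hpos r false _).mpr (C.hl0 r)
  · intro r
    rcases lt_trichotomy (s' (C.l r) * C.x r true + C.t (C.l r)) (C.y r true) with h | h | h
    · exact absurd ((hpos r true (C.l r)).mp h) (not_lt.mpr (C.hl1 r).le)
    · exact absurd h (hne' r true (C.l r))
    · exact h
  · intro i j h
    by_contra hij
    exact hz2 i j hij h

/-- far away lines can be added above and below -/
theorem pad {ι R : Type} [Fintype ι] [Finite R] {k P : ℕ} (C : Cert ι R k P) (p q : ℕ) :
    Nonempty (Cert (ι ⊕ (Fin p ⊕ Fin q)) R (k + q) P) := by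
  classical
  cases nonempty_fintype R
  obtain ⟨T, hT⟩ : ∃ T : ℝ, ∀ r b, |C.y r b| < T := by
    refine ⟨∑ r, ∑ b, |C.y r b| + 1, ?_⟩
    intro r b
    have h1 : |C.y r b| ≤ ∑ b', |C.y r b'| :=
      Finset.single_le_sum (f := fun b' => |C.y r b'|) (fun _ _ => abs_nonneg _)
        (Finset.mem_univ b)
    have h2 : ∑ b', |C.y r b'| ≤ ∑ r', ∑ b', |C.y r' b'| :=
      Finset.single_le_sum (f := fun r' => ∑ b', |C.y r' b'|)
        (fun _ _ => Finset.sum_nonneg (fun _ _ => abs_nonneg _)) (Finset.mem_univ r)
    linarith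
  refine ⟨{
    s := Sum.elim C.s (fun _ => 0)
    t := Sum.elim C.t (Sum.elim (fun _ => T) (fun _ => -T))
    x := C.x, y := C.y, l := fun r => Sum.inl (C.l r), slot := C.slot
    hlt := C.hlt, hdisj := C.hdisj, hne := ?_, hcard := ?_
    hl0 := fun r => by simpa using C.hl0 r, hl1 := fun r => by simpa using C.hl1 r
    hslot := ?_ }⟩
  · rintro r b (i | i | i)
    · simpa using C.hne r b i
    · have := abs_lt.mp (hT r b)
      simp only [Sum.elim_inr, Sum.elim_inl, zero_mul, zero_add]
      intro h; linarith [this.2]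
    · have := abs_lt.mp (hT r b)
      simp only [Sum.elim_inr, zero_mul, zero_add]
      intro h; linarith [this.1]
  · intro r b
    have h := abs_lt.mp (hT r b)
    rw [Fintype.sum_sum_type, Fintype.sum_sum_type]
    have e1 : ¬ (T < C.y r b) := by linarith [h.2]
    have e2 : -T < C.y r b := by linarith [h.1]
    simp only [Sum.elim_inl, Sum.elim_inr, zero_mul, zero_add, e1, e2, if_true, if_false]
    refine congrArg₂ (· + ·) (Eq.trans (Finset.sum_congr rfl fun i _ => ?_) (C.hcard r b))
      (by simp)
    congr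
  · intro r r' h1 h2
    exact C.hslot r r' (Sum.inl.inj h1) h2

/-- reindexing and event form with distinct slopes and simple position -/
theorem nice {ι R : Type} [Fintype ι] [Finite R] {k P : ℕ} (C : Cert ι R (k + 1) P) :
    ∃ S : Ev ι R k P, Function.Injective S.s ∧ Simple S.s S.t := by
  obtain ⟨C', hC'⟩ := inj_slopes C
  obtain ⟨S, h1, h2⟩ := regularize C'
  exact ⟨S, by rw [h1]; exact hC', h2⟩

end

end KLev
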