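import Pool.Agent.KLev.Base
import Pool.Agent.KLev.ExPar
import Pool.Agent.KLev.Halving

/-!
# Iterating the composition
-/

namespace KLev

open Finset Filter Topology

section

/-- a certificate with rational slopes can be rescaled to natural slopes -/
theorem natSlopes {ι R : Type} [Fintype ι] {κ P : ℕ} (C : Cert ι R κ P) (h : RatSlopes C.s) :
    ∃ (C' : Cert ι R κ P) (σ : ι → ℕ) (Rz : ℕ), (∀ i, C'.s i = σ i) ∧ (∀ i, σ i ≤ Rz) ∧
      1 ≤ Rz := by
  classical
  choose q hq using h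
  set d : ℕ := ∏ i, (q i).den with hd
  have hd0 : 0 < d := Finset.prod_pos (fun i _ => (q i).den_pos)
  have hz : ∀ i, ∃ z : ℤ, (z : ℚ) = d * q i := by
    intro i
    refine ⟨(∏ j ∈ Finset.univ.erase i, ((q j).den : ℤ)) * (q i).num, ?_⟩
    have h1 : (d : ℚ) = (q i).den * ∏ j ∈ Finset.univ.erase i, ((q j).den : ℚ) := by
      rw [hd, Nat.cast_prod]
      exact (Finset.mul_prod_erase _ (fun j => ((q j).den : ℚ)) (Finset.mem_univ i)).symm
    have h2 : (q i) * (q i).den = (q i).num := Rat.mul_den_eq_num (q i)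
    push_cast
    rw [h1]
    linear_combination (-(∏ j ∈ Finset.univ.erase i, ((q j).den : ℚ))) * h2
  choose z hz using hz
  set m : ℕ := ∑ i, (z i).natAbs with hm
  have hzm : ∀ i, (z i).natAbs ≤ m := fun i =>
    Finset.single_le_sum (f := fun i => (z i).natAbs) (fun _ _ => Nat.zero_le _)
      (Finset.mem_univ i)
  have hσ : ∀ i, (((z i + m).toNat : ℕ) : ℤ) = z i + m := by
    intro i
    apply Int.toNat_of_nonneg
    have := hzm i
    omega
  have hs : ∀ i, (d : ℝ) * C.s i + m = (((z i + m).toNat : ℕ) : ℝ) := by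
    intro i
    have h1 : (((z i + m).toNat : ℕ) : ℝ) = (((z i + m).toNat : ℤ) : ℝ) := by push_cast; rfl
    rw [h1, hσ i]
    have h2 : (z i : ℝ) = ((z i : ℚ) : ℝ) := by push_cast; rfl
    push_cast
    rw [h2, hz i, hq i]
    push_cast; rfl
  have hdR : (0:ℝ) < d := by exact_mod_cast hd0
  have key : ∀ i x t y, (d * C.s i + m) * (x / d) + t - (y + m * (x / d)) = C.s i * x + t - y := by
    intro i x t y
    field_simp
    ring
  have hlt : ∀ i x t y, ((d * C.s i + m) * (x / d) + t < (y + m * (x / d)) ↔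
      C.s i * x + t < y) := by
    intro i x t y
    rw [← sub_neg, key, sub_neg]
  refine ⟨{ s := fun i => d * C.s i + m
            t := C.t
            x := fun r b => C.x r b / d
            y := fun r b => C.y r b + m * (C.x r b / d)
            l := C.l
            slot := C.slot
            hlt := fun r => div_lt_div_of_pos_right (C.hlt r) hdR
            hdisj := fun r r' h => by
              rcases C.hdisj r r' h with h | h
              · exact Or.inl (div_lt_div_of_pos_right h hdR)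
              · exact Or.inr (div_lt_div_of_pos_right h hdR)
            hne := fun r b i h => by
              apply C.hne r b i
              have := key i (C.x r b) (C.t i) (C.y r b)
              linarith
            hcard := fun r b => by
              refine Eq.trans ?_ (C.hcard r b)
              apply Finset.sum_congr rfl
              intro i _
              simp only [hlt]
            hl0 := fun r => (hlt _ _ _ _).mpr (C.hl0 r)
            hl1 := fun r => by
              have := key (C.l r) (C.x r true) (C.t (C.l r)) (C.y r true)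
              have := C.hl1 r
              linarith
            hslot := C.hslot }, fun i => (z i + m).toNat, m + m + 1, hs, ?_, by omega⟩
  intro i
  have := hzm i
  have := hσ i
  show (z i + m).toNat ≤ _
  omega

/-- `N` lines, `E` changes, at most `P` per line -/
def Has (N E P : ℕ) : Prop :=
  ∃ (ι R : Type) (_ : Fintype ι) (_ : Fintype R) (κ : ℕ) (C : Cert ι R κ P),
    RatSlopes C.s ∧ Fintype.card ι = N ∧ Fintype.card R = E ∧ 1 ≤ κ ∧ κ ≤ N

/-- the same with natural slopes at most `Rz` -/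
def Has2 (N E P Rz : ℕ) : Prop :=
  ∃ (ι R : Type) (_ : Fintype ι) (_ : Fintype R) (κ : ℕ) (C : Cert ι R κ P) (σ : ι → ℕ),
    (∀ i, C.s i = σ i) ∧ (∀ i, σ i ≤ Rz) ∧ Fintype.card ι = N ∧ Fintype.card R = E ∧ 1 ≤ κ ∧ κ ≤ N

lemma Has.two {N E P : ℕ} (h : Has N E P) : ∃ Rz, 1 ≤ Rz ∧ Has2 N E P Rz := by
  obtain ⟨ι, R, _, _, κ, C, h1, h2, h3, h4, h5⟩ := h
  obtain ⟨C', σ, Rz, h6, h7, h8⟩ := natSlopes C h1
  exact ⟨Rz, h8, ι, R, inferInstance, inferInstance, κ, C', σ, h6, h7, h2, h3, h4, h5⟩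

lemma cert_le {ι R : Type} [Fintype ι] {κ P : ℕ} (C : Cert ι R κ P) [hR : Nonempty R] :
    κ ≤ Fintype.card ι := by
  obtain ⟨r⟩ := hR
  rw [← C.hcard r false]
  calc _ ≤ ∑ i : ι, 1 := Finset.sum_le_sum (fun i _ => by split_ifs <;> simp)
    _ = _ := by simp

lemma Has.comp {N₁ E₁ P₁ g E₂ P₂ Rz : ℕ} (h₁ : Has N₁ E₁ P₁) (h₂ : Has2 g E₂ P₂ Rz)
    (Nx V₁ : ℕ) (hNx : 1 ≤ Nx) (hV : 1 ≤ V₁) (hE₁ : 1 ≤ E₁) (hE₂ : 1 ≤ E₂) :
    Has (N₁ * (g * (Rz * Nx + V₁) * (2 * Nx + 3 * P₁))) (E₁ * (Nx * V₁ * E₂)) (Nx * P₂) := by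
  obtain ⟨A, R₁, _, _, κ₁, C₁, hr, hA, hR₁, hκ₁, hκ₁'⟩ := h₁
  obtain ⟨G, R₂, _, _, κ₂, C₂, σ, hσ, hRz, hG, hR₂, hκ₂, hκ₂'⟩ := h₂
  obtain ⟨k, rfl⟩ : ∃ k, κ₁ = k + 1 := ⟨κ₁ - 1, by omega⟩
  obtain ⟨S, hS, -⟩ := regularize C₁
  obtain ⟨C, hC⟩ := compose S C₂ σ Rz Nx V₁ hσ hRz (by omega) (by rw [hS]; exact hr)
  have hcard : Fintype.card (Idx A G Nx P₁ (Rz * Nx + V₁)) =
      N₁ * (g * (Rz * Nx + V₁) * (2 * Nx + 3 * P₁)) := by
    simp only [Fintype.card_prod, Fintype.card_sum, Fintype.card_fin, hA, hG]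
    ring
  have : Nonempty R₁ := Fintype.card_pos_iff.mp (by omega)
  have : Nonempty R₂ := Fintype.card_pos_iff.mp (by omega)
  have : Nonempty (Fin Nx) := ⟨⟨0, by omega⟩⟩
  have : Nonempty (Fin V₁) := ⟨⟨0, by omega⟩⟩
  have hle := cert_le C
  refine ⟨_, _, inferInstance, inferInstance, _, C, hC, hcard, ?_, ?_, ?_⟩
  · simp only [Fintype.card_prod, Fintype.card_fin, hR₁, hR₂]
  · rw [hG]
    have : 1 ≤ g * (Rz * Nx + V₁) * (2 * Nx + 2 * P₁) := by
      have : 1 ≤ g := by omega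
      apply Nat.one_le_iff_ne_zero.mpr
      positivity
    omega
  · rw [hcard] at hle
    exact hle

lemma Has.le_f {N E P m : ℕ} (h : Has N E P) (hm : N ≤ m) : E ≤ Halving.f (2 * m) := by
  obtain ⟨ι, R, _, _, κ, C, h1, h2, h3, h4, h5⟩ := h
  rw [← h3]
  exact Halving.f_ge_cert C h4 (by omega) m (by omega)

lemma has_base : Has 24 51 4 :=
  ⟨Fin 24, Fin 51, inferInstance, inferInstance, 11 + 1, baseCert, baseCert_rat, by simp,
    by simp, by omega, by omega⟩

end

end KLev
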