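import Pool.Agent.KLev.QGlue

namespace KLev

open Finset Filter Topology

section

variable {A R₁ G R₂ : Type} [Fintype A] [Fintype G] {k₁ P₁ k₂ P₂ : ℕ}
variable (S₁ : Ev A R₁ k₁ P₁) (S₂ : Cert G R₂ k₂ P₂) (σ : G → ℕ) (Rz Nx V : ℕ)
variable (p : Par S₁ S₂ Rz Nx V) (K : Finset G)

/-- bookkeeping of heights -/
structure HB (H : ℕ) : Prop where
  hH : 8 ≤ H
  h1 : S₁.Bd H
  h2 : S₂.Bd H 1
  hφ : p.φ = ((H:ℝ) ^ 180)⁻¹
  hl : p.lam = ((H:ℝ) ^ 6)⁻¹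
  hκ : p.κ = ((H:ℝ) ^ 9)⁻¹
  hδ : p.δ = ((H:ℝ) ^ 200)⁻¹
  hσ : ∀ α, σ α ≤ H
  hNx : Nx + 1 ≤ H ^ 2
  hP : 2 * P₁ ≤ H ^ 2
  hNP : Nx + 2 * P₁ + 4 ≤ H ^ 3
  hV : V ≤ H ^ 4

variable {S₁ S₂ σ Rz Nx V p} {H : ℕ} (hB : HB S₁ S₂ σ Rz Nx V p H)

include hB

lemma HB.two : 2 ≤ H := by have := hB.hH; omega

lemma HB.φ : B H 180 p.φ := by rw [hB.hφ]; exact B.inv_pow hB.two 180
lemma HB.lam : B H 6 p.lam := by rw [hB.hl]; exact B.inv_pow hB.two 6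
lemma HB.κ : B H 9 p.κ := by rw [hB.hκ]; exact B.inv_pow hB.two 9
lemma HB.δ : B H 200 p.δ := by rw [hB.hδ]; exact B.inv_pow hB.two 200
lemma HB.one (k : ℕ) : B H k (1:ℝ) := B.one (by have := hB.hH; omega)
lemma HB.nat (k n : ℕ) (h : n ≤ H ^ k) : B H k (n:ℝ) := B.nat n h (by have := hB.hH; omega)
lemma HB.half : B H 1 (1 / 2 : ℝ) := B.half hB.two

lemma HB.ls (α : G) : B H 8 (1 + p.lam * σ α) :=
  (hB.one 0).add (hB.lam.mul (hB.nat 1 _ (by simpa using hB.hσ α)) hB.two (le_refl 7)) hB.two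
    (le_refl 8)

lemma HB.psi (α : G) : B H 571 (psi S₁ S₂ σ Rz Nx V p α) := by
  unfold KLev.psi
  have h1 : B H 209 (p.δ * σ α / (1 + p.lam * σ α)) :=
    (hB.δ.mul (hB.nat 1 _ (by simpa using hB.hσ α)) hB.two (le_refl 201)).div (hB.ls α) hB.two
      (le_refl 209)
  exact (hB.φ.sub h1 hB.two (le_refl 390)).div ((hB.one 0).add hB.φ hB.two (le_refl 181)) hB.two
    (le_refl 571)

lemma HB.D (e : R₁) : B H 3 (S₁.D e) := (hB.h1.1 _).sub (hB.h1.1 _) hB.two (le_refl 3)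

lemma HB.Y (e : R₁) : B H 51 (S₁.Y e) :=
  ((hB.h1.1 _).mul (hB.h1.2.2 _) hB.two (le_refl 35)).add (hB.h1.2.1 _) hB.two (le_refl 51)

lemma HB.jy (j : ℕ) (hj : j < V) (r : R₂) (b : Bool) : B H 15 ((j:ℝ) + p.κ * S₂.y r b) :=
  (hB.nat 4 j (hj.le.trans hB.hV)).add (hB.κ.mul (hB.h2.2.2.2 r b) hB.two (le_refl 10)) hB.two
    (le_refl 15)

lemma HB.xi (i j : ℕ) (hi : i < Nx) (hj : j < V) (r : R₂) (b : Bool) :
    B H 35 (xiS S₁ S₂ Rz Nx V p i j r b) := by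
  unfold xiS
  have h1 : B H 13 ((i:ℝ) + p.κ * S₂.x r b) :=
    (hB.nat 2 i (by have := hB.hNx; omega)).add (hB.κ.mul (hB.h2.2.2.1 r b) hB.two (le_refl 10))
      hB.two (le_refl 13)
  exact h1.add (hB.lam.mul (hB.jy j hj r b) hB.two (le_refl 21)) hB.two (le_refl 35)

lemma HB.c0h (e : R₁) : B H 4 ((S₁.c0 e : ℝ) + 1 / 2) :=
  (hB.nat 2 _ ((S₁.c0_le e).trans hB.hP)).add hB.half hB.two (le_refl 4)

lemma HB.U (e : R₁) (i j : ℕ) (hi : i < Nx) (hj : j < V) (r : R₂) (b : Bool) :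
    B H 221 (US S₁ S₂ Rz Nx V p e i j r b) := by
  unfold US
  exact (hB.c0h e).add (((hB.one 0).add hB.φ hB.two (le_refl 181)).mul (hB.xi i j hi hj r b)
    hB.two (le_refl 216)) hB.two (le_refl 221)

lemma HB.UD (e : R₁) (i j : ℕ) (hi : i < Nx) (hj : j < V) (r : R₂) (b : Bool) :
    B H 224 (US S₁ S₂ Rz Nx V p e i j r b / S₁.D e) :=
  (hB.U e i j hi hj r b).div (hB.D e) hB.two (le_refl 224)

lemma HB.v (i j : ℕ) (hi : i < Nx) (hj : j < V) (r : R₂) (b : Bool) :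
    B H 431 (vS S₁ S₂ Rz Nx V p i j r b) := by
  unfold vS
  exact (hB.φ.neg.mul (hB.xi i j hi hj r b) hB.two (le_refl 215)).add
    (hB.δ.mul (hB.jy j hj r b) hB.two (le_refl 215)) hB.two (le_refl 431)

lemma HB.tau (α : G) : B H 1 (tau K α) := by
  unfold KLev.tau
  split_ifs
  · have := hB.half.neg
    rw [show (-1/2:ℝ) = -(1/2) by norm_num]; exact this
  · exact hB.half

lemma HB.om (i' : Fin Nx) (α : G) (β : Fin V) : B H 196 (-p.φ * ((i':ℕ) +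
    p.lam * (((σ α * (i':ℕ) + (β:ℕ) : ℕ) : ℝ) + KLev.tau K α))) := by
  have h1 : σ α * (i':ℕ) + (β:ℕ) ≤ H ^ 5 := by
    have h2 : (i':ℕ) ≤ H ^ 2 := by have := hB.hNx; have := i'.2; omega
    have h3 : (β:ℕ) ≤ H ^ 4 := β.2.le.trans hB.hV
    have h4 : σ α * (i':ℕ) ≤ H * H ^ 2 := Nat.mul_le_mul (hB.hσ α) h2
    have h5 : H * H ^ 2 = H ^ 3 := by ring
    have h6 : H ^ 3 ≤ H ^ 4 := Nat.pow_le_pow_right (by have := hB.two; omega) (by norm_num)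
    have h7 : 2 * H ^ 4 ≤ H ^ 5 := by
      rw [pow_succ H 4, mul_comm]; exact Nat.mul_le_mul_left _ hB.two
    omega
  have h8 : B H 7 (((σ α * (i':ℕ) + (β:ℕ) : ℕ) : ℝ) + KLev.tau K α) :=
    (hB.nat 5 _ h1).add (hB.tau K α) hB.two (le_refl 7)
  have h9 : B H 16 (((i':ℕ):ℝ) + p.lam * (((σ α * (i':ℕ) + (β:ℕ) : ℕ) : ℝ) + KLev.tau K α)) :=
    (hB.nat 2 _ (by have := hB.hNx; have := i'.2; omega)).add (hB.lam.mul h8 hB.two (le_refl 13))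
      hB.two (le_refl 16)
  exact hB.φ.neg.mul h9 hB.two (le_refl 196)

lemma HB.bt (α : G) (β : Fin V) : B H 223 (p.δ * ((β:ℕ) + p.κ * S₂.t α) / (1 + p.lam * σ α)) := by
  have h1 : B H 15 (((β:ℕ):ℝ) + p.κ * S₂.t α) :=
    (hB.nat 4 _ (β.2.le.trans hB.hV)).add (hB.κ.mul (hB.h2.2.1 α) hB.two (le_refl 10)) hB.two
      (le_refl 15)
  exact (hB.δ.mul h1 hB.two (le_refl 215)).div (hB.ls α) hB.two (le_refl 223)

lemma HB.wq (q : Fin (Nx + 2 * P₁)) : B H 3 (1 + ((q:ℕ):ℝ)) := by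
  have h1 : 1 + (q:ℕ) ≤ H ^ 3 := by have := hB.hNP; have := q.2; omega
  have := hB.nat 3 _ h1
  push_cast at this
  exact this

lemma HB.wn : B H 3 ((Nx:ℝ) + 2 * P₁ + 4) := by
  have := hB.nat 3 _ hB.hNP
  push_cast at this
  exact this

/-- the height over a sample point is affine in `ε`, with coefficients of bounded height -/
lemma HB.affine (e : R₁) (i j : ℕ) (hi : i < Nx) (hj : j < V) (r : R₂) (b : Bool)
    (q : Idx A G Nx P₁ V) : ∃ a c : ℝ, B H 747 a ∧ B H 2034 c ∧ ∀ ε,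
      slp S₁ S₂ σ Rz Nx V p q * xs S₁ S₂ Rz Nx V p ε e i j r b +
        icp S₁ S₂ σ Rz Nx V p K ε q - ys S₁ S₂ Rz Nx V p ε e i j r b = a + ε * c := by
  have h2 := hB.two
  have h1' : 1 ≤ H := by omega
  have hoff : ∀ c, B H 103 (S₁.s c * S₁.X e + S₁.t c - S₁.Y e) := fun c =>
    (((hB.h1.1 c).mul (hB.h1.2.2 e) h2 (le_refl 35)).add (hB.h1.2.1 c) h2 (le_refl 51)).sub
      (hB.Y e) h2 (le_refl 103)
  have hlin : ∀ c (ω : ℝ), B H 196 ω → B H 2034 ((S₁.s c - S₁.s (S₁.a e)) *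
      (US S₁ S₂ Rz Nx V p e i j r b / S₁.D e) + ω - vS S₁ S₂ Rz Nx V p i j r b) := by
    intro c ω hω
    have h3 : B H 227 ((S₁.s c - S₁.s (S₁.a e)) * (US S₁ S₂ Rz Nx V p e i j r b / S₁.D e)) :=
      ((hB.h1.1 c).sub (hB.h1.1 _) h2 (le_refl 3)).mul (hB.UD e i j hi hj r b) h2 (le_refl 227)
    exact ((h3.add hω h2 (le_refl 424)).sub (hB.v i j hi hj r b) h2 (le_refl 856)).mono h1'
      (by norm_num)
  obtain ⟨c, q⟩ := q
  rcases q with ⟨i', α, β⟩ | ⟨q, α, β⟩ | ⟨h, α, β⟩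
  · refine ⟨_, _, (hoff c).mono h1' (by norm_num), hlin c _ (hB.om K i' α β), ?_⟩
    intro ε
    simp only [slp, icp, xs, ys, diff_off]
  · refine ⟨_, _, (hoff c).mono h1' (by norm_num),
      hlin c _ ((hB.wq q).mono h1' (by norm_num)), ?_⟩
    intro ε
    simp only [slp, icp, xs, ys, diff_off]
  · rcases hev : S₁.evt c h with _ | e'
    · refine ⟨_, _, (hoff c).mono h1' (by norm_num),
        hlin c _ (hB.wn.mono h1' (by norm_num)), ?_⟩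
      intro ε
      simp only [slp, icp, xs, ys, hev, diff_off]
    · have h3 : B H 747 (S₁.s c * S₁.X e + S₁.t c - S₁.Y e -
          KLev.psi S₁ S₂ σ Rz Nx V p α * (S₁.D e' * (S₁.X e - S₁.X e'))) :=
        (hoff c).sub ((hB.psi α).mul ((hB.D e').mul ((hB.h1.2.2 e).sub (hB.h1.2.2 e') h2
          (le_refl 69)) h2 (le_refl 72)) h2 (le_refl 643)) h2 (le_refl 747)
      have h4 : B H 578 (S₁.s c - KLev.psi S₁ S₂ σ Rz Nx V p α * S₁.D e' - S₁.s (S₁.a e)) :=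
        ((hB.h1.1 c).sub ((hB.psi α).mul (hB.D e') h2 (le_refl 574)) h2 (le_refl 576)).sub
          (hB.h1.1 _) h2 (le_refl 578)
      have h5 : B H 1378 ((S₁.s c - KLev.psi S₁ S₂ σ Rz Nx V p α * S₁.D e' - S₁.s (S₁.a e)) *
          (US S₁ S₂ Rz Nx V p e i j r b / S₁.D e) +
          KLev.psi S₁ S₂ σ Rz Nx V p α * (↑(S₁.c0 e') + 1 / 2)) :=
        (h4.mul (hB.UD e i j hi hj r b) h2 (le_refl 802)).add
          ((hB.psi α).mul (hB.c0h e') h2 (le_refl 575)) h2 (le_refl 1378)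
      refine ⟨_, _, h3, (h5.add (hB.bt α β) h2 (le_refl 1602)).sub (hB.v i j hi hj r b) h2
        (le_refl 2034), ?_⟩
      intro ε
      simp only [slp, icp, xs, ys, hev, diff_med]

lemma HB.slp (q : Idx A G Nx P₁ V) : B H 576 (slp S₁ S₂ σ Rz Nx V p q) := by
  have h2 := hB.two
  have h1' : 1 ≤ H := by omega
  obtain ⟨c, q⟩ := q
  rcases q with ⟨i', α, β⟩ | ⟨q, α, β⟩ | ⟨h, α, β⟩
  · simp only [KLev.slp]; exact (hB.h1.1 c).mono h1' (by norm_num)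
  · simp only [KLev.slp]; exact (hB.h1.1 c).mono h1' (by norm_num)
  · simp only [KLev.slp]
    rcases S₁.evt c h with _ | e'
    · exact (hB.h1.1 c).mono h1' (by norm_num)
    · exact (hB.h1.1 c).sub ((hB.psi α).mul (hB.D e') h2 (le_refl 574)) h2 (le_refl 576)

lemma HB.icp {ε : ℝ} (hε : B H 2800 ε) (q : Idx A G Nx P₁ V) :
    B H 6453 (icp S₁ S₂ σ Rz Nx V p K ε q) := by
  have h2 := hB.two
  have h1' : 1 ≤ H := by omega
  obtain ⟨c, q⟩ := q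
  rcases q with ⟨i', α, β⟩ | ⟨q, α, β⟩ | ⟨h, α, β⟩
  · simp only [KLev.icp]
    exact ((hB.h1.2.1 c).add (hε.mul (hB.om K i' α β) h2 (le_refl 2996)) h2
      (le_refl 3012)).mono h1' (by norm_num)
  · simp only [KLev.icp]
    exact ((hB.h1.2.1 c).add (hε.mul (hB.wq q) h2 (le_refl 2803)) h2
      (le_refl 2819)).mono h1' (by norm_num)
  · simp only [KLev.icp]
    rcases S₁.evt c h with _ | e'
    · exact ((hB.h1.2.1 c).add (hε.mul hB.wn h2 (le_refl 2803)) h2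
        (le_refl 2819)).mono h1' (by norm_num)
    · have h3 : B H 37 (S₁.D e' * S₁.X e') := (hB.D e').mul (hB.h1.2.2 e') h2 (le_refl 37)
      have h4 : B H 2842 (S₁.D e' * S₁.X e' + ε * (S₁.c0 e' + 1 / 2)) :=
        h3.add (hε.mul (hB.c0h e') h2 (le_refl 2804)) h2 (le_refl 2842)
      have h5 : B H 3429 (S₁.t c + KLev.psi S₁ S₂ σ Rz Nx V p α *
          (S₁.D e' * S₁.X e' + ε * (S₁.c0 e' + 1 / 2))) :=
        (hB.h1.2.1 c).add ((hB.psi α).mul h4 h2 (le_refl 3413)) h2 (le_refl 3429)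
      have h6 : B H 3023 (ε * (p.δ * ((β:ℕ) + p.κ * S₂.t α) / (1 + p.lam * σ α))) :=
        hε.mul (hB.bt α β) h2 (le_refl 3023)
      exact h5.add h6 h2 (le_refl 6453)

lemma HB.xs {ε : ℝ} (hε : B H 2800 ε) (e : R₁) (i j : ℕ) (hi : i < Nx) (hj : j < V) (r : R₂)
    (b : Bool) : B H 3059 (xs S₁ S₂ Rz Nx V p ε e i j r b) := by
  unfold KLev.xs
  exact (hB.h1.2.2 e).add (hε.mul (hB.UD e i j hi hj r b) hB.two (le_refl 3024)) hB.two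
    (le_refl 3059)

lemma HB.ys {ε : ℝ} (hε : B H 2800 ε) (e : R₁) (i j : ℕ) (hi : i < Nx) (hj : j < V) (r : R₂)
    (b : Bool) : B H 3509 (ys S₁ S₂ Rz Nx V p ε e i j r b) := by
  unfold KLev.ys
  have h1 : B H 657 (S₁.s (S₁.a e) * (US S₁ S₂ Rz Nx V p e i j r b / S₁.D e) +
      vS S₁ S₂ Rz Nx V p i j r b) :=
    ((hB.h1.1 _).mul (hB.UD e i j hi hj r b) hB.two (le_refl 225)).add (hB.v i j hi hj r b) hB.two
      (le_refl 657)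
  exact (hB.Y e).add (hε.mul h1 hB.two (le_refl 3457)) hB.two (le_refl 3509)

omit hB in
/-- quantitative composition -/
theorem compose_bd [Finite R₁] [Finite R₂] (S₁ : Ev A R₁ k₁ P₁) (S₂ : Cert G R₂ k₂ P₂)
    (σ : G → ℕ) (Rz Nx V₁ : ℕ) (hσ : ∀ α, S₂.s α = σ α) (hR : ∀ α, σ α ≤ Rz)
    (hk : k₂ ≤ Fintype.card G) {H : ℕ} (hH : 8 ≤ H) (h₁ : S₁.Bd H) (h₂ : S₂.Bd H 1)
    (hRz : Rz ≤ H) (hNx : Nx + 1 ≤ H ^ 2) (hP : 2 * P₁ ≤ H ^ 2) (hNP : Nx + 2 * P₁ + 4 ≤ H ^ 3)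
    (hV : Rz * Nx + V₁ + 1 ≤ H ^ 4) :
    ∃ C : Cert (Idx A G Nx P₁ (Rz * Nx + V₁)) (R₁ × ((Fin Nx × Fin V₁) × R₂))
      (k₁ * (Fintype.card G * (Rz * Nx + V₁) * (2 * Nx + 3 * P₁)) +
        Fintype.card G * (Rz * Nx + V₁) * (2 * Nx + 2 * P₁)) (Nx * P₂),
      (∀ q, B H 576 (C.s q)) ∧ (∀ q, B H 6453 (C.t q)) ∧ (∀ z b, B H 3059 (C.x z b)) ∧
        (∀ z b, B H 3509 (C.y z b)) := by
  have hHR : (8:ℝ) ≤ H := by exact_mod_cast hH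
  have hH0 : (0:ℝ) < H := by linarith
  have hpw : H ^ 4 ≤ H ^ 5 := Nat.pow_le_pow_right (by omega) (by norm_num)
  have h2pw : 2 * H ^ 4 ≤ H ^ 5 := by
    rw [pow_succ H 4, mul_comm]; exact Nat.mul_le_mul_left _ (by omega)
  obtain ⟨p, hp1, hp2, hp3, hp4⟩ := par_bd S₁ S₂ Rz Nx (Rz * Nx + V₁) hH h₁ h₂ hRz hNx
    (by omega) hV
  obtain ⟨K, -, hK⟩ := Finset.exists_subset_card_eq (s := (Finset.univ : Finset G)) (n := k₂)
    (by rw [Finset.card_univ]; exact hk)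
  have hB : HB S₁ S₂ σ Rz Nx (Rz * Nx + V₁) p H :=
    { hH := hH, h1 := h₁, h2 := h₂, hφ := hp1, hl := hp2, hκ := hp3, hδ := hp4
      hσ := fun α => (hR α).trans hRz, hNx := hNx, hP := hP, hNP := hNP, hV := by omega }
  have h1' : 1 ≤ H := by omega
  set ε : ℝ := ((H:ℝ) ^ 2800)⁻¹ with hε
  have hε0 : 0 < ε := by positivity
  have hεB : B H 2800 ε := B.inv_pow hB.two 2800
  have hs : ∀ (z : R₁ × ((Fin Nx × Fin V₁) × R₂)) (b : Bool)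
      (q : Idx A G Nx P₁ (Rz * Nx + V₁)),
      (KLev.slp S₁ S₂ σ Rz Nx (Rz * Nx + V₁) p q *
        KLev.xs S₁ S₂ Rz Nx (Rz * Nx + V₁) p ε z.1 z.2.1.1 (Rz * Nx + z.2.1.2) z.2.2 b +
        KLev.icp S₁ S₂ σ Rz Nx (Rz * Nx + V₁) p K ε q -
        KLev.ys S₁ S₂ Rz Nx (Rz * Nx + V₁) p ε z.1 z.2.1.1 (Rz * Nx + z.2.1.2) z.2.2 b ≠ 0 ∧
      (KLev.slp S₁ S₂ σ Rz Nx (Rz * Nx + V₁) p q *
        KLev.xs S₁ S₂ Rz Nx (Rz * Nx + V₁) p ε z.1 z.2.1.1 (Rz * Nx + z.2.1.2) z.2.2 b +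
        KLev.icp S₁ S₂ σ Rz Nx (Rz * Nx + V₁) p K ε q -
        KLev.ys S₁ S₂ Rz Nx (Rz * Nx + V₁) p ε z.1 z.2.1.1 (Rz * Nx + z.2.1.2) z.2.2 b < 0 ↔
        bel S₁ S₂ σ Nx (Rz * Nx + V₁) K z.1 z.2.1.1 (Rz * Nx + z.2.1.2) z.2.2 b q)) := by
    intro z b q
    have hj : Rz * Nx + (z.2.1.2:ℕ) < Rz * Nx + V₁ := by have := z.2.1.2.2; omega
    have hsl := sign_line S₁ S₂ σ Rz Nx (Rz * Nx + V₁) p K hσ hR z.1 z.2.1.1
      (Rz * Nx + z.2.1.2) z.2.1.1.2 hj z.2.2 b q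
    obtain ⟨a, c, ha, hc, haff⟩ := hB.affine K z.1 z.2.1.1 (Rz * Nx + z.2.1.2) z.2.1.1.2 hj
      z.2.2 b q
    simp only [haff] at hsl ⊢
    apply transfer hsl hε0
    intro ha0
    have h3 := ha.gap h1' ha0
    have h4 := hc.abs_le
    refine lt_of_lt_of_le ?_ h3
    calc ε * |c| ≤ ε * (H:ℝ) ^ 2034 := mul_le_mul_of_nonneg_left h4 hε0.le
      _ = ((H:ℝ) ^ 766)⁻¹ := inv_pow_mul hH0 (by norm_num)
      _ < ((H:ℝ) ^ 747)⁻¹ := by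
          apply inv_strictAnti₀ (by positivity)
          exact pow_lt_pow_right₀ (by linarith) (by norm_num)
  have hsep : ∀ (z z' : R₁ × ((Fin Nx × Fin V₁) × R₂)),
      S₁.X z.1 < S₁.X z'.1 →
      KLev.xs S₁ S₂ Rz Nx (Rz * Nx + V₁) p ε z.1 z.2.1.1 (Rz * Nx + z.2.1.2) z.2.2 true <
      KLev.xs S₁ S₂ Rz Nx (Rz * Nx + V₁) p ε z'.1 z'.2.1.1 (Rz * Nx + z'.2.1.2) z'.2.2 false := by
    intro z z' hX
    have hj : Rz * Nx + (z.2.1.2:ℕ) < Rz * Nx + V₁ := by have := z.2.1.2.2; omega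
    have hj' : Rz * Nx + (z'.2.1.2:ℕ) < Rz * Nx + V₁ := by have := z'.2.1.2.2; omega
    have h3 := (hB.UD z.1 z.2.1.1 (Rz * Nx + z.2.1.2) z.2.1.1.2 hj z.2.2 true).abs_le
    have h4 := (hB.UD z'.1 z'.2.1.1 (Rz * Nx + z'.2.1.2) z'.2.1.1.2 hj' z'.2.2 false).abs_le
    have h5 := ((h₁.2.2 z'.1).sub (h₁.2.2 z.1) hB.two (le_refl 69)).gap h1' (sub_pos.mpr hX).ne'
    rw [abs_of_pos (sub_pos.mpr hX)] at h5
    have h6 := (abs_le.mp h3).2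
    have h7 := (abs_le.mp h4).1
    have h8 : ε * (US S₁ S₂ Rz Nx (Rz * Nx + V₁) p z.1 z.2.1.1 (Rz * Nx + z.2.1.2) z.2.2 true /
        S₁.D z.1 - US S₁ S₂ Rz Nx (Rz * Nx + V₁) p z'.1 z'.2.1.1 (Rz * Nx + z'.2.1.2) z'.2.2
        false / S₁.D z'.1) ≤ ε * (8 * (H:ℝ) ^ 224) :=
      mul_le_mul_of_nonneg_left (by
        have : (0:ℝ) ≤ (H:ℝ) ^ 224 := by positivity
        linarith) hε0.le
    have h9 : ε * (8 * (H:ℝ) ^ 224) < ((H:ℝ) ^ 69)⁻¹ := by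
      calc ε * (8 * (H:ℝ) ^ 224) ≤ ε * ((H:ℝ) * (H:ℝ) ^ 224) :=
            mul_le_mul_of_nonneg_left (mul_le_mul_of_nonneg_right hHR (by positivity)) hε0.le
        _ = ε * (H:ℝ) ^ 225 := by rw [pow_succ' (H:ℝ) 224]
        _ = ((H:ℝ) ^ 2575)⁻¹ := inv_pow_mul hH0 (by norm_num)
        _ < ((H:ℝ) ^ 69)⁻¹ := by
            apply inv_strictAnti₀ (by positivity)
            exact pow_lt_pow_right₀ (by linarith) (by norm_num)
    unfold KLev.xs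
    nlinarith
  obtain ⟨C, hC1, hC2, hC3, hC4⟩ := build_cert S₁ S₂ σ Rz Nx V₁ p K hK hR ε hε0 hs hsep
  refine ⟨C, ?_, ?_, ?_, ?_⟩
  · intro q; rw [hC1]; exact hB.slp q
  · intro q; rw [hC2]; exact hB.icp K hεB q
  · intro z b; rw [hC3]
    exact hB.xs hεB _ _ _ z.2.1.1.2 (by have := z.2.1.2.2; omega) _ _
  · intro z b; rw [hC4]
    exact hB.ys hεB _ _ _ z.2.1.1.2 (by have := z.2.1.2.2; omega) _ _

end

end KLev
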