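import Pool.Agent.KLev.QGrow

/-!
# The quantitative asymptotic statement
-/

namespace KLev

open Finset Filter Topology

section

/-- for all large `m`: at most `m` lines with at least `A m exp ((log (8 m)) ^ 0.51)` changes -/
theorem finalQ (A : ℝ) : ∀ᶠ m : ℕ in atTop, ∃ N E P, Has N E P ∧ N ≤ m ∧
    A * m * Real.exp (Real.log (8 * m) ^ (51 / 100 : ℝ)) ≤ E := by
  obtain ⟨W, hW, hcore⟩ := coreQ
  set L : ℝ := Real.log β₀ with hL
  have hL0 : 0 < L := Real.log_pos one_lt_β₀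
  set w : ℝ := Real.log W with hw
  have hWR : (2:ℝ) ≤ W := by exact_mod_cast hW
  have hw0 : 0 < w := Real.log_pos (by linarith)
  set c : ℝ := L / 2 ^ 16 / w ^ (16 / 31 : ℝ) with hc
  have hc0 : 0 < c := by positivity
  set A' : ℝ := max A 1 with hA'
  have hA'1 : 1 ≤ A' := le_max_right _ _
  have hlA : 0 ≤ Real.log A' := Real.log_nonneg hA'1
  have hlog : Tendsto (fun m : ℕ => Real.log (m:ℝ)) atTop atTop :=
    Real.tendsto_log_atTop.comp tendsto_natCast_atTop_atTop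
  have hpow : Tendsto (fun m : ℕ => Real.log (m:ℝ) ^ (19 / 3100 : ℝ)) atTop atTop :=
    (tendsto_rpow_atTop (by norm_num)).comp hlog
  filter_upwards [hlog.eventually (eventually_ge_atTop (3 + w * 2 ^ 31)),
    hpow.eventually (eventually_ge_atTop ((2 + Real.log A') / c)), eventually_ge_atTop 1]
    with m hm1 hm2 hm3
  have hmR : (1:ℝ) ≤ m := by exact_mod_cast hm3
  set X : ℝ := Real.log (m:ℝ) with hX
  have hX3 : 3 ≤ X := by
    have : 0 ≤ w * 2 ^ 31 := by positivity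
    linarith
  have hX0 : 0 < X := by linarith
  have hXw : (2:ℝ) ^ 31 ≤ X / w := by
    rw [le_div_iff₀ hw0]; linarith
  obtain ⟨j, hj1, hj2⟩ := exists_nat_pow_near (x := X / w) (y := (2:ℝ) ^ 31)
    (by linarith [show (1:ℝ) ≤ 2 ^ 31 by norm_num]) (by norm_num)
  have hj : 1 ≤ j := by
    by_contra h
    have h0 : j = 0 := by omega
    rw [h0, zero_add, pow_one] at hj2
    linarith
  have hthr : W ^ (2 ^ (31 * j)) ≤ m := by
    have h1 : ((W:ℝ) ^ (2 ^ (31 * j))) ≤ m := by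
      rw [← Real.log_le_log_iff (by positivity) (by positivity), Real.log_pow]
      rw [le_div_iff₀ hw0] at hj1
      have e : ((2 ^ (31 * j) : ℕ) : ℝ) = ((2:ℝ) ^ 31) ^ j := by
        push_cast; rw [pow_mul]
      rw [e]
      exact hj1
    exact_mod_cast h1
  obtain ⟨N, E, P, h1, h2, h3⟩ := hcore j m hj hthr
  refine ⟨N, E, P, h1, h2, le_trans ?_ h3⟩
  have hb0 : (0:ℝ) < β₀ := by linarith [one_lt_β₀]
  have e1 : β₀ ^ (2 ^ (16 * j)) = Real.exp (L * 2 ^ (16 * j)) := by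
    rw [← Real.exp_log (pow_pos hb0 (2 ^ (16 * j))), Real.log_pow]
    congr 1
    rw [hL]; push_cast; ring
  rw [e1]
  -- lower bound for the gain
  have hgain : c * X ^ (16 / 31 : ℝ) ≤ L * 2 ^ (16 * j) := by
    have h4 : (X / w) ^ (16 / 31 : ℝ) ≤ (2:ℝ) ^ (16 * (j + 1)) := by
      have h5 : (X / w) ^ (16 / 31 : ℝ) ≤ (((2:ℝ) ^ 31) ^ (j + 1)) ^ (16 / 31 : ℝ) :=
        Real.rpow_le_rpow (by positivity) hj2.le (by norm_num)
      refine h5.trans (le_of_eq ?_)
      rw [← pow_mul, ← Real.rpow_natCast, ← Real.rpow_mul (by norm_num), ← Real.rpow_natCast]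
      congr 1
      push_cast; ring
    have h6 : (X / w) ^ (16 / 31 : ℝ) = X ^ (16 / 31 : ℝ) / w ^ (16 / 31 : ℝ) :=
      Real.div_rpow hX0.le hw0.le _
    have h7 : (2:ℝ) ^ (16 * (j + 1)) = 2 ^ 16 * 2 ^ (16 * j) := by
      rw [← pow_add]; congr 1; ring
    have h8 : c * X ^ (16 / 31 : ℝ) = L / 2 ^ 16 * (X / w) ^ (16 / 31 : ℝ) := by
      rw [h6, hc]; ring
    rw [h8]
    calc L / 2 ^ 16 * (X / w) ^ (16 / 31 : ℝ) ≤ L / 2 ^ 16 * (2 ^ 16 * 2 ^ (16 * j)) := by
          rw [← h7]; exact mul_le_mul_of_nonneg_left h4 (by positivity)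
      _ = L * 2 ^ (16 * j) := by ring
  have h8m : Real.log (8 * m) ≤ 2 * X := by
    rw [Real.log_mul (by norm_num) (by positivity)]
    have : Real.log 8 ≤ 3 := by
      rw [show (8:ℝ) = 2 ^ 3 by norm_num, Real.log_pow]
      have := Real.log_two_lt_d9
      push_cast; linarith
    linarith
  have h8m0 : 0 ≤ Real.log (8 * m) := Real.log_nonneg (by linarith)
  have hexp : Real.log (8 * m) ^ (51 / 100 : ℝ) ≤ 2 * X ^ (51 / 100 : ℝ) := by
    calc Real.log (8 * m) ^ (51 / 100 : ℝ) ≤ (2 * X) ^ (51 / 100 : ℝ) :=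
          Real.rpow_le_rpow h8m0 h8m (by norm_num)
      _ = 2 ^ (51 / 100 : ℝ) * X ^ (51 / 100 : ℝ) := Real.mul_rpow (by norm_num) hX0.le
      _ ≤ 2 * X ^ (51 / 100 : ℝ) := by
          apply mul_le_mul_of_nonneg_right _ (by positivity)
          calc (2:ℝ) ^ (51 / 100 : ℝ) ≤ 2 ^ (1 : ℝ) :=
                Real.rpow_le_rpow_of_exponent_le (by norm_num) (by norm_num)
            _ = 2 := Real.rpow_one 2
  have hX1 : 1 ≤ X ^ (51 / 100 : ℝ) := Real.one_le_rpow (by linarith) (by norm_num)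
  have hmain : Real.log A' + Real.log (8 * m) ^ (51 / 100 : ℝ) ≤ L * 2 ^ (16 * j) := by
    refine le_trans ?_ hgain
    have h9 : X ^ (16 / 31 : ℝ) = X ^ (19 / 3100 : ℝ) * X ^ (51 / 100 : ℝ) := by
      rw [← Real.rpow_add hX0]; norm_num
    rw [div_le_iff₀ hc0] at hm2
    have h10 : (2 + Real.log A') * X ^ (51 / 100 : ℝ) ≤ c * X ^ (16 / 31 : ℝ) := by
      rw [h9]
      calc (2 + Real.log A') * X ^ (51 / 100 : ℝ) ≤
            (X ^ (19 / 3100 : ℝ) * c) * X ^ (51 / 100 : ℝ) :=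
            mul_le_mul_of_nonneg_right hm2 (by positivity)
        _ = c * (X ^ (19 / 3100 : ℝ) * X ^ (51 / 100 : ℝ)) := by ring
    have h11 : Real.log A' * 1 ≤ Real.log A' * X ^ (51 / 100 : ℝ) :=
      mul_le_mul_of_nonneg_left hX1 hlA
    linarith
  have hA'0 : 0 < A' := by linarith
  calc A * m * Real.exp (Real.log (8 * m) ^ (51 / 100 : ℝ))
      ≤ A' * m * Real.exp (Real.log (8 * m) ^ (51 / 100 : ℝ)) := by
        apply mul_le_mul_of_nonneg_right _ (Real.exp_pos _).le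
        exact mul_le_mul_of_nonneg_right (le_max_left _ _) (by linarith)
    _ = Real.exp (Real.log A' + Real.log (8 * m) ^ (51 / 100 : ℝ)) * m := by
        rw [Real.exp_add, Real.exp_log hA'0]; ring
    _ ≤ Real.exp (L * 2 ^ (16 * j)) * m := by
        apply mul_le_mul_of_nonneg_right _ (by linarith)
        exact Real.exp_le_exp.mpr hmain

end

end KLev
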