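import Pool.Agent.KLev.QPar
import Pool.Agent.KLev.Glue

namespace KLev

open Finset Filter Topology

section

variable {A R₁ G R₂ : Type} [Fintype A] [Fintype G] {k₁ P₁ k₂ P₂ : ℕ}
variable (S₁ : Ev A R₁ k₁ P₁) (S₂ : Cert G R₂ k₂ P₂) (σ : G → ℕ) (Rz Nx V₁ : ℕ)

theorem build_cert (p : Par S₁ S₂ Rz Nx (Rz * Nx + V₁)) (K : Finset G) (hK : K.card = k₂)
    (hR : ∀ α, σ α ≤ Rz) (ε : ℝ) (hε' : 0 < ε)
    (hs : ∀ (z : R₁ × ((Fin Nx × Fin V₁) × R₂)) (b : Bool)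
      (q : Idx A G Nx P₁ (Rz * Nx + V₁)),
      (slp S₁ S₂ σ Rz Nx (Rz * Nx + V₁) p q *
        xs S₁ S₂ Rz Nx (Rz * Nx + V₁) p ε z.1 z.2.1.1 (Rz * Nx + z.2.1.2) z.2.2 b +
        icp S₁ S₂ σ Rz Nx (Rz * Nx + V₁) p K ε q -
        ys S₁ S₂ Rz Nx (Rz * Nx + V₁) p ε z.1 z.2.1.1 (Rz * Nx + z.2.1.2) z.2.2 b ≠ 0 ∧
      (slp S₁ S₂ σ Rz Nx (Rz * Nx + V₁) p q *
        xs S₁ S₂ Rz Nx (Rz * Nx + V₁) p ε z.1 z.2.1.1 (Rz * Nx + z.2.1.2) z.2.2 b +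
        icp S₁ S₂ σ Rz Nx (Rz * Nx + V₁) p K ε q -
        ys S₁ S₂ Rz Nx (Rz * Nx + V₁) p ε z.1 z.2.1.1 (Rz * Nx + z.2.1.2) z.2.2 b < 0 ↔
        bel S₁ S₂ σ Nx (Rz * Nx + V₁) K z.1 z.2.1.1 (Rz * Nx + z.2.1.2) z.2.2 b q)))
    (hsep : ∀ (z z' : R₁ × ((Fin Nx × Fin V₁) × R₂)),
      S₁.X z.1 < S₁.X z'.1 →
      xs S₁ S₂ Rz Nx (Rz * Nx + V₁) p ε z.1 z.2.1.1 (Rz * Nx + z.2.1.2) z.2.2 true <
      xs S₁ S₂ Rz Nx (Rz * Nx + V₁) p ε z'.1 z'.2.1.1 (Rz * Nx + z'.2.1.2) z'.2.2 false) :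
    ∃ C : Cert (Idx A G Nx P₁ (Rz * Nx + V₁)) (R₁ × ((Fin Nx × Fin V₁) × R₂))
      (k₁ * (Fintype.card G * (Rz * Nx + V₁) * (2 * Nx + 3 * P₁)) +
        Fintype.card G * (Rz * Nx + V₁) * (2 * Nx + 2 * P₁)) (Nx * P₂),
      (∀ q, C.s q = slp S₁ S₂ σ Rz Nx (Rz * Nx + V₁) p q) ∧
      (∀ q, C.t q = icp S₁ S₂ σ Rz Nx (Rz * Nx + V₁) p K ε q) ∧
      (∀ z b, C.x z b =
        xs S₁ S₂ Rz Nx (Rz * Nx + V₁) p ε z.1 z.2.1.1 (Rz * Nx + z.2.1.2) z.2.2 b) ∧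
      (∀ z b, C.y z b =
        ys S₁ S₂ Rz Nx (Rz * Nx + V₁) p ε z.1 z.2.1.1 (Rz * Nx + z.2.1.2) z.2.2 b) := by
  classical
  refine ⟨{
    s := slp S₁ S₂ σ Rz Nx (Rz * Nx + V₁) p
    t := icp S₁ S₂ σ Rz Nx (Rz * Nx + V₁) p K ε
    x := fun z b => xs S₁ S₂ Rz Nx (Rz * Nx + V₁) p ε z.1 z.2.1.1 (Rz * Nx + z.2.1.2) z.2.2 b
    y := fun z b => ys S₁ S₂ Rz Nx (Rz * Nx + V₁) p ε z.1 z.2.1.1 (Rz * Nx + z.2.1.2) z.2.2 b
    l := fun z => (S₁.a z.1, Sum.inr (Sum.inr (S₁.slot z.1,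
      (S₂.l z.2.2, beta0 σ Rz Nx V₁ hR (S₂.l z.2.2) z.2.1.1 z.2.1.2))))
    slot := fun z => finProdFinEquiv (z.2.1.1, S₂.slot z.2.2)
    hlt := ?_, hdisj := ?_, hne := ?_, hcard := ?_, hl0 := ?_, hl1 := ?_, hslot := ?_ }, fun q => rfl, fun q => rfl, fun z b => rfl,
    fun z b => rfl⟩
  · intro z
    apply US_lt_of _ _ _ _ _ _ _ _ _ _ _ _ _ _ _ _ ε hε'
    apply xi_lt_of
    · have := z.2.1.2.2; omega
    · have := z.2.1.2.2; omega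
    · exact Or.inr (Or.inr ⟨rfl, rfl, p.hl2 z.2.2⟩)
  · intro z z' hzz
    by_cases he : z.1 = z'.1
    · -- same event
      have key : (xiS S₁ S₂ Rz Nx (Rz * Nx + V₁) p z.2.1.1 (Rz * Nx + z.2.1.2) z.2.2 true <
          xiS S₁ S₂ Rz Nx (Rz * Nx + V₁) p z'.2.1.1 (Rz * Nx + z'.2.1.2) z'.2.2 false) ∨
          (xiS S₁ S₂ Rz Nx (Rz * Nx + V₁) p z'.2.1.1 (Rz * Nx + z'.2.1.2) z'.2.2 true <
          xiS S₁ S₂ Rz Nx (Rz * Nx + V₁) p z.2.1.1 (Rz * Nx + z.2.1.2) z.2.2 false) := by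
        have hb : (Rz * Nx + (z.2.1.2:ℕ)) < Rz * Nx + V₁ := by have := z.2.1.2.2; omega
        have hb' : (Rz * Nx + (z'.2.1.2:ℕ)) < Rz * Nx + V₁ := by have := z'.2.1.2.2; omega
        rcases lt_trichotomy (z.2.1.1:ℕ) (z'.2.1.1:ℕ) with h | h | h
        · exact Or.inl (xi_lt_of _ _ _ _ _ _ _ _ _ _ hb hb' _ _ _ _ (Or.inl h))
        · rcases lt_trichotomy (z.2.1.2:ℕ) (z'.2.1.2:ℕ) with h2 | h2 | h2
          · exact Or.inl (xi_lt_of _ _ _ _ _ _ _ _ _ _ hb hb' _ _ _ _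
              (Or.inr (Or.inl ⟨h, by omega⟩)))
          · have hr : z.2.2 ≠ z'.2.2 := by
              intro h3
              apply hzz
              exact Prod.ext he (Prod.ext (Prod.ext (Fin.ext h) (Fin.ext h2)) h3)
            rcases p.hl3 _ _ hr with h3 | h3
            · exact Or.inl (xi_lt_of _ _ _ _ _ _ _ _ _ _ hb hb' _ _ _ _
                (Or.inr (Or.inr ⟨h, by omega, h3⟩)))
            · exact Or.inr (xi_lt_of _ _ _ _ _ _ _ _ _ _ hb' hb _ _ _ _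
                (Or.inr (Or.inr ⟨h.symm, by omega, h3⟩)))
          · exact Or.inr (xi_lt_of _ _ _ _ _ _ _ _ _ _ hb' hb _ _ _ _
              (Or.inr (Or.inl ⟨h.symm, by omega⟩)))
        · exact Or.inr (xi_lt_of _ _ _ _ _ _ _ _ _ _ hb' hb _ _ _ _ (Or.inl h))
      rcases key with h | h
      · left
        rw [he]
        exact US_lt_of _ _ _ _ _ _ _ _ _ _ _ _ _ _ _ h ε hε'
      · right
        rw [he]
        exact US_lt_of _ _ _ _ _ _ _ _ _ _ _ _ _ _ _ h ε hε'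
    · have hX : S₁.X z.1 ≠ S₁.X z'.1 := fun h => he (S₁.hX h)
      rcases lt_or_gt_of_ne hX with h | h
      · exact Or.inl (hsep z z' h)
      · exact Or.inr (hsep z' z h)
  · intro z b q h
    exact (hs z b q).1 (sub_eq_zero.mpr h)
  · intro z b
    have hb : (Rz * Nx + (z.2.1.2:ℕ)) < Rz * Nx + V₁ := by have := z.2.1.2.2; omega
    have hc := count_bel S₁ S₂ σ Rz Nx (Rz * Nx + V₁) K hK hR z.1 z.2.1.1 (Rz * Nx + z.2.1.2)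
      z.2.1.1.2 (by omega) hb z.2.2 b
    rw [← hc]
    apply Finset.sum_congr rfl
    intro q _
    have h2 := (hs z b q).2
    rw [sub_neg] at h2
    by_cases h3 : bel S₁ S₂ σ Nx (Rz * Nx + V₁) K z.1 z.2.1.1 (Rz * Nx + z.2.1.2) z.2.2 b q
    · rw [if_pos h3, if_pos (h2.mpr h3)]
    · rw [if_neg h3, if_neg (fun h4 => h3 (h2.mp h4))]
  · intro z
    have h2 := (hs z false (S₁.a z.1, Sum.inr (Sum.inr (S₁.slot z.1,
      (S₂.l z.2.2, beta0 σ Rz Nx V₁ hR (S₂.l z.2.2) z.2.1.1 z.2.1.2))))).2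
    rw [sub_neg] at h2
    apply h2.mpr
    simp only [bel, S₁.evt_self]
    refine Or.inl ⟨trivial, Or.inr ⟨beta0_spec σ Rz Nx V₁ hR _ _ _, S₂.hl0 _⟩⟩
  · intro z
    have h1 := (hs z true (S₁.a z.1, Sum.inr (Sum.inr (S₁.slot z.1,
      (S₂.l z.2.2, beta0 σ Rz Nx V₁ hR (S₂.l z.2.2) z.2.1.1 z.2.1.2)))))
    have h2 := h1.2
    rw [sub_neg] at h2
    by_contra h3
    push Not at h3
    have h4 := lt_of_le_of_ne h3 (fun h => h1.1 (sub_eq_zero.mpr h))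
    have h5 := h2.mp h4
    simp only [bel, S₁.evt_self] at h5
    have h6 := beta0_spec σ Rz Nx V₁ hR (S₂.l z.2.2) z.2.1.1 z.2.1.2
    rcases h5 with ⟨-, h5 | ⟨-, h5⟩⟩ | ⟨h5, -⟩ | ⟨h5, -⟩
    · omega
    · exact absurd h5 (not_lt.mpr (S₂.hl1 _).le)
    · exact absurd rfl h5
    · exact absurd rfl h5
  · intro z z' hl hsl
    simp only [Prod.mk.injEq, Sum.inr.injEq] at hl
    obtain ⟨h1, h2, h3, h4⟩ := hl
    have he := S₁.hslot _ _ h1 h2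
    have h5 := finProdFinEquiv.injective hsl
    simp only [Prod.mk.injEq] at h5
    have hr := S₂.hslot _ _ h3 h5.2
    have hj : z.2.1.2 = z'.2.1.2 := by
      have e1 := beta0_spec σ Rz Nx V₁ hR (S₂.l z.2.2) z.2.1.1 z.2.1.2
      have e2 := beta0_spec σ Rz Nx V₁ hR (S₂.l z'.2.2) z'.2.1.1 z'.2.1.2
      rw [h4, h3, h5.1] at e1
      apply Fin.ext
      omega
    exact Prod.ext he (Prod.ext (Prod.ext h5.1 hj) hr)

/-- from infinitely small to explicit -/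
lemma transfer {A B ε₀ : ℝ} {Q : Prop}
    (h : ∀ᶠ ε in 𝓝[>] (0:ℝ), A + ε * B ≠ 0 ∧ (A + ε * B < 0 ↔ Q)) (h0 : 0 < ε₀)
    (hAB : A ≠ 0 → ε₀ * |B| < |A|) : A + ε₀ * B ≠ 0 ∧ (A + ε₀ * B < 0 ↔ Q) := by
  by_cases hA : A = 0
  · subst hA
    obtain ⟨ε, ⟨h1, h2⟩, hε⟩ := (h.and self_mem_nhdsWithin).exists
    have hε' : (0:ℝ) < ε := hε
    rw [zero_add] at h1 h2 ⊢
    have hB : B ≠ 0 := fun hB => h1 (by rw [hB, mul_zero])
    refine ⟨mul_ne_zero h0.ne' hB, ?_⟩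
    rw [← h2]
    constructor
    · intro h3
      have : B < 0 := by
        by_contra h4; push Not at h4
        have := mul_nonneg h0.le h4
        linarith
      exact mul_neg_of_pos_of_neg hε' this
    · intro h3
      have : B < 0 := by
        by_contra h4; push Not at h4
        have := mul_nonneg hε'.le h4
        linarith
      exact mul_neg_of_pos_of_neg h0 this
  · obtain ⟨ε, ⟨h1, h2⟩, h3, h4⟩ := (h.and (ev_sign B hA)).exists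
    have h5 := near_sign (A := A) (e := ε₀ * B) (by
      rw [abs_mul, abs_of_pos h0]; exact hAB hA)
    refine ⟨h5.1, ?_⟩
    rw [h5.2, ← h4, h2]

end

end KLev
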