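import Pool.Agent.KLev.QNat
import Pool.Agent.KLev.Growth

namespace KLev

open Finset Filter Topology

section

/-- certificate with natural slopes and all sizes at most `H` -/
def HasQ (H N P : ℕ) (β : ℝ) : Prop :=
  300000 ≤ H ∧ 1 ≤ N ∧ N ≤ H ∧ 1 ≤ P ∧ P ≤ H ∧ ∃ E Rz : ℕ, 1 ≤ E ∧ β * N * 5253 ≤ 2500 * E ∧
    1 ≤ Rz ∧ Rz ≤ H ∧
    ∃ (ι R : Type) (_ : Fintype ι) (_ : Fintype R) (κ : ℕ) (C : Cert ι R κ P) (σ : ι → ℕ),
      (∀ i, C.s i = σ i) ∧ (∀ i, σ i ≤ Rz) ∧ C.Bd H 1 ∧ Fintype.card ι = N ∧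
        Fintype.card R = E ∧ 1 ≤ κ ∧ κ ≤ N

lemma HasQ.step {H N P : ℕ} {β : ℝ} (h : HasQ H N P β) (hβ : 0 ≤ β) :
    ∃ N', HasQ (H ^ 65536) N' (50 * P * P) (β * β) := by
  obtain ⟨hH, hN, hNH, hP, hPH, E, Rz, hE, hr, hRz, hRzH, ι, R, _, _, κ, C, σ, hσ, hσR, hBd,
    hι, hR, hκ, hκN⟩ := h
  obtain ⟨k, rfl⟩ : ∃ k, κ = k + 1 := ⟨κ - 1, by omega⟩
  obtain ⟨S, hS, -, hSt, hSX⟩ := regularize_bd C (by omega) hBd (by rw [hι]; exact hNH)
  have hSBd : S.Bd H := ⟨by rw [hS]; exact hBd.1, hSt, hSX⟩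
  have hH2 : 300000 * H ≤ H ^ 2 := by rw [sq]; exact Nat.mul_le_mul_right _ hH
  have hH3 : 300000 * H ^ 2 ≤ H ^ 3 := by
    rw [pow_succ H 2, mul_comm (H ^ 2)]; exact Nat.mul_le_mul_right _ hH
  have hH4 : 300000 * H ^ 3 ≤ H ^ 4 := by
    rw [pow_succ H 3, mul_comm (H ^ 3)]; exact Nat.mul_le_mul_right _ hH
  have hRP : Rz * P ≤ H ^ 2 := by rw [sq]; exact Nat.mul_le_mul hRzH hPH
  obtain ⟨C₁, hc1, hc2, hc3, hc4⟩ := compose_bd S C σ Rz (50 * P) (2500 * Rz * P) hσ hσR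
    (by omega) (by omega) hSBd hBd hRzH (by omega) (by omega) (by omega)
    (by
      have : Rz * (50 * P) + 2500 * Rz * P = 2550 * (Rz * P) := by ring
      omega)
  obtain ⟨C₂, τ, hτ, hτ2, hBd2⟩ := natSlopes_bd C₁ (by omega) hc1 hc2 hc3 hc4
  have hV : Rz * (50 * P) + 2500 * Rz * P = 2550 * (Rz * P) := by ring
  have hcard : Fintype.card (Idx ι ι (50 * P) P (Rz * (50 * P) + 2500 * Rz * P)) =
      N * (N * (Rz * (50 * P) + 2500 * Rz * P) * (2 * (50 * P) + 3 * P)) := by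
    simp only [Fintype.card_prod, Fintype.card_sum, Fintype.card_fin, hι]
    ring
  have : Nonempty R := Fintype.card_pos_iff.mp (by omega)
  have : Nonempty (Fin (50 * P)) := ⟨⟨0, by omega⟩⟩
  have hpos : 0 < 2500 * Rz * P := Nat.mul_pos (Nat.mul_pos (by norm_num) hRz) hP
  have : Nonempty (Fin (2500 * Rz * P)) := ⟨⟨0, hpos⟩⟩
  have hle := cert_le C₂
  have hH1 : 1 ≤ H := by omega
  have hpw : H ≤ H ^ 65536 := by
    calc H = H ^ 1 := (pow_one _).symm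
      _ ≤ H ^ 65536 := Nat.pow_le_pow_right hH1 (by norm_num)
  refine ⟨N * (N * (Rz * (50 * P) + 2500 * Rz * P) * (2 * (50 * P) + 3 * P)), by omega, ?_, ?_,
    ?_, ?_, E * (50 * P * (2500 * Rz * P) * E), H ^ 65536, ?_, ?_, Nat.one_le_pow _ _ hH1, le_rfl,
    _, _, inferInstance, inferInstance, _, C₂, τ, hτ, hτ2, hBd2, hcard, ?_, ?_, ?_⟩
  · rw [hV]
    exact Nat.mul_pos hN (Nat.mul_pos (Nat.mul_pos hN (Nat.mul_pos (by norm_num)
      (Nat.mul_pos hRz hP))) (by omega))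
  · calc N * (N * (Rz * (50 * P) + 2500 * Rz * P) * (2 * (50 * P) + 3 * P))
        = 262650 * (N * N * (Rz * P) * P) := by ring
      _ ≤ H * (H * H * H ^ 2 * H) := by
          apply Nat.mul_le_mul (by omega)
          exact Nat.mul_le_mul (Nat.mul_le_mul (Nat.mul_le_mul hNH hNH) hRP) hPH
      _ = H ^ 6 := by ring
      _ ≤ H ^ 65536 := Nat.pow_le_pow_right hH1 (by norm_num)
  · exact Nat.mul_pos (by omega) hP
  · calc 50 * P * P ≤ H * H * H := Nat.mul_le_mul (Nat.mul_le_mul (by omega) hPH) hPH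
      _ = H ^ 3 := by ring
      _ ≤ H ^ 65536 := Nat.pow_le_pow_right hH1 (by norm_num)
  · exact Nat.mul_pos hE (Nat.mul_pos (Nat.mul_pos (by omega) hpos) hE)
  · have h1 : (β * N * 5253) * (β * N * 5253) ≤ (2500 * E) * (2500 * E) :=
      mul_le_mul hr hr (by positivity) (by positivity)
    have h2 : (0:ℝ) ≤ Rz * P ^ 2 * 50 := by positivity
    have h3 := mul_le_mul_of_nonneg_right h1 h2
    push_cast
    nlinarith [h3]
  · simp only [Fintype.card_prod, Fintype.card_fin, hR]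
  · rw [hι]
    have h5 : 0 < N * (Rz * (50 * P) + 2500 * Rz * P) * (2 * (50 * P) + 2 * P) := by
      rw [hV]
      exact Nat.mul_pos (Nat.mul_pos hN (Nat.mul_pos (by norm_num) (Nat.mul_pos hRz hP)))
        (by omega)
    omega
  · rw [hcard] at hle
    exact hle

lemma HasQ.base_aux (H : ℕ) (hH : 10000000 ≤ H) : HasQ (H ^ 65536) 24 4 β₀ := by
  have hH1 : 1 ≤ H := by omega
  have hb : ∀ i : Fin 24, -10000000 ≤ bs i ∧ bs i ≤ 10000000 := by decide +kernel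
  have ht : ∀ i : Fin 24, -10000000 ≤ bt i ∧ bt i ≤ 10000000 := by decide +kernel
  have hx : ∀ r b, -10000000 ≤ bx r b ∧ bx r b ≤ 10000000 := by decide +kernel
  have hy : ∀ r b, -10000000 ≤ bY r b ∧ bY r b ≤ 10000000 := by decide +kernel
  have mk : ∀ (a : ℤ) (b : ℕ), -10000000 ≤ a ∧ a ≤ 10000000 → 0 < b → b ≤ 10000000 →
      B H 1 ((a:ℝ) / b) := by
    intro a b h1 h2 h3
    refine ⟨a, b, h2, ?_, ?_, rfl⟩
    · rw [pow_one]; omega
    · rw [pow_one, abs_le]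
      have h4 : (10000000 : ℤ) ≤ (H : ℤ) := by exact_mod_cast hH
      constructor <;> linarith [h1.1, h1.2]
  obtain ⟨C₂, τ, hτ, hτ2, hBd2⟩ := natSlopes_bd baseCert (H := H) (by omega)
    (fun i => (by
      have := mk (bs i) 1 (hb i) (by norm_num) (by norm_num)
      simp only [Nat.cast_one, div_one] at this
      exact this.mono hH1 (by norm_num)))
    (fun i => (by
      have := mk (bt i) 1 (ht i) (by norm_num) (by norm_num)
      simp only [Nat.cast_one, div_one] at this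
      exact this.mono hH1 (by norm_num)))
    (fun r b => (by
      have := mk (bx r b) 1024 (hx r b) (by norm_num) (by norm_num)
      push_cast at this
      exact this.mono hH1 (by norm_num)))
    (fun r b => (by
      have := mk (bY r b) 2048 (hy r b) (by norm_num) (by norm_num)
      push_cast at this
      exact this.mono hH1 (by norm_num)))
  have hbig : H ≤ H ^ 65536 := Nat.le_self_pow (by norm_num) _
  generalize H ^ 65536 = T at *
  refine ⟨by omega, by norm_num, by omega, by norm_num, by omega, 51,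
    T, by norm_num, ?_, by omega, le_rfl, _, _,
    inferInstance, inferInstance, _, C₂, τ, hτ, hτ2, hBd2, by simp, by simp, by norm_num,
    by norm_num⟩
  unfold β₀; norm_num

lemma HasQ.base : ∃ H₀, HasQ H₀ 24 4 β₀ := by
  obtain ⟨H, hH⟩ : ∃ H : ℕ, 10000000 ≤ H := ⟨10000000, le_rfl⟩
  exact ⟨H ^ 65536, HasQ.base_aux H hH⟩

lemma HasQ.pow : ∃ H₀ : ℕ, 1 ≤ H₀ ∧ ∀ j : ℕ, ∃ N P,
    HasQ (H₀ ^ (65536 ^ j)) N P (β₀ ^ (2 ^ j)) ∧ 50 * P = 200 ^ (2 ^ j) := by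
  obtain ⟨H₀, h0⟩ := HasQ.base
  refine ⟨H₀, by have := h0.1; omega, ?_⟩
  intro j
  induction j with
  | zero => exact ⟨24, 4, by simpa using h0, by norm_num⟩
  | succ j ih =>
    obtain ⟨N, P, h, hP⟩ := ih
    have hb : (0:ℝ) ≤ β₀ ^ (2 ^ j) := pow_nonneg (by linarith [one_lt_β₀]) _
    obtain ⟨N', h'⟩ := h.step hb
    refine ⟨N', 50 * P * P, ?_, ?_⟩
    · have e : β₀ ^ 2 ^ (j + 1) = β₀ ^ 2 ^ j * β₀ ^ 2 ^ j := by
        rw [pow_succ 2 j, pow_mul, sq]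
      have e2 : H₀ ^ 65536 ^ (j + 1) = (H₀ ^ 65536 ^ j) ^ 65536 := by
        rw [pow_succ 65536 j, pow_mul]
      rw [e, e2]
      exact h'
    · rw [pow_succ, pow_mul, sq, ← hP]
      ring

/-- quantitative core estimate -/
lemma coreQ : ∃ W : ℕ, 2 ≤ W ∧ ∀ j m : ℕ, 1 ≤ j → W ^ (2 ^ (31 * j)) ≤ m →
    ∃ N' E' P', Has N' E' P' ∧ N' ≤ m ∧ β₀ ^ (2 ^ (16 * j)) * m ≤ E' := by
  obtain ⟨H₀, hH₀, hpow⟩ := HasQ.pow
  refine ⟨H₀ ^ 3 * 200, ?_, ?_⟩
  · have : 1 ≤ H₀ ^ 3 := Nat.one_le_pow _ _ hH₀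
    omega
  intro j m hj hm
  obtain ⟨g, P₂, hQ, hP⟩ := hpow j
  obtain ⟨hH, hg, hgH, hP₂, hP₂H, E, Rz, hE, hr, hRz, hRzH, ι, R, _, _, κ, C, σ, hσ, hσR, hBd,
    hι, hR, hκ, hκN⟩ := hQ
  set H : ℕ := H₀ ^ (65536 ^ j) with hHdef
  have h : HasR g P₂ (β₀ ^ (2 ^ j)) := ⟨hg, hP₂, E, hE, ⟨ι, R, inferInstance, inferInstance, κ, C,
    fun i => ⟨(σ i : ℚ), by rw [hσ i]; push_cast; rfl⟩, hι, hR, hκ, hκN⟩, hr⟩
  have hS : HasS g P₂ Rz (β₀ ^ (2 ^ j)) := ⟨hg, hP₂, hRz, E, hE, ⟨ι, R, inferInstance,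
    inferInstance, κ, C, σ, hσ, hσR, hι, hR, hκ, hκN⟩, hr⟩
  have hb : (0:ℝ) ≤ β₀ ^ (2 ^ j) := pow_nonneg (by linarith [one_lt_β₀]) _
  have hM : g * Rz * 262650 ≤ H ^ 3 := by
    calc g * Rz * 262650 ≤ H * H * H := Nat.mul_le_mul (Nat.mul_le_mul hgH hRzH) (by omega)
      _ = H ^ 3 := by ring
  obtain ⟨i, hi⟩ : ∃ i, 32768 ^ j = i + 2 := by
    refine ⟨32768 ^ j - 2, ?_⟩
    have : 32768 ^ 1 ≤ 32768 ^ j := Nat.pow_le_pow_right (by norm_num) hj
    omega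
  obtain ⟨N, P, h3, hP3, hN⟩ := hasR_iter h hS hb i
  have hfill := h3.fill hS (pow_nonneg hb _) hb m ?_
  · obtain ⟨N', E', P', h5, h6, h7⟩ := hfill
    refine ⟨N', E', P', h5, h6, ?_⟩
    have e : (β₀ ^ (2 ^ j)) ^ (i + 1) * β₀ ^ (2 ^ j) = β₀ ^ (2 ^ (16 * j)) := by
      rw [← pow_succ, ← pow_mul]
      congr 1
      have : i + 1 + 1 = 32768 ^ j := by omega
      rw [this, show (32768:ℕ) = 2 ^ 15 by norm_num, ← pow_mul, ← pow_add]
      congr 1; ring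
    rw [e] at h7
    exact h7
  · refine le_trans ?_ hm
    have h4 : P ^ 2 ≤ (50 * P₂) ^ (2 * (i + 1)) := by
      rw [mul_comm 2, pow_mul, ← hP3]
      exact Nat.pow_le_pow_left (by omega) 2
    calc N * (g * Rz * 262650) * P ^ 2
        ≤ ((g * Rz * 262650) ^ (i + 1) * (50 * P₂) ^ (i * (i + 1))) * (g * Rz * 262650) *
          (50 * P₂) ^ (2 * (i + 1)) :=
          Nat.mul_le_mul (Nat.mul_le_mul_right _ hN) h4
      _ = (g * Rz * 262650) ^ (i + 2) * (50 * P₂) ^ ((i + 1) * (i + 2)) := by ring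
      _ ≤ (H ^ 3) ^ (i + 2) * (50 * P₂) ^ ((i + 2) ^ 2) := by
          apply Nat.mul_le_mul (Nat.pow_le_pow_left hM _)
          apply Nat.pow_le_pow_right (by omega)
          nlinarith
      _ = (H₀ ^ 3 * 200) ^ (2 ^ (31 * j)) := by
          rw [hP, ← hi, hHdef, mul_pow]
          have e1 : ((H₀ ^ 65536 ^ j) ^ 3) ^ 32768 ^ j = (H₀ ^ 3) ^ 2 ^ (31 * j) := by
            rw [← pow_mul, ← pow_mul, ← pow_mul]
            congr 1
            rw [show (65536:ℕ) = 2 ^ 16 by norm_num, show (32768:ℕ) = 2 ^ 15 by norm_num,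
              ← pow_mul, ← pow_mul]
            have : 31 * j = 16 * j + 15 * j := by ring
            rw [this, pow_add]; ring
          have e2 : (200 ^ 2 ^ j) ^ (32768 ^ j) ^ 2 = 200 ^ 2 ^ (31 * j) := by
            rw [← pow_mul]
            congr 1
            rw [show (32768:ℕ) = 2 ^ 15 by norm_num, ← pow_mul, ← pow_mul]
            have : 31 * j = j + 15 * (j * 2) := by ring
            rw [this, pow_add]
          rw [e1, e2]

end

end KLev
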