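import Pool.Agent.KLev.QComp

namespace KLev

open Finset Filter Topology

section

lemma B.repow {H k m : ℕ} {x : ℝ} (h : B H k x) (hH : 1 ≤ H) (hkm : k ≤ m) :
    B (H ^ m) 1 x := by
  obtain ⟨a, b, h1, h2, h3, h4⟩ := h.mono hH hkm
  refine ⟨a, b, h1, by rw [pow_one]; exact h2, ?_, h4⟩
  rw [pow_one]; push_cast; exact h3

/-- rounding the slopes -/
theorem natSlopes_bd {ι R : Type} [Fintype ι] {κ P : ℕ} (C : Cert ι R κ P) {H : ℕ}
    (hH : 8 ≤ H) (hs : ∀ i, B H 576 (C.s i)) (ht : ∀ i, B H 6453 (C.t i))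
    (hx : ∀ r b, B H 3059 (C.x r b)) (hy : ∀ r b, B H 3509 (C.y r b)) :
    ∃ (C' : Cert ι R κ P) (σ : ι → ℕ), (∀ i, C'.s i = σ i) ∧ (∀ i, σ i ≤ H ^ 65536) ∧
      C'.Bd (H ^ 65536) 1 := by
  classical
  have hH2 : 2 ≤ H := by omega
  have hH1 : 1 ≤ H := by omega
  have hHR : (8:ℝ) ≤ H := by exact_mod_cast hH
  have hH0 : (0:ℝ) < H := by linarith
  set M : ℝ := (H:ℝ) ^ 16660 with hM
  have hM0 : 0 < M := by positivity
  have hMB : B H 16660 M := by
    have := B.nat (H := H) (k := 16660) (H ^ 16660) le_rfl hH1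
    rw [hM]; push_cast at this; exact this
  set m0 : ℝ := (H:ℝ) ^ 17237 with hm0
  have hm0B : B H 17237 m0 := by
    have := B.nat (H := H) (k := 17237) (H ^ 17237) le_rfl hH1
    rw [hm0]; push_cast at this; exact this
  set f : ι → ℤ := fun i => ⌊C.s i * M⌋ with hf
  have hf1 : ∀ i, |(f i : ℝ) / M - C.s i| ≤ M⁻¹ := by
    intro i
    have h1 := Int.floor_le (C.s i * M)
    have h2 := Int.lt_floor_add_one (C.s i * M)
    have h3 : (f i : ℝ) / M - C.s i = ((f i : ℝ) - C.s i * M) * M⁻¹ := by field_simp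
    rw [h3, abs_mul, abs_of_pos (inv_pos.mpr hM0)]
    have h4 : |(f i : ℝ) - C.s i * M| ≤ 1 := by
      rw [_root_.abs_le]; simp only [hf]; constructor <;> linarith
    calc |(f i : ℝ) - C.s i * M| * M⁻¹ ≤ 1 * M⁻¹ :=
          mul_le_mul_of_nonneg_right h4 (inv_pos.mpr hM0).le
      _ = M⁻¹ := one_mul _
  have hf2 : ∀ i, |(f i : ℝ)| ≤ m0 := by
    intro i
    have h1 := (hs i).abs_le
    have h2 : |C.s i * M| ≤ (H:ℝ) ^ 17236 := by
      rw [abs_mul, abs_of_pos hM0]
      calc |C.s i| * M ≤ (H:ℝ) ^ 576 * M := mul_le_mul_of_nonneg_right h1 hM0.le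
        _ = (H:ℝ) ^ 17236 := by rw [hM, ← pow_add]
    have h3 := Int.floor_le (C.s i * M)
    have h4 := Int.lt_floor_add_one (C.s i * M)
    have h5 := _root_.abs_le.mp h2
    have h6 : (1:ℝ) ≤ (H:ℝ) ^ 17236 := one_le_pow₀ (by linarith)
    have h7 : 2 * (H:ℝ) ^ 17236 ≤ m0 := by
      have h8 : m0 = (H:ℝ) ^ 17236 * H := by
        rw [hm0, show (17237:ℕ) = 17236 + 1 by norm_num, pow_succ]
      have h9 : (H:ℝ) ^ 17236 * 2 ≤ (H:ℝ) ^ 17236 * H :=
        mul_le_mul_of_nonneg_left (by linarith) (by positivity)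
      linarith
    rw [_root_.abs_le]; simp only [hf]; constructor <;> linarith [h5.1, h5.2]
  have hσ0 : ∀ i, 0 ≤ f i + (H:ℤ) ^ 17237 := by
    intro i
    have h1 := _root_.abs_le.mp (hf2 i)
    have h2 : (0:ℝ) ≤ ((f i + (H:ℤ) ^ 17237 : ℤ) : ℝ) := by push_cast; linarith [h1.1]
    exact_mod_cast h2
  set σ : ι → ℕ := fun i => (f i + (H:ℤ) ^ 17237).toNat with hσ
  have hσ1 : ∀ i, ((σ i : ℕ) : ℝ) = f i + m0 := by
    intro i
    have h1 : ((σ i : ℕ) : ℤ) = f i + (H:ℤ) ^ 17237 := Int.toNat_of_nonneg (hσ0 i)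
    have h2 : (((σ i : ℕ) : ℤ) : ℝ) = ((f i + (H:ℤ) ^ 17237 : ℤ) : ℝ) := by rw [h1]
    push_cast at h2
    rw [hm0]; exact h2
  have hσ2 : ∀ i, σ i ≤ H ^ 17238 := by
    intro i
    have h1 := _root_.abs_le.mp (hf2 i)
    have h3 : ((σ i : ℕ) : ℝ) ≤ ((H ^ 17238 : ℕ) : ℝ) := by
      rw [hσ1]
      push_cast
      rw [show (17238:ℕ) = 17237 + 1 by norm_num, pow_succ]
      rw [← hm0]
      have h8 : 0 < m0 := by positivity
      have h9 : m0 * 2 ≤ m0 * H := mul_le_mul_of_nonneg_left (by linarith) h8.le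
      linarith [h1.2]
    exact_mod_cast h3
  have hpwle : H ^ 17238 ≤ H ^ 65536 := Nat.pow_le_pow_right hH1 (by norm_num)
  have hsign : ∀ i r b, ((f i + m0) * (C.x r b / M) + C.t i - (C.y r b + m0 * (C.x r b / M)) ≠ 0 ∧
      ((f i + m0) * (C.x r b / M) + C.t i - (C.y r b + m0 * (C.x r b / M)) < 0 ↔
        C.s i * C.x r b + C.t i < C.y r b)) := by
    intro i r b
    have e : (f i + m0) * (C.x r b / M) + C.t i - (C.y r b + m0 * (C.x r b / M)) =
        (C.s i * C.x r b + C.t i - C.y r b) + ((f i : ℝ) / M - C.s i) * C.x r b := by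
      field_simp; ring
    have hA : C.s i * C.x r b + C.t i - C.y r b ≠ 0 := sub_ne_zero.mpr (C.hne r b i)
    have hAB : B H 13599 (C.s i * C.x r b + C.t i - C.y r b) :=
      (((hs i).mul (hx r b) hH2 (le_refl 3635)).add (ht i) hH2 (le_refl 10089)).sub (hy r b) hH2
        (le_refl 13599)
    have h1 := hAB.gap hH1 hA
    have h2 := near_sign (A := C.s i * C.x r b + C.t i - C.y r b)
      (e := ((f i : ℝ) / M - C.s i) * C.x r b) (by
        refine lt_of_lt_of_le ?_ h1
        rw [abs_mul]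
        calc |(f i : ℝ) / M - C.s i| * |C.x r b| ≤ M⁻¹ * (H:ℝ) ^ 3059 :=
              mul_le_mul (hf1 i) (hx r b).abs_le (abs_nonneg _) (inv_pos.mpr hM0).le
          _ = ((H:ℝ) ^ 13601)⁻¹ := inv_pow_mul hH0 (by norm_num)
          _ < ((H:ℝ) ^ 13599)⁻¹ := by
              apply inv_strictAnti₀ (by positivity)
              exact pow_lt_pow_right₀ (by linarith) (by norm_num))
    rw [e]
    refine ⟨h2.1, ?_⟩
    rw [h2.2, sub_neg]
  refine ⟨{ s := fun i => f i + m0
            t := C.t
            x := fun r b => C.x r b / M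
            y := fun r b => C.y r b + m0 * (C.x r b / M)
            l := C.l
            slot := C.slot
            hlt := fun r => div_lt_div_of_pos_right (C.hlt r) hM0
            hdisj := fun r r' h => by
              rcases C.hdisj r r' h with h | h
              · exact Or.inl (div_lt_div_of_pos_right h hM0)
              · exact Or.inr (div_lt_div_of_pos_right h hM0)
            hne := fun r b i h => (hsign i r b).1 (sub_eq_zero.mpr h)
            hcard := fun r b => by
              refine Eq.trans ?_ (C.hcard r b)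
              apply Finset.sum_congr rfl
              intro i _
              have h1 := (hsign i r b).2
              rw [sub_neg] at h1
              simp only [h1]
            hl0 := fun r => by
              have h1 := (hsign (C.l r) r false).2.mpr (C.hl0 r)
              linarith
            hl1 := fun r => by
              have h1 := hsign (C.l r) r true
              by_contra h2
              push Not at h2
              have h3 := lt_of_le_of_ne (sub_nonpos.mpr h2) h1.1
              have h4 := h1.2.mp h3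
              have h5 := C.hl1 r
              linarith
            hslot := C.hslot }, σ, fun i => (hσ1 i).symm, fun i => (hσ2 i).trans hpwle,
            ?_, ?_, ?_, ?_⟩
  · intro i
    show B _ _ ((f i : ℝ) + m0)
    rw [← hσ1 i]
    exact (B.nat (H := H) (k := 17238) (σ i) (hσ2 i) hH1).repow hH1 (by norm_num)
  · intro i; exact (ht i).repow hH1 (by norm_num)
  · intro r b
    exact ((hx r b).div hMB hH2 (le_refl 19719)).repow hH1 (by norm_num)
  · intro r b
    exact ((hy r b).add (hm0B.mul ((hx r b).div hMB hH2 (le_refl 19719)) hH2 (le_refl 36956)) hH2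
      (le_refl 40466)).repow hH1 (by norm_num)

end

end KLev
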