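import Pool.Agent.KLev.Regular
import Pool.Agent.KLev.Height

namespace KLev

open Finset Filter Topology

section

/-- all data of the certificate have height at most `H ^ k` -/
def Cert.Bd {ι R : Type} [Fintype ι] {κ P : ℕ} (C : Cert ι R κ P) (H k : ℕ) : Prop :=
  (∀ i, B H k (C.s i)) ∧ (∀ i, B H k (C.t i)) ∧ (∀ r b, B H k (C.x r b)) ∧
    (∀ r b, B H k (C.y r b))

lemma greedy {ι : Type} [Fintype ι] [DecidableEq ι] (s t : ι → ℝ) {z : ℝ} (hz : 0 < z)
    (A : Finset ι) :
    ∃ u : ι → ℕ, (∀ i, u i ≤ Fintype.card ι * Fintype.card ι) ∧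
      (∀ i ∈ A, ∀ j ∈ A, i ≠ j → s i = s j → t i + z * u i ≠ t j + z * u j) ∧
      (∀ i ∈ A, ∀ j ∈ A, ∀ l ∈ A, i ≠ j → i ≠ l → j ≠ l → ∀ x : ℝ,
        s i * x + (t i + z * u i) = s j * x + (t j + z * u j) →
        s j * x + (t j + z * u j) ≠ s l * x + (t l + z * u l)) := by
  classical
  induction A using Finset.induction_on with
  | empty => exact ⟨fun _ => 0, fun _ => Nat.zero_le _, by simp, by simp⟩
  | insert a A ha ih =>
    obtain ⟨u, hu1, hu2, hu3⟩ := ih
    set T : ι → ℝ := fun i => t i + z * u i with hT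
    set xx : ι → ι → ℝ := fun i j => (T j - T i) / (s i - s j) with hxx
    set w : ι × ι → ℝ := fun p => if p.1 = p.2 then (T p.1 - t a) / z else
      (s p.1 * xx p.1 p.2 + T p.1 - s a * xx p.1 p.2 - t a) / z with hw
    set W : Finset ℝ := (A ×ˢ A).image w with hW
    have hWc : W.card ≤ Fintype.card ι * Fintype.card ι := by
      refine Finset.card_image_le.trans ?_
      rw [Finset.card_product]
      exact Nat.mul_le_mul (Finset.card_le_univ _) (Finset.card_le_univ _)
    obtain ⟨v, hv1, hv2⟩ : ∃ v : ℕ, v ≤ Fintype.card ι * Fintype.card ι ∧ (v : ℝ) ∉ W := by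
      by_contra hcon
      push Not at hcon
      have h1 : (Finset.range (Fintype.card ι * Fintype.card ι + 1)).image (fun v : ℕ => (v:ℝ)) ⊆
          W := by
        intro y hy
        rw [Finset.mem_image] at hy
        obtain ⟨v, hv, rfl⟩ := hy
        rw [Finset.mem_range] at hv
        exact hcon v (by omega)
      have h2 := Finset.card_le_card h1
      rw [Finset.card_image_of_injective _ Nat.cast_injective, Finset.card_range] at h2
      omega
    have hva : ∀ i ∈ A, T i ≠ t a + z * v := by
      intro i hi h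
      apply hv2
      rw [hW, Finset.mem_image]
      refine ⟨(i, i), by simp [hi], ?_⟩
      simp only [hw, if_true]
      rw [h]; field_simp; ring
    have hvb : ∀ i ∈ A, ∀ j ∈ A, i ≠ j → s i ≠ s j → ∀ x, s i * x + T i = s j * x + T j →
        s a * x + (t a + z * v) ≠ s i * x + T i := by
      intro i hi j hj hij hs x hx h
      apply hv2
      rw [hW, Finset.mem_image]
      refine ⟨(i, j), by simp [hi, hj], ?_⟩
      simp only [hw, hij, if_false]
      have hx' : xx i j = x := by
        simp only [hxx]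
        rw [div_eq_iff (sub_ne_zero.mpr hs)]
        linarith
      rw [hx', div_eq_iff hz.ne']
      linarith
    set u' : ι → ℕ := Function.update u a v with hu'
    have hua : u' a = v := by simp [hu']
    have hui : ∀ i ∈ A, u' i = u i := by
      intro i hi
      have : i ≠ a := fun h => ha (h ▸ hi)
      simp [hu', this]
    have key : ∀ i ∈ A, ∀ j ∈ A, i ≠ j → ∀ x, s i * x + T i = s j * x + T j →
        s a * x + (t a + z * v) ≠ s i * x + T i := by
      intro i hi j hj hij x hx
      by_cases hs : s i = s j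
      · exfalso
        apply hu2 i hi j hj hij hs
        rw [hs] at hx
        have : T i = T j := by linarith
        exact this
      · exact hvb i hi j hj hij hs x hx
    refine ⟨u', ?_, ?_, ?_⟩
    · intro i
      by_cases h : i = a
      · rw [h, hua]; exact hv1
      · have : u' i = u i := by simp [hu', h]
        rw [this]; exact hu1 i
    · intro i hi j hj hij hs
      rw [Finset.mem_insert] at hi hj
      rcases hi with rfl | hi <;> rcases hj with rfl | hj
      · exact absurd rfl hij
      · rw [hua, hui j hj]; exact (hva j hj).symm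
      · rw [hua, hui i hi]; exact hva i hi
      · rw [hui i hi, hui j hj]; exact hu2 i hi j hj hij hs
    · intro i hi j hj l hl hij hil hjl x
      rw [Finset.mem_insert] at hi hj hl
      rcases hi with rfl | hi <;> rcases hj with rfl | hj <;> rcases hl with rfl | hl
      · exact absurd rfl hij
      · exact absurd rfl hij
      · exact absurd rfl hil
      · rw [hua, hui j hj, hui l hl]
        intro h1 h2
        exact key j hj l hl hjl x h2 h1
      · exact absurd rfl hjl
      · rw [hua, hui i hi, hui l hl]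
        intro h1 h2
        exact key i hi l hl hil x (h1.trans h2) h1.symm
      · rw [hua, hui i hi, hui j hj]
        intro h1 h2
        exact key i hi j hj hij x h1 (h2.symm.trans h1.symm)
      · rw [hui i hi, hui j hj, hui l hl]
        exact hu3 i hi j hj l hl hij hil hjl x

/-- small changes do not change the sign -/
lemma near_sign {A e : ℝ} (h : |e| < |A|) : A + e ≠ 0 ∧ (A + e < 0 ↔ A < 0) := by
  rcases lt_trichotomy A 0 with hA | hA | hA
  · rw [abs_of_neg hA] at h
    have h1 := abs_lt.mp h
    exact ⟨by linarith [h1.2], ⟨fun _ => hA, fun _ => by linarith [h1.2]⟩⟩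
  · rw [hA, abs_zero] at h
    exact absurd h (not_lt.mpr (abs_nonneg _))
  · rw [abs_of_pos hA] at h
    have h1 := abs_lt.mp h
    exact ⟨by linarith [h1.1], ⟨fun h2 => by linarith [h1.1], fun h2 => by linarith⟩⟩

/-- quantitative version of `regularize` -/
theorem regularize_bd {ι R : Type} [Fintype ι] [Finite R] {k P : ℕ} (C : Cert ι R (k + 1) P)
    {H : ℕ} (hH : 4 ≤ H) (hC : C.Bd H 1) (hcard : Fintype.card ι ≤ H) :
    ∃ S : Ev ι R k P, S.s = C.s ∧ Simple S.s S.t ∧ (∀ i, B H 15 (S.t i)) ∧
      (∀ r, B H 34 (S.X r)) := by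
  classical
  have hH2 : 2 ≤ H := by omega
  have hHR : (4:ℝ) ≤ H := by exact_mod_cast hH
  have hH0 : (0:ℝ) < H := by linarith
  obtain ⟨hCs, hCt, hCx, hCy⟩ := hC
  set z : ℝ := ((H:ℝ) ^ 11)⁻¹ with hz
  have hz0 : 0 < z := by positivity
  obtain ⟨u, hu1, hu2, hu3⟩ := greedy C.s C.t hz0 Finset.univ
  have huH : ∀ i, u i ≤ H ^ 2 := by
    intro i
    refine (hu1 i).trans ?_
    rw [sq]; exact Nat.mul_le_mul hcard hcard
  set t' : ι → ℝ := fun i => C.t i + z * u i with ht'
  have hsimple : Simple C.s t' := by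
    constructor
    · intro i j l hij hil hjl x h1 h2
      exact hu3 i (Finset.mem_univ _) j (Finset.mem_univ _) l (Finset.mem_univ _) hij hil hjl x
        h1 h2
    · intro i j hij hs
      exact hu2 i (Finset.mem_univ _) j (Finset.mem_univ _) hij hs
  have hzu : ∀ i, B H 13 (z * u i) := fun i =>
    (B.inv_pow hH2 11).mul (B.nat (u i) (huH i) (by omega)) hH2 (by norm_num)
  have ht'B : ∀ i, B H 15 (t' i) := fun i => (hCt i).add (hzu i) hH2 (by norm_num)
  have hsgn : ∀ r b i, (C.s i * C.x r b + C.t i - C.y r b + z * u i ≠ 0 ∧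
      (C.s i * C.x r b + C.t i - C.y r b + z * u i < 0 ↔
        C.s i * C.x r b + C.t i - C.y r b < 0)) := by
    intro r b i
    have hA : C.s i * C.x r b + C.t i - C.y r b ≠ 0 := sub_ne_zero.mpr (C.hne r b i)
    have hAB : B H 6 (C.s i * C.x r b + C.t i - C.y r b) :=
      (((hCs i).mul (hCx r b) hH2 (le_refl 2)).add (hCt i) hH2 (le_refl 4)).sub (hCy r b) hH2
        (le_refl 6)
    have h1 := hAB.gap (by omega) hA
    apply near_sign
    refine lt_of_lt_of_le ?_ h1
    rw [abs_of_nonneg (by positivity)]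
    have h2 : (u i : ℝ) ≤ (H:ℝ) ^ 2 := by exact_mod_cast huH i
    calc z * u i ≤ z * (H:ℝ) ^ 2 := mul_le_mul_of_nonneg_left h2 hz0.le
      _ = ((H:ℝ) ^ 9)⁻¹ := by rw [hz]; field_simp
      _ < ((H:ℝ) ^ 6)⁻¹ := by
          apply inv_strictAnti₀ (by positivity)
          exact pow_lt_pow_right₀ (by linarith) (by norm_num)
  have hpos : ∀ r b i, (C.s i * C.x r b + t' i < C.y r b ↔ C.s i * C.x r b + C.t i < C.y r b) := by
    intro r b i
    have h := (hsgn r b i).2
    have e : C.s i * C.x r b + t' i - C.y r b =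
      C.s i * C.x r b + C.t i - C.y r b + z * u i := by
      simp only [ht']; ring
    rw [← sub_neg, e, h, sub_neg]
  have hne' : ∀ r b i, C.s i * C.x r b + t' i ≠ C.y r b := by
    intro r b i h
    apply (hsgn r b i).1
    have e : C.s i * C.x r b + t' i - C.y r b =
      C.s i * C.x r b + C.t i - C.y r b + z * u i := by
      simp only [ht']; ring
    rw [← e, h, sub_self]
  have hcnt : ∀ r b, ∑ i, (if C.s i * C.x r b + t' i < C.y r b then 1 else 0) = k + 1 := by
    intro r b
    refine Eq.trans ?_ (C.hcard r b)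
    apply Finset.sum_congr rfl
    intro i _
    simp only [hpos]
  have hex : ∀ r, ∃ Xb : ℝ × ι, C.x r false < Xb.1 ∧ Xb.1 < C.x r true ∧
      C.s (C.l r) * Xb.1 + t' (C.l r) = C.s Xb.2 * Xb.1 + t' Xb.2 ∧ C.s Xb.2 < C.s (C.l r) ∧
      (∀ c, c ≠ C.l r → c ≠ Xb.2 → C.s c * Xb.1 + t' c ≠ C.s (C.l r) * Xb.1 + t' (C.l r)) ∧
      ∑ c, (if C.s c * Xb.1 + t' c < C.s (C.l r) * Xb.1 + t' (C.l r) then 1 else 0) = k := by
    intro r
    have h0 : C.s (C.l r) * C.x r false + t' (C.l r) < C.y r false :=
      (hpos r false (C.l r)).mpr (C.hl0 r)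
    have h1 : C.y r true < C.s (C.l r) * C.x r true + t' (C.l r) := by
      rcases lt_trichotomy (C.s (C.l r) * C.x r true + t' (C.l r)) (C.y r true) with h | h | h
      · exact absurd ((hpos r true (C.l r)).mp h) (not_lt.mpr (C.hl1 r).le)
      · exact absurd h (hne' r true (C.l r))
      · exact h
    obtain ⟨X, b, h⟩ := extract C.s t' hsimple (C.hlt r) (C.l r) (hcnt r false) (hcnt r true)
      h0 h1
    exact ⟨(X, b), h⟩
  choose Xb hXb using hex
  refine ⟨{ s := C.s, t := t', X := fun r => (Xb r).1, a := C.l, b := fun r => (Xb r).2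
            tie := fun r => (hXb r).2.2.1, hs := fun r => (hXb r).2.2.2.1
            hne := fun r => (hXb r).2.2.2.2.1
            hcard := fun r => by convert (hXb r).2.2.2.2.2
            hX := ?_, slot := C.slot, hslot := C.hslot }, rfl, hsimple, ht'B, ?_⟩
  · intro r r' h
    by_contra hne
    simp only [] at h
    rcases C.hdisj r r' hne with h1 | h1
    · have := (hXb r).2.1
      have := (hXb r').1
      linarith
    · have := (hXb r').2.1
      have := (hXb r).1
      linarith
  · intro r
    show B H 34 (Xb r).1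
    have h1 := (hXb r).2.2.1
    have h2 := (hXb r).2.2.2.1
    have e : (Xb r).1 = (t' (Xb r).2 - t' (C.l r)) / (C.s (C.l r) - C.s (Xb r).2) := by
      rw [eq_div_iff (sub_pos.mpr h2).ne']
      linarith
    rw [e]
    exact ((ht'B _).sub (ht'B _) hH2 (le_refl 31)).div ((hCs _).sub (hCs _) hH2 (le_refl 3)) hH2
      (le_refl 34)

end

end KLev
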