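import Pool.Agent.KLev.ExPar
import Pool.Agent.KLev.QReg

namespace KLev

open Finset Filter Topology

section

variable {A R₁ G R₂ : Type} [Fintype A] [Fintype G] {k₁ P₁ k₂ P₂ : ℕ}

lemma inv_pow_mul {H : ℝ} (hH : 0 < H) {a b : ℕ} (h : b ≤ a) :
    (H ^ a)⁻¹ * H ^ b = (H ^ (a - b))⁻¹ := by
  obtain ⟨c, rfl⟩ := Nat.exists_eq_add_of_le h
  rw [Nat.add_sub_cancel_left, pow_add]
  field_simp

lemma inv_pow_le_eighth {H : ℝ} (hH : 8 ≤ H) {a c : ℕ} (h : c + 1 ≤ a) :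
    (H ^ a)⁻¹ ≤ (H ^ c)⁻¹ / 8 := by
  have h1 : H ^ c * 8 ≤ H ^ a := by
    calc H ^ c * 8 ≤ H ^ c * H := mul_le_mul_of_nonneg_left hH (by positivity)
      _ = H ^ (c + 1) := (pow_succ _ _).symm
      _ ≤ H ^ a := pow_le_pow_right₀ (by linarith) h
  rw [div_eq_mul_inv, ← mul_inv]
  exact inv_anti₀ (by positivity) h1

/-- heights of the first arrangement -/
def Ev.Bd (S : Ev A R₁ k₁ P₁) (H : ℕ) : Prop :=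
  (∀ i, B H 1 (S.s i)) ∧ (∀ i, B H 15 (S.t i)) ∧ (∀ r, B H 34 (S.X r))

theorem par_bd (S₁ : Ev A R₁ k₁ P₁) (S₂ : Cert G R₂ k₂ P₂) (Rz Nx V : ℕ) {H : ℕ} (hH : 8 ≤ H)
    (h₁ : S₁.Bd H) (h₂ : S₂.Bd H 1) (hRz : Rz ≤ H) (hNx : Nx + 1 ≤ H ^ 2)
    (hV : Rz * Nx + V + 1 ≤ H ^ 5) (hV' : V + 1 ≤ H ^ 4) :
    ∃ p : Par S₁ S₂ Rz Nx V, p.φ = ((H:ℝ) ^ 180)⁻¹ ∧ p.lam = ((H:ℝ) ^ 6)⁻¹ ∧
      p.κ = ((H:ℝ) ^ 9)⁻¹ ∧ p.δ = ((H:ℝ) ^ 200)⁻¹ := by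
  have hH2 : 2 ≤ H := by omega
  have hHR : (8:ℝ) ≤ H := by exact_mod_cast hH
  have hH0 : (0:ℝ) < H := by linarith
  have hH1 : (1:ℝ) ≤ H := by linarith
  obtain ⟨hs, ht, hX⟩ := h₁
  obtain ⟨hs2, ht2, hx2, hy2⟩ := h₂
  have hNxR : (Nx:ℝ) + 1 ≤ (H:ℝ) ^ 2 := by exact_mod_cast hNx
  have hVR : (Rz:ℝ) * Nx + V + 1 ≤ (H:ℝ) ^ 5 := by exact_mod_cast hV
  have hV'R : (V:ℝ) + 1 ≤ (H:ℝ) ^ 4 := by exact_mod_cast hV'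
  have hRzR : (Rz:ℝ) ≤ (H:ℝ) := by exact_mod_cast hRz
  have hY : ∀ e, B H 51 (S₁.s (S₁.a e) * S₁.X e + S₁.t (S₁.a e)) := fun e =>
    ((hs _).mul (hX _) hH2 (le_refl 35)).add (ht _) hH2 (le_refl 51)
  have hxs : ∀ r b, |S₂.x r b| ≤ (H:ℝ) := fun r b => by simpa using (hx2 r b).abs_le
  have hys : ∀ r b, |S₂.y r b| ≤ (H:ℝ) := fun r b => by simpa using (hy2 r b).abs_le
  have hlt : ∀ (x0 y0 x1 y1 : ℝ), B H 1 x0 → B H 1 x1 → |y0| ≤ H → |y1| ≤ H → x0 < x1 →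
      x0 + ((H:ℝ) ^ 6)⁻¹ * y0 < x1 + ((H:ℝ) ^ 6)⁻¹ * y1 := by
    intro x0 y0 x1 y1 hx0 hx1 hy0 hy1 hlt
    have h1 := (hx1.sub hx0 hH2 (le_refl 3)).gap (by omega) (sub_pos.mpr hlt).ne'
    rw [abs_of_pos (sub_pos.mpr hlt)] at h1
    have h2 := abs_le.mp hy0
    have h3 := abs_le.mp hy1
    have h4 : ((H:ℝ) ^ 6)⁻¹ * (y0 - y1) ≤ ((H:ℝ) ^ 6)⁻¹ * (8 * H) :=
      mul_le_mul_of_nonneg_left (by linarith) (by positivity)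
    have h5 : ((H:ℝ) ^ 6)⁻¹ * (8 * H) < ((H:ℝ) ^ 3)⁻¹ := by
      have h6 : ((H:ℝ) ^ 6)⁻¹ * (8 * H) ≤ ((H:ℝ) ^ 6)⁻¹ * (H ^ 2) :=
        mul_le_mul_of_nonneg_left (by nlinarith) (by positivity)
      rw [inv_pow_mul hH0 (by norm_num)] at h6
      refine lt_of_le_of_lt h6 ?_
      apply inv_strictAnti₀ (by positivity)
      exact pow_lt_pow_right₀ (by linarith) (by norm_num)
    nlinarith
  refine ⟨{ φ := ((H:ℝ) ^ 180)⁻¹, lam := ((H:ℝ) ^ 6)⁻¹, κ := ((H:ℝ) ^ 9)⁻¹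
            δ := ((H:ℝ) ^ 200)⁻¹
            hφ0 := by positivity, hφ1 := ?_, hφ2 := ?_, hl0 := by positivity, hl1 := ?_
            hl2 := ?_, hl3 := ?_, hκ0 := by positivity, hκ1 := ?_, hκ2 := ?_, hκ3 := ?_
            hδ0 := by positivity, hδ1 := ?_, hδ2 := ?_, hδ3 := ?_ }, rfl, rfl, rfl, rfl⟩
  · calc ((H:ℝ) ^ 180)⁻¹ * ((Nx:ℝ) + 1) ≤ ((H:ℝ) ^ 180)⁻¹ * (H:ℝ) ^ 2 :=
          mul_le_mul_of_nonneg_left hNxR (by positivity)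
      _ = ((H:ℝ) ^ 178)⁻¹ := inv_pow_mul hH0 (by norm_num)
      _ ≤ ((H:ℝ) ^ 0)⁻¹ / 8 := inv_pow_le_eighth hHR (by norm_num)
      _ ≤ 1 / 4 := by norm_num
  · intro e e' h1 h2
    have hA : S₁.s (S₁.a e') * S₁.X e + S₁.t (S₁.a e') -
        (S₁.s (S₁.a e) * S₁.X e + S₁.t (S₁.a e)) ≠ 0 :=
      sub_ne_zero.mpr (S₁.hne e _ h1 h2)
    have hB : B H 103 (S₁.s (S₁.a e') * S₁.X e + S₁.t (S₁.a e') -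
        (S₁.s (S₁.a e) * S₁.X e + S₁.t (S₁.a e))) :=
      (((hs _).mul (hX _) hH2 (le_refl 35)).add (ht _) hH2 (le_refl 51)).sub (hY e) hH2
        (le_refl 103)
    have h3 := hB.gap (by omega) hA
    refine lt_of_lt_of_le ?_ h3
    have h4 : |S₁.s (S₁.a e') - S₁.s (S₁.b e')| ≤ (H:ℝ) ^ 3 :=
      ((hs _).sub (hs _) hH2 (le_refl 3)).abs_le
    have h5 : |S₁.X e - S₁.X e'| ≤ (H:ℝ) ^ 69 := ((hX _).sub (hX _) hH2 (le_refl 69)).abs_le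
    have h6 := le_abs_self (S₁.s (S₁.a e') - S₁.s (S₁.b e'))
    have h7 : (S₁.s (S₁.a e') - S₁.s (S₁.b e')) * |S₁.X e - S₁.X e'| ≤
        (H:ℝ) ^ 3 * (H:ℝ) ^ 69 :=
      mul_le_mul (h6.trans h4) h5 (abs_nonneg _) (by positivity)
    calc ((H:ℝ) ^ 180)⁻¹ * ((S₁.s (S₁.a e') - S₁.s (S₁.b e')) * |S₁.X e - S₁.X e'|)
        ≤ ((H:ℝ) ^ 180)⁻¹ * ((H:ℝ) ^ 72) := by
          rw [← pow_add] at h7
          exact mul_le_mul_of_nonneg_left h7 (by positivity)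
      _ = ((H:ℝ) ^ 108)⁻¹ := inv_pow_mul hH0 (by norm_num)
      _ < ((H:ℝ) ^ 103)⁻¹ := by
          apply inv_strictAnti₀ (by positivity)
          exact pow_lt_pow_right₀ (by linarith) (by norm_num)
  · calc ((H:ℝ) ^ 6)⁻¹ * ((Rz:ℝ) * Nx + V + 1) ≤ ((H:ℝ) ^ 6)⁻¹ * (H:ℝ) ^ 5 :=
          mul_le_mul_of_nonneg_left hVR (by positivity)
      _ = ((H:ℝ) ^ 1)⁻¹ := inv_pow_mul hH0 (by norm_num)
      _ ≤ ((H:ℝ) ^ 0)⁻¹ / 8 := inv_pow_le_eighth hHR (by norm_num)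
      _ = 1 / 8 := by norm_num
  · intro r
    exact hlt _ _ _ _ (hx2 _ _) (hx2 _ _) (hys _ _) (hys _ _) (S₂.hlt r)
  · intro r r' h
    rcases S₂.hdisj r r' h with h | h
    · exact Or.inl (hlt _ _ _ _ (hx2 _ _) (hx2 _ _) (hys _ _) (hys _ _) h)
    · exact Or.inr (hlt _ _ _ _ (hx2 _ _) (hx2 _ _) (hys _ _) (hys _ _) h)
  · intro r b
    have h1 := hxs r b
    have h2 := hys r b
    have hl : ((H:ℝ) ^ 6)⁻¹ ≤ 1 := by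
      apply inv_le_one_of_one_le₀
      exact one_le_pow₀ hH1
    have h3 : |S₂.x r b + ((H:ℝ) ^ 6)⁻¹ * S₂.y r b| ≤ (H:ℝ) ^ 2 := by
      calc |S₂.x r b + ((H:ℝ) ^ 6)⁻¹ * S₂.y r b| ≤ |S₂.x r b| + |((H:ℝ) ^ 6)⁻¹ * S₂.y r b| :=
            abs_add_le _ _
        _ ≤ H + 1 * H := by
            rw [abs_mul, abs_of_nonneg (by positivity : (0:ℝ) ≤ ((H:ℝ) ^ 6)⁻¹)]
            exact add_le_add h1 (mul_le_mul hl h2 (abs_nonneg _) zero_le_one)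
        _ ≤ (H:ℝ) ^ 2 := by nlinarith
    rw [abs_mul, abs_of_nonneg (by positivity : (0:ℝ) ≤ ((H:ℝ) ^ 9)⁻¹)]
    calc ((H:ℝ) ^ 9)⁻¹ * |S₂.x r b + ((H:ℝ) ^ 6)⁻¹ * S₂.y r b| ≤ ((H:ℝ) ^ 9)⁻¹ * (H:ℝ) ^ 2 :=
          mul_le_mul_of_nonneg_left h3 (by positivity)
      _ = ((H:ℝ) ^ 7)⁻¹ := inv_pow_mul hH0 (by norm_num)
      _ ≤ ((H:ℝ) ^ 6)⁻¹ / 8 := inv_pow_le_eighth hHR (by norm_num)
  · intro r b α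
    have h1 : |S₂.s α * S₂.x r b + S₂.t α - S₂.y r b| ≤ (H:ℝ) ^ 6 :=
      ((((hs2 _).mul (hx2 _ _) hH2 (le_refl 2)).add (ht2 _) hH2 (le_refl 4)).sub (hy2 _ _) hH2
        (le_refl 6)).abs_le
    rw [abs_mul, abs_of_nonneg (by positivity : (0:ℝ) ≤ ((H:ℝ) ^ 9)⁻¹)]
    calc ((H:ℝ) ^ 9)⁻¹ * |S₂.s α * S₂.x r b + S₂.t α - S₂.y r b| ≤
          ((H:ℝ) ^ 9)⁻¹ * (H:ℝ) ^ 6 := mul_le_mul_of_nonneg_left h1 (by positivity)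
      _ = ((H:ℝ) ^ 3)⁻¹ := inv_pow_mul hH0 (by norm_num)
      _ ≤ ((H:ℝ) ^ 0)⁻¹ / 8 := inv_pow_le_eighth hHR (by norm_num)
      _ ≤ 1 / 2 := by norm_num
  · intro r b
    rw [abs_mul, abs_of_nonneg (by positivity : (0:ℝ) ≤ ((H:ℝ) ^ 9)⁻¹)]
    calc ((H:ℝ) ^ 9)⁻¹ * |S₂.y r b| ≤ ((H:ℝ) ^ 9)⁻¹ * (H:ℝ) ^ 1 := by
          rw [pow_one]; exact mul_le_mul_of_nonneg_left (hys r b) (by positivity)
      _ = ((H:ℝ) ^ 8)⁻¹ := inv_pow_mul hH0 (by norm_num)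
      _ ≤ ((H:ℝ) ^ 0)⁻¹ / 8 := inv_pow_le_eighth hHR (by norm_num)
      _ ≤ 1 / 2 := by norm_num
  · calc ((H:ℝ) ^ 200)⁻¹ * ((V:ℝ) + 1) ≤ ((H:ℝ) ^ 200)⁻¹ * (H:ℝ) ^ 4 :=
          mul_le_mul_of_nonneg_left hV'R (by positivity)
      _ = ((H:ℝ) ^ 196)⁻¹ := inv_pow_mul hH0 (by norm_num)
      _ ≤ ((H:ℝ) ^ 186)⁻¹ / 8 := inv_pow_le_eighth hHR (by norm_num)
      _ = ((H:ℝ) ^ 180)⁻¹ * ((H:ℝ) ^ 6)⁻¹ / 8 := by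
          rw [← mul_inv, ← pow_add]
  · calc ((H:ℝ) ^ 200)⁻¹ * ((V:ℝ) + 1) ≤ ((H:ℝ) ^ 200)⁻¹ * (H:ℝ) ^ 4 :=
          mul_le_mul_of_nonneg_left hV'R (by positivity)
      _ = ((H:ℝ) ^ 196)⁻¹ := inv_pow_mul hH0 (by norm_num)
      _ ≤ ((H:ℝ) ^ 0)⁻¹ / 8 := inv_pow_le_eighth hHR (by norm_num)
      _ = 1 / 8 := by norm_num
  · calc ((H:ℝ) ^ 200)⁻¹ * ((Rz:ℝ) + 1) ≤ ((H:ℝ) ^ 200)⁻¹ * (H:ℝ) ^ 2 :=
          mul_le_mul_of_nonneg_left (by nlinarith) (by positivity)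
      _ = ((H:ℝ) ^ 198)⁻¹ := inv_pow_mul hH0 (by norm_num)
      _ < ((H:ℝ) ^ 180)⁻¹ := by
          apply inv_strictAnti₀ (by positivity)
          exact pow_lt_pow_right₀ (by linarith) (by norm_num)

end

end KLev
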