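import Pool.Agent.KLev.ExPar

namespace KLev

open Finset Filter Topology

section

/-- no three lines of the family meet and no two of them coincide -/
def Simple {ι : Type} (s t : ι → ℝ) : Prop :=
  (∀ i j l, i ≠ j → i ≠ l → j ≠ l → ∀ x : ℝ, s i * x + t i = s j * x + t j →
    s j * x + t j = s l * x + t l → False) ∧
  (∀ i j, i ≠ j → s i = s j → t i ≠ t j)

open scoped Classical in
lemma extract {ι : Type} [Fintype ι] (s t : ι → ℝ) (hS : Simple s t) {x0 x1 y0 y1 : ℝ} {k : ℕ}
    (hlt : x0 < x1) (a : ι)
    (hc0 : ∑ i, (if s i * x0 + t i < y0 then 1 else 0) = k + 1)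
    (hc1 : ∑ i, (if s i * x1 + t i < y1 then 1 else 0) = k + 1)
    (ha0 : s a * x0 + t a < y0) (ha1 : y1 < s a * x1 + t a) :
    ∃ X b, x0 < X ∧ X < x1 ∧ s a * X + t a = s b * X + t b ∧ s b < s a ∧
      (∀ c, c ≠ a → c ≠ b → s c * X + t c ≠ s a * X + t a) ∧
      ∑ c, (if s c * X + t c < s a * X + t a then 1 else 0) = k := by
  set B : ℝ → Finset ι := fun x => Finset.univ.filter (fun c => s c * x + t c < s a * x + t a)
    with hB
  have hcard0 : (Finset.univ.filter (fun i => s i * x0 + t i < y0)).card = k + 1 := by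
    rw [Finset.card_filter]; exact hc0
  have hcard1 : (Finset.univ.filter (fun i => s i * x1 + t i < y1)).card = k + 1 := by
    rw [Finset.card_filter]; exact hc1
  have hB0 : (B x0).card ≤ k := by
    have h1 : B x0 ⊆ (Finset.univ.filter (fun i => s i * x0 + t i < y0)).erase a := by
      intro c hc
      simp only [hB, Finset.mem_filter, Finset.mem_univ, true_and] at hc
      rw [Finset.mem_erase]
      refine ⟨?_, ?_⟩
      · rintro rfl; exact lt_irrefl _ hc
      · simp only [Finset.mem_filter, Finset.mem_univ, true_and]; linarith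
    have h2 := Finset.card_le_card h1
    rw [Finset.card_erase_of_mem (by simp [ha0]), hcard0] at h2
    simpa using h2
  have hB1 : k + 1 ≤ (B x1).card := by
    rw [← hcard1]
    apply Finset.card_le_card
    intro c hc
    simp only [hB, Finset.mem_filter, Finset.mem_univ, true_and] at hc ⊢
    linarith
  -- nearby behaviour
  have hopen : ∀ x : ℝ, ∀ᶠ z in 𝓝 x, B x ⊆ B z := by
    intro x
    have : ∀ᶠ z in 𝓝 x, ∀ c, s c * x + t c < s a * x + t a → s c * z + t c < s a * z + t a := by
      rw [eventually_all]; intro c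
      by_cases h : s c * x + t c < s a * x + t a
      · have h1 : ContinuousAt (fun z : ℝ => s c * z + t c) x := by fun_prop
        have h2 : ContinuousAt (fun z : ℝ => s a * z + t a) x := by fun_prop
        filter_upwards [h1.eventually_lt h2 h] with z hz _
        exact hz
      · exact Filter.Eventually.of_forall (fun z h' => absurd h' h)
    filter_upwards [this] with z hz
    intro c hc
    simp only [hB, Finset.mem_filter, Finset.mem_univ, true_and] at hc ⊢
    exact hz c hc
  set A : Set ℝ := {x | x ∈ Set.Icc x0 x1 ∧ (B x).card ≤ k} with hA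
  have hAclosed : IsClosed A := by
    have h1 : IsClosed {x : ℝ | (B x).card ≤ k} := by
      rw [← isOpen_compl_iff, isOpen_iff_mem_nhds]
      intro x hx
      have hx' : ¬ (B x).card ≤ k := hx
      filter_upwards [hopen x] with z hz
      show ¬ (B z).card ≤ k
      intro h
      exact hx' (le_trans (Finset.card_le_card hz) h)
    exact isClosed_Icc.inter h1
  have hAne : A.Nonempty := ⟨x0, ⟨le_refl _, hlt.le⟩, hB0⟩
  have hAbdd : BddAbove A := ⟨x1, fun x hx => hx.1.2⟩
  set X := sSup A with hX
  have hXA : X ∈ A := hAclosed.csSup_mem hAne hAbdd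
  have hXlt : X < x1 := by
    rcases lt_or_eq_of_le hXA.1.2 with h | h
    · exact h
    · exfalso
      have := hXA.2
      rw [h] at this
      omega
  have hafter : ∀ x, X < x → x ≤ x1 → k + 1 ≤ (B x).card := by
    intro x hx hx1
    by_contra h
    push Not at h
    have : x ∈ A := ⟨⟨hXA.1.1.trans hx.le, hx1⟩, by omega⟩
    exact absurd (le_csSup hAbdd this) (not_le.mpr hx)
  -- a point just after X
  have hnear : ∀ᶠ z in 𝓝[>] X, z ≤ x1 ∧ ∀ c, s a * X + t a < s c * X + t c →
      s a * z + t a < s c * z + t c := by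
    apply Filter.Eventually.and
    · have : Set.Iic x1 ∈ 𝓝 X := Iic_mem_nhds hXlt
      exact mem_nhdsWithin_of_mem_nhds this
    · rw [eventually_all]; intro c
      by_cases h : s a * X + t a < s c * X + t c
      · have h1 : ContinuousAt (fun z : ℝ => s c * z + t c) X := by fun_prop
        have h2 : ContinuousAt (fun z : ℝ => s a * z + t a) X := by fun_prop
        have h3 := h2.eventually_lt h1 h
        exact (h3.filter_mono nhdsWithin_le_nhds).mono (fun z hz _ => hz)
      · exact Filter.Eventually.of_forall (fun z h' => absurd h' h)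
  obtain ⟨z, ⟨hz1, hz2⟩, hzX⟩ := (hnear.and self_mem_nhdsWithin).exists
  have hzX' : X < z := hzX
  have hBz := hafter z hzX' hz1
  -- there is a new line
  have hex : ∃ b, b ∈ B z ∧ b ∉ B X := by
    by_contra h
    push Not at h
    have h1 : B z ⊆ B X := fun c hc => h c hc
    have h2 := Finset.card_le_card h1
    have h3 := hXA.2
    omega
  obtain ⟨b, hbz, hbX⟩ := hex
  have hbz' : s b * z + t b < s a * z + t a := by
    simpa [hB] using hbz
  have hbX' : ¬ (s b * X + t b < s a * X + t a) := by
    simpa [hB] using hbX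
  have htie : s a * X + t a = s b * X + t b := by
    rcases lt_trichotomy (s b * X + t b) (s a * X + t a) with h | h | h
    · exact absurd h hbX'
    · exact h.symm
    · exact absurd (hz2 b h) (not_lt.mpr hbz'.le)
  have hab : b ≠ a := by
    rintro rfl; exact lt_irrefl _ hbz'
  have hslope : s b < s a := by
    by_contra h
    push Not at h
    have : s a * (z - X) ≤ s b * (z - X) := mul_le_mul_of_nonneg_right h (by linarith)
    nlinarith
  have honly : ∀ c, c ≠ a → c ≠ b → s c * X + t c ≠ s a * X + t a := by
    intro c hca hcb h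
    exact hS.1 c a b hca hcb (Ne.symm hab) X h htie
  have hBzsub : B z ⊆ insert b (B X) := by
    intro c hc
    rw [Finset.mem_insert]
    by_cases hcb : c = b
    · exact Or.inl hcb
    · right
      have hc' : s c * z + t c < s a * z + t a := by simpa [hB] using hc
      have hca : c ≠ a := by rintro rfl; exact lt_irrefl _ hc'
      simp only [hB, Finset.mem_filter, Finset.mem_univ, true_and]
      rcases lt_trichotomy (s c * X + t c) (s a * X + t a) with h | h | h
      · exact h
      · exact absurd h (honly c hca hcb)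
      · exact absurd (hz2 c h) (not_lt.mpr hc'.le)
  have hcardX : (B X).card = k := by
    have h1 := Finset.card_le_card hBzsub
    rw [Finset.card_insert_of_notMem hbX] at h1
    have h2 := hXA.2
    omega
  have hX0 : x0 < X := by
    rcases lt_or_eq_of_le hXA.1.1 with h | h
    · exact h
    · exfalso
      have h1 : insert b (insert a (B X)) ⊆
          Finset.univ.filter (fun i => s i * x0 + t i < y0) := by
        intro c hc
        rw [Finset.mem_insert, Finset.mem_insert] at hc
        simp only [Finset.mem_filter, Finset.mem_univ, true_and]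
        rcases hc with rfl | rfl | hc
        · rw [h] at ha0 ⊢; linarith
        · exact ha0
        · simp only [hB, Finset.mem_filter, Finset.mem_univ, true_and] at hc
          rw [← h] at hc; linarith
      have h2 := Finset.card_le_card h1
      have haX : a ∉ B X := by simp [hB]
      rw [Finset.card_insert_of_notMem (by
        rw [Finset.mem_insert]; push Not; exact ⟨hab, hbX⟩),
        Finset.card_insert_of_notMem haX, hcardX, hcard0] at h2
      omega
  refine ⟨X, b, hX0, hXlt, htie, hslope, honly, ?_⟩
  rw [← Finset.card_filter]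
  exact hcardX

/-- nonzero polynomials do not vanish at small positive numbers -/
lemma ev_poly {p : Polynomial ℝ} (hp : p ≠ 0) : ∀ᶠ z in 𝓝[>] (0:ℝ), p.eval z ≠ 0 := by
  have h1 : (((p.roots.toFinset : Finset ℝ) : Set ℝ) \ {0})ᶜ ∈ 𝓝 (0:ℝ) := by
    apply IsOpen.mem_nhds
    · exact ((Finset.finite_toSet _).subset Set.diff_subset).isClosed.isOpen_compl
    · simp
  filter_upwards [mem_nhdsWithin_of_mem_nhds h1, self_mem_nhdsWithin] with z hz hz0 h
  have hz0' : (0:ℝ) < z := hz0
  apply hz
  refine ⟨?_, ?_⟩
  · simp only [Finset.mem_coe, Multiset.mem_toFinset]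
    rw [Polynomial.mem_roots hp]; exact h
  · simp only [Set.mem_singleton_iff]; exact hz0'.ne'

lemma ev_simple {ι : Type} [Fintype ι] (s t : ι → ℝ) :
    ∀ᶠ z in 𝓝[>] (0:ℝ), Simple s (fun i => t i + z ^ ((Fintype.equivFin ι i : ℕ) + 1)) := by
  classical
  set n : ι → ℕ := fun i => (Fintype.equivFin ι i : ℕ) + 1 with hn
  have hninj : Function.Injective n := by
    intro i j h
    simp only [hn, Nat.add_right_cancel_iff] at h
    exact (Fintype.equivFin ι).injective (Fin.ext h)
  have hnpos : ∀ i, n i ≠ 0 := fun i => by simp [hn]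
  -- pairs
  have h1 : ∀ᶠ z in 𝓝[>] (0:ℝ), ∀ i j, i ≠ j → t i + z ^ n i ≠ t j + z ^ n j := by
    rw [eventually_all]; intro i
    rw [eventually_all]; intro j
    by_cases hij : i = j
    · exact Filter.Eventually.of_forall (fun z h => absurd hij h)
    · set p : Polynomial ℝ := Polynomial.C (t i) + Polynomial.X ^ n i - Polynomial.C (t j)
        - Polynomial.X ^ n j with hp
      have hp0 : p ≠ 0 := by
        intro h
        have h2 : p.coeff (n i) = 0 := by rw [h]; simp
        have h3 : n i ≠ n j := fun h => hij (hninj h)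
        simp [hp, Polynomial.coeff_C, Polynomial.coeff_X_pow, hnpos i, h3] at h2
      filter_upwards [ev_poly hp0] with z hz _ h
      apply hz
      simp only [hp, Polynomial.eval_sub, Polynomial.eval_add, Polynomial.eval_C,
        Polynomial.eval_pow, Polynomial.eval_X]
      linarith
  have h2 : ∀ᶠ z in 𝓝[>] (0:ℝ), ∀ i j l, i ≠ j → i ≠ l → j ≠ l → ¬ (s i = s j ∧ s j = s l) →
      (t i + z ^ n i) * (s j - s l) + (t j + z ^ n j) * (s l - s i) +
        (t l + z ^ n l) * (s i - s j) ≠ 0 := by
    rw [eventually_all]; intro i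
    rw [eventually_all]; intro j
    rw [eventually_all]; intro l
    by_cases hc : i ≠ j ∧ i ≠ l ∧ j ≠ l ∧ ¬ (s i = s j ∧ s j = s l)
    · obtain ⟨hij, hil, hjl, hs⟩ := hc
      set p : Polynomial ℝ := (Polynomial.C (t i) + Polynomial.X ^ n i) * Polynomial.C (s j - s l) +
        (Polynomial.C (t j) + Polynomial.X ^ n j) * Polynomial.C (s l - s i) +
        (Polynomial.C (t l) + Polynomial.X ^ n l) * Polynomial.C (s i - s j) with hp
      have hp0 : p ≠ 0 := by
        intro h
        have e1 : n i ≠ n j := fun h => hij (hninj h)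
        have e2 : n i ≠ n l := fun h => hil (hninj h)
        have e3 : n j ≠ n l := fun h => hjl (hninj h)
        have c1 : p.coeff (n i) = 0 := by rw [h]; simp
        have c2 : p.coeff (n l) = 0 := by rw [h]; simp
        simp only [hp, Polynomial.coeff_add, Polynomial.coeff_mul_C, Polynomial.coeff_C,
          Polynomial.coeff_X_pow, hnpos, if_false, if_true, e1, e2, e3, e1.symm, e2.symm, e3.symm]
          at c1 c2
        apply hs
        constructor <;> linarith
      filter_upwards [ev_poly hp0] with z hz _ _ _ _ h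
      apply hz
      simp only [hp, Polynomial.eval_add, Polynomial.eval_mul, Polynomial.eval_C,
        Polynomial.eval_pow, Polynomial.eval_X]
      exact h
    · refine Filter.Eventually.of_forall (fun z a1 a2 a3 a4 => absurd ⟨a1, a2, a3, a4⟩ hc)
  filter_upwards [h1, h2] with z hz1 hz2
  constructor
  · intro i j l hij hil hjl x e1 e2
    by_cases hs : s i = s j ∧ s j = s l
    · apply hz1 i j hij
      rw [hs.1] at e1
      linarith
    · apply hz2 i j l hij hil hjl hs
      have e1' : t i + z ^ n i = s j * x + (t j + z ^ n j) - s i * x := by linarith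
      have e2' : t l + z ^ n l = s j * x + (t j + z ^ n j) - s l * x := by linarith
      rw [e1', e2']; ring
  · intro i j hij _
    exact hz1 i j hij

/-- every certificate can be put in event form, with the same slopes -/
theorem regularize {ι R : Type} [Fintype ι] [Finite R] {k P : ℕ} (C : Cert ι R (k + 1) P) :
    ∃ S : Ev ι R k P, S.s = C.s ∧ Simple S.s S.t := by
  classical
  have hsgn : ∀ᶠ z in 𝓝[>] (0:ℝ), ∀ r b i,
      (C.s i * C.x r b + C.t i - C.y r b + z * z ^ ((Fintype.equivFin ι i : ℕ)) ≠ 0 ∧
      (C.s i * C.x r b + C.t i - C.y r b + z * z ^ ((Fintype.equivFin ι i : ℕ)) < 0 ↔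
        C.s i * C.x r b + C.t i - C.y r b < 0)) := by
    rw [eventually_all]; intro r
    rw [eventually_all]; intro b
    rw [eventually_all]; intro i
    have hA : C.s i * C.x r b + C.t i - C.y r b ≠ 0 := sub_ne_zero.mpr (C.hne r b i)
    set A := C.s i * C.x r b + C.t i - C.y r b with hAdef
    have hc : Tendsto (fun z : ℝ => A + z * z ^ ((Fintype.equivFin ι i : ℕ))) (𝓝[>] (0:ℝ))
        (𝓝 A) := by
      have h : ContinuousAt (fun z : ℝ => A + z * z ^ ((Fintype.equivFin ι i : ℕ))) 0 := by
        fun_prop
      have h2 := h.tendsto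
      simp only [zero_mul, add_zero] at h2
      exact h2.mono_left nhdsWithin_le_nhds
    rcases lt_or_gt_of_ne hA with h | h
    · filter_upwards [hc.eventually (gt_mem_nhds h)] with ε hε
      exact ⟨hε.ne, by simp [hε, h]⟩
    · filter_upwards [hc.eventually (lt_mem_nhds h)] with ε hε
      exact ⟨hε.ne', by constructor <;> intro h' <;> linarith⟩
  obtain ⟨z, hz1, hz2⟩ := (hsgn.and (ev_simple C.s C.t)).exists
  set t' : ι → ℝ := fun i => C.t i + z ^ ((Fintype.equivFin ι i : ℕ) + 1) with ht'
  have hpos : ∀ r b i, (C.s i * C.x r b + t' i < C.y r b ↔ C.s i * C.x r b + C.t i < C.y r b) := by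
    intro r b i
    have h := (hz1 r b i).2
    have e : C.s i * C.x r b + t' i - C.y r b =
      C.s i * C.x r b + C.t i - C.y r b + z * z ^ ((Fintype.equivFin ι i : ℕ)) := by
      simp only [ht', pow_succ]; ring
    rw [← sub_neg, e, h, sub_neg]
  have hne' : ∀ r b i, C.s i * C.x r b + t' i ≠ C.y r b := by
    intro r b i h
    apply (hz1 r b i).1
    have e : C.s i * C.x r b + t' i - C.y r b =
      C.s i * C.x r b + C.t i - C.y r b + z * z ^ ((Fintype.equivFin ι i : ℕ)) := by
      simp only [ht', pow_succ]; ring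
    rw [← e, h, sub_self]
  have hcnt : ∀ r b, ∑ i, (if C.s i * C.x r b + t' i < C.y r b then 1 else 0) = k + 1 := by
    intro r b
    refine Eq.trans ?_ (C.hcard r b)
    apply Finset.sum_congr rfl
    intro i _
    simp only [hpos]
  have hex : ∀ r, ∃ Xb : ℝ × ι, C.x r false < Xb.1 ∧ Xb.1 < C.x r true ∧
      C.s (C.l r) * Xb.1 + t' (C.l r) = C.s Xb.2 * Xb.1 + t' Xb.2 ∧ C.s Xb.2 < C.s (C.l r) ∧
      (∀ c, c ≠ C.l r → c ≠ Xb.2 → C.s c * Xb.1 + t' c ≠ C.s (C.l r) * Xb.1 + t' (C.l r)) ∧
      ∑ c, (if C.s c * Xb.1 + t' c < C.s (C.l r) * Xb.1 + t' (C.l r) then 1 else 0) = k := by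
    intro r
    have h0 : C.s (C.l r) * C.x r false + t' (C.l r) < C.y r false :=
      (hpos r false (C.l r)).mpr (C.hl0 r)
    have h1 : C.y r true < C.s (C.l r) * C.x r true + t' (C.l r) := by
      rcases lt_trichotomy (C.s (C.l r) * C.x r true + t' (C.l r)) (C.y r true) with h | h | h
      · exact absurd ((hpos r true (C.l r)).mp h) (not_lt.mpr (C.hl1 r).le)
      · exact absurd h (hne' r true (C.l r))
      · exact h
    obtain ⟨X, b, h⟩ := extract C.s t' hz2 (C.hlt r) (C.l r) (hcnt r false) (hcnt r true) h0 h1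
    exact ⟨(X, b), h⟩
  choose Xb hXb using hex
  refine ⟨{ s := C.s, t := t', X := fun r => (Xb r).1, a := C.l, b := fun r => (Xb r).2
            tie := fun r => (hXb r).2.2.1, hs := fun r => (hXb r).2.2.2.1
            hne := fun r => (hXb r).2.2.2.2.1
            hcard := fun r => by convert (hXb r).2.2.2.2.2
            hX := ?_, slot := C.slot, hslot := C.hslot }, rfl, hz2⟩
  intro r r' h
  by_contra hne
  simp only [] at h
  rcases C.hdisj r r' hne with h1 | h1
  · have := (hXb r).2.1
    have := (hXb r').1
    linarith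
  · have := (hXb r').2.1
    have := (hXb r).1
    linarith

end

end KLev
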