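import Pool.Agent.KLev.Build

namespace KLev

open Finset Filter Topology

section

variable {A R₁ G R₂ : Type} [Fintype A] [Fintype G] {k₁ P₁ k₂ P₂ : ℕ}
variable (S₁ : Ev A R₁ k₁ P₁) (S₂ : Cert G R₂ k₂ P₂) (σ : G → ℕ) (Rz Nx V : ℕ)
variable (p : Par S₁ S₂ Rz Nx V) (K : Finset G)

lemma scale_sign {B : ℝ} {Q : Prop} (h : B ≠ 0 ∧ (B < 0 ↔ Q)) :
    ∀ᶠ ε in 𝓝[>] (0:ℝ), (0 + ε * B ≠ 0 ∧ (0 + ε * B < 0 ↔ Q)) := by
  filter_upwards [self_mem_nhdsWithin] with ε hε
  have hε' : (0:ℝ) < ε := hε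
  rw [zero_add]
  refine ⟨mul_ne_zero hε'.ne' h.1, ?_⟩
  rw [← h.2]
  constructor
  · intro h1
    by_contra h2
    push Not at h2
    have := mul_nonneg hε'.le h2
    linarith
  · intro h1; exact mul_neg_of_pos_of_neg hε' h1

lemma ev_sign' {A B : ℝ} {Q : Prop} (hA : A ≠ 0) (hQ : A < 0 ↔ Q) :
    ∀ᶠ ε in 𝓝[>] (0:ℝ), (A + ε * B ≠ 0 ∧ (A + ε * B < 0 ↔ Q)) := by
  filter_upwards [ev_sign B hA] with ε h
  exact ⟨h.1, h.2.trans hQ⟩

lemma psi_mul (α : G) : psi S₁ S₂ σ Rz Nx V p α * (1 + p.φ) =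
    p.φ - p.δ * σ α / (1 + p.lam * σ α) := by
  have := p.hφ0
  unfold psi
  field_simp

lemma frac_bounds (hR : ∀ α, σ α ≤ Rz) (α : G) :
    0 ≤ p.δ * σ α / (1 + p.lam * σ α) ∧ p.δ * σ α / (1 + p.lam * σ α) < p.φ := by
  have h1 := p.hδ0
  have h2 := p.hl0
  have h3 := p.hδ3
  have h4 : (σ α : ℝ) ≤ Rz := by exact_mod_cast hR α
  have h0 : (0:ℝ) ≤ σ α := by positivity
  refine ⟨by positivity, ?_⟩
  have h5 : p.δ * σ α / (1 + p.lam * σ α) ≤ p.δ * σ α := by
    apply div_le_self (by positivity)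
    nlinarith
  have h6 : p.δ * σ α ≤ p.δ * Rz := mul_le_mul_of_nonneg_left h4 h1.le
  nlinarith

lemma psi_pos (hR : ∀ α, σ α ≤ Rz) (α : G) : 0 < psi S₁ S₂ σ Rz Nx V p α := by
  have := p.hφ0
  obtain ⟨h1, h2⟩ := frac_bounds S₁ S₂ σ Rz Nx V p hR α
  unfold psi
  apply div_pos <;> linarith

lemma psi_le (hR : ∀ α, σ α ≤ Rz) (α : G) : psi S₁ S₂ σ Rz Nx V p α ≤ p.φ := by
  have h0 := p.hφ0
  obtain ⟨h1, h2⟩ := frac_bounds S₁ S₂ σ Rz Nx V p hR α
  unfold psi
  rw [div_le_iff₀ (by linarith)]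
  nlinarith

lemma tau_bounds (K : Finset G) (α : G) : -1/2 ≤ tau K α ∧ tau K α ≤ 1/2 := by
  unfold tau; split_ifs <;> constructor <;> norm_num

lemma tie' (e : R₁) : S₁.s (S₁.b e) * S₁.X e + S₁.t (S₁.b e) - S₁.Y e = 0 := by
  unfold Ev.Y; have := S₁.tie e; linarith

lemma tie'' (e : R₁) : S₁.s (S₁.a e) * S₁.X e + S₁.t (S₁.a e) - S₁.Y e = 0 := by
  unfold Ev.Y; ring

theorem sign_line (hσ : ∀ α, S₂.s α = σ α) (hR : ∀ α, σ α ≤ Rz)
    (e : R₁) (i j : ℕ) (hi : i < Nx) (hj : j < V) (r : R₂) (b : Bool) (q : Idx A G Nx P₁ V) :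
    ∀ᶠ ε in 𝓝[>] (0:ℝ),
      (slp S₁ S₂ σ Rz Nx V p q * xs S₁ S₂ Rz Nx V p ε e i j r b +
        icp S₁ S₂ σ Rz Nx V p K ε q - ys S₁ S₂ Rz Nx V p ε e i j r b ≠ 0 ∧
      (slp S₁ S₂ σ Rz Nx V p q * xs S₁ S₂ Rz Nx V p ε e i j r b +
        icp S₁ S₂ σ Rz Nx V p K ε q - ys S₁ S₂ Rz Nx V p ε e i j r b < 0 ↔
        bel S₁ S₂ σ Nx V K e i j r b q)) := by
  classical
  have hab := S₁.ab_ne e
  have hD := S₁.D_pos e
  have hDu : ∀ U : ℝ, (S₁.s (S₁.b e) - S₁.s (S₁.a e)) * (U / S₁.D e) = -U := by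
    intro U
    have : S₁.s (S₁.b e) - S₁.s (S₁.a e) = - S₁.D e := by unfold Ev.D; ring
    rw [this]; field_simp
  obtain ⟨c, q⟩ := q
  rcases q with ⟨i', α, β⟩ | ⟨q, α, β⟩ | ⟨h, α, β⟩
  · -- T lines
    simp only [slp, icp, xs, ys, diff_off, bel]
    by_cases hca : c = S₁.a e
    · subst hca
      rw [tie'']
      apply scale_sign
      have h := signTa (φ := p.φ) (lam := p.lam) (κ := p.κ) (δ := p.δ) (x := S₂.x r b)
        (y := S₂.y r b) (τ := tau K α) (i := i) (i' := i') (j := j) (V := V) (Rz := Rz)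
        (Nx := Nx) (val := σ α * (i':ℕ) + (β:ℕ)) p.hφ0 p.hl0 p.hl1 hj (p.hκ1 r b) (p.hκ3 r b)
        p.hδ0 p.hδ1 (Nat.add_le_add (Nat.mul_le_mul (hR α) i'.2.le) β.2.le) (α ∈ K) (by
          unfold tau; congr)
      simp only [] at h
      refine ⟨?_, ?_⟩
      · have h1 := h.1
        intro h2; apply h1
        rw [← h2]; unfold vS xiS; push_cast; ring
      · have h1 := h.2
        rw [iff_iff_eq] at h1 ⊢
        rw [sub_self, zero_mul, zero_add]
        rw [show vS S₁ S₂ Rz Nx V p i j r b = -p.φ * (i + p.κ * S₂.x r b + p.lam * (j + p.κ * S₂.y r b)) + p.δ * (j + p.κ * S₂.y r b) from rfl]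
        rw [h1]
        simp [hab]
    · by_cases hcb : c = S₁.b e
      · subst hcb
        rw [tie', hDu]
        apply scale_sign
        have h := signTb (φ := p.φ) (lam := p.lam) (κ := p.κ) (δ := p.δ) (x := S₂.x r b)
          (y := S₂.y r b) (τ := tau K α) (i := i) (i' := i') (j := j) (V := V) (Rz := Rz)
          (Nx := Nx) (val := σ α * (i':ℕ) + (β:ℕ)) (c := S₁.c0 e)
          p.hφ0 p.hφ1 p.hl0 p.hl1 hj (p.hκ1 r b) (p.hκ3 r b)
          p.hδ0 p.hδ1 (tau_bounds K α).1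
        have h' : -US S₁ S₂ Rz Nx V p e i j r b +
          -p.φ * (((i':ℕ):ℝ) + p.lam * (((σ α * (i':ℕ) + (β:ℕ) : ℕ) : ℝ) + tau K α)) -
          vS S₁ S₂ Rz Nx V p i j r b < 0 := by
          unfold US vS xiS; exact h
        refine ⟨h'.ne, ⟨fun _ => by simp, fun _ => h'⟩⟩
      · have hne := S₁.hne e c hca hcb
        apply ev_sign'
        · unfold Ev.Y; exact sub_ne_zero.mpr hne
        · simp [hca, hcb, sub_neg]
  · -- W lines
    simp only [slp, icp, xs, ys, diff_off, bel]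
    by_cases hca : c = S₁.a e
    · subst hca
      rw [tie'']
      apply scale_sign
      have h := signWa (φ := p.φ) (lam := p.lam) (κ := p.κ) (δ := p.δ) (x := S₂.x r b)
        (y := S₂.y r b) (ω := 1 + (q:ℕ)) (i := i) (j := j) (V := V) (Rz := Rz)
        (Nx := Nx) p.hφ0 p.hφ1 p.hl0 p.hl1 hj (p.hκ1 r b) (p.hκ3 r b)
        p.hδ0 p.hδ2 (by linarith [Nat.cast_nonneg (α := ℝ) (q:ℕ)])
      have h' : 0 < (S₁.s (S₁.a e) - S₁.s (S₁.a e)) * (US S₁ S₂ Rz Nx V p e i j r b / S₁.D e) +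
          (1 + ((q:ℕ):ℝ)) - vS S₁ S₂ Rz Nx V p i j r b := by
        rw [sub_self, zero_mul, zero_add]; unfold vS xiS; exact h
      refine ⟨h'.ne', ?_⟩
      constructor
      · intro h2; exact absurd h2 (not_lt.mpr h'.le)
      · rintro (⟨h2, -⟩ | ⟨h2, -⟩)
        · exact absurd h2 hab
        · exact absurd rfl h2
    · by_cases hcb : c = S₁.b e
      · subst hcb
        rw [tie', hDu]
        apply scale_sign
        have h := signWb (φ := p.φ) (lam := p.lam) (κ := p.κ) (δ := p.δ) (x := S₂.x r b)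
          (y := S₂.y r b) (i := i) (j := j) (V := V) (Rz := Rz)
          (Nx := Nx) (c := S₁.c0 e) (q := q)
          p.hl0 p.hl1 hj (p.hκ1 r b) (p.hκ3 r b) p.hδ0 p.hδ2
        simp only [] at h
        refine ⟨?_, ?_⟩
        · unfold US vS xiS; exact h.1
        · have h2 := h.2
          unfold US vS xiS
          rw [h2]
          simp [hab.symm]
      · have hne := S₁.hne e c hca hcb
        apply ev_sign'
        · unfold Ev.Y; exact sub_ne_zero.mpr hne
        · simp [hca, hcb, sub_neg]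
  · -- slot lines
    rcases hev : S₁.evt c h with _ | e'
    · simp only [slp, icp, xs, ys, bel, hev, diff_off]
      by_cases hca : c = S₁.a e
      · subst hca
        rw [tie'']
        apply scale_sign
        have h := signWa (φ := p.φ) (lam := p.lam) (κ := p.κ) (δ := p.δ) (x := S₂.x r b)
          (y := S₂.y r b) (ω := Nx + 2 * P₁ + 4) (i := i) (j := j) (V := V) (Rz := Rz)
          (Nx := Nx) p.hφ0 p.hφ1 p.hl0 p.hl1 hj (p.hκ1 r b) (p.hκ3 r b)
          p.hδ0 p.hδ2 (by linarith [Nat.cast_nonneg (α := ℝ) Nx, Nat.cast_nonneg (α := ℝ) P₁])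
        have h' : 0 < (S₁.s (S₁.a e) - S₁.s (S₁.a e)) * (US S₁ S₂ Rz Nx V p e i j r b / S₁.D e) +
            ((Nx:ℝ) + 2 * P₁ + 4) - vS S₁ S₂ Rz Nx V p i j r b := by
          rw [sub_self, zero_mul, zero_add]; unfold vS xiS; exact h
        refine ⟨h'.ne', ⟨fun h2 => absurd h2 (not_lt.mpr h'.le), fun h2 => absurd rfl h2.1⟩⟩
      · by_cases hcb : c = S₁.b e
        · subst hcb
          rw [tie', hDu]
          apply scale_sign
          have h := signDb (φ := p.φ) (lam := p.lam) (κ := p.κ) (δ := p.δ) (x := S₂.x r b)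
            (y := S₂.y r b) (i := i) (j := j) (V := V) (Rz := Rz)
            (Nx := Nx) (c := S₁.c0 e) (P := P₁)
            p.hl0 p.hl1 hj hi (p.hκ1 r b) (p.hκ3 r b) p.hδ0 p.hδ2 (S₁.c0_le e)
          have h' : 0 < -US S₁ S₂ Rz Nx V p e i j r b + ((Nx:ℝ) + 2 * P₁ + 4) -
              vS S₁ S₂ Rz Nx V p i j r b := by
            unfold US vS xiS; exact h
          refine ⟨h'.ne', ⟨fun h2 => absurd h2 (not_lt.mpr h'.le), fun h2 => absurd rfl h2.2.1⟩⟩
        · have hne := S₁.hne e c hca hcb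
          apply ev_sign'
          · unfold Ev.Y; exact sub_ne_zero.mpr hne
          · simp [hca, hcb, sub_neg]
    · obtain ⟨hc, hh⟩ := S₁.evt_spec hev
      simp only [slp, icp, xs, ys, bel, hev, diff_med]
      by_cases hee : e' = e
      · subst hee
        subst hc
        rw [tie'', sub_self, mul_zero, mul_zero, sub_self]
        apply scale_sign
        have hl : (0:ℝ) < 1 + p.lam * σ α := by have := p.hl0; positivity
        have h := signS (lam := p.lam * σ α) (κ := p.κ) (δ := p.δ) (x := S₂.x r b)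
          (y := S₂.y r b) (t := S₂.t α) (s := S₂.s α) (j := j) (val := σ α * i + β)
          p.hδ0 hl (S₂.hne r b α) p.hκ0 (p.hκ2 r b α)
        simp only [] at h
        have key : (S₁.s (S₁.a e') - psi S₁ S₂ σ Rz Nx V p α * S₁.D e' - S₁.s (S₁.a e')) *
            (US S₁ S₂ Rz Nx V p e' i j r b / S₁.D e') +
            psi S₁ S₂ σ Rz Nx V p α * (↑(S₁.c0 e') + 1 / 2) +
            p.δ * (↑(β:ℕ) + p.κ * S₂.t α) / (1 + p.lam * ↑(σ α)) - vS S₁ S₂ Rz Nx V p i j r b =
            p.δ / (1 + p.lam * σ α) * (((σ α * i + (β:ℕ) : ℕ) : ℝ) - j +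
              p.κ * (S₂.s α * S₂.x r b + S₂.t α - S₂.y r b)) := by
          have h1 : (S₁.s (S₁.a e') - psi S₁ S₂ σ Rz Nx V p α * S₁.D e' - S₁.s (S₁.a e')) *
            (US S₁ S₂ Rz Nx V p e' i j r b / S₁.D e') =
            - psi S₁ S₂ σ Rz Nx V p α * US S₁ S₂ Rz Nx V p e' i j r b := by
            field_simp; ring
          rw [h1]
          have h2 : - psi S₁ S₂ σ Rz Nx V p α * US S₁ S₂ Rz Nx V p e' i j r b +
            psi S₁ S₂ σ Rz Nx V p α * (↑(S₁.c0 e') + 1 / 2) =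
            - (psi S₁ S₂ σ Rz Nx V p α * (1 + p.φ)) * xiS S₁ S₂ Rz Nx V p i j r b := by
            unfold US; ring
          rw [h2, psi_mul, hσ]
          unfold vS xiS
          push_cast
          have hl' : (1 + p.lam * (σ α:ℝ)) ≠ 0 := hl.ne'
          have e1 : ∀ z : ℝ, z = z / (1 + p.lam * (σ α:ℝ)) * (1 + p.lam * (σ α:ℝ)) := by
            intro z; field_simp
          rw [e1 (p.δ * ((j:ℝ) + p.κ * S₂.y r b))]
          ring
        rw [key]
        refine ⟨h.1, ?_⟩
        rw [h.2]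
        simp
      · by_cases hcab : c = S₁.a e ∨ c = S₁.b e
        · have hXne : S₁.X e' ≠ S₁.X e := fun h' => hee (S₁.hX h')
          have hA : S₁.s c * S₁.X e + S₁.t c - S₁.Y e = 0 := by
            rcases hcab with h' | h'
            · rw [h']; exact tie'' S₁ e
            · rw [h']; exact tie' S₁ e
          rw [hA]
          have hψ := psi_pos S₁ S₂ σ Rz Nx V p hR α
          have hD' := S₁.D_pos e'
          have hm : 0 < psi S₁ S₂ σ Rz Nx V p α * S₁.D e' := mul_pos hψ hD'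
          have hre : 0 - psi S₁ S₂ σ Rz Nx V p α * (S₁.D e' * (S₁.X e - S₁.X e')) =
            (psi S₁ S₂ σ Rz Nx V p α * S₁.D e') * (S₁.X e' - S₁.X e) := by ring
          rw [hre]
          apply ev_sign'
          · exact mul_ne_zero hm.ne' (sub_ne_zero.mpr hXne)
          · constructor
            · intro h'
              refine Or.inr (Or.inl ⟨hee, hcab, ?_⟩)
              by_contra h2
              push Not at h2
              have := mul_nonneg hm.le (sub_nonneg.mpr h2)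
              linarith
            · rintro (⟨h', -⟩ | ⟨-, -, h'⟩ | ⟨h1, h2, -⟩)
              · exact absurd h' hee
              · exact mul_neg_of_pos_of_neg hm (by linarith)
              · rcases hcab with h3 | h3
                · exact absurd h3 h1
                · exact absurd h3 h2
        · push Not at hcab
          obtain ⟨hca, hcb⟩ := hcab
          have hne := S₁.hne e c hca hcb
          have hψ := psi_pos S₁ S₂ σ Rz Nx V p hR α
          have hψ2 := psi_le S₁ S₂ σ Rz Nx V p hR α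
          have hD' := S₁.D_pos e'
          have h2 := p.hφ2 e e' (by rw [hc]; exact hca) (by rw [hc]; exact hcb)
          rw [hc] at h2
          set F := S₁.s c * S₁.X e + S₁.t c - S₁.Y e with hF
          have h2' : p.φ * (S₁.D e' * |S₁.X e - S₁.X e'|) < |F| := by
            rw [hF]; unfold Ev.Y Ev.D; rw [hc]; exact h2
          set z := psi S₁ S₂ σ Rz Nx V p α * (S₁.D e' * (S₁.X e - S₁.X e')) with hz
          have hzabs : |z| < |F| := by
            rw [hz, abs_mul, abs_mul, abs_of_pos hψ, abs_of_pos hD']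
            refine lt_of_le_of_lt ?_ h2'
            apply mul_le_mul_of_nonneg_right hψ2 (by positivity)
          have hF0 : F ≠ 0 := by
            intro h0; rw [h0, abs_zero] at hzabs; linarith [abs_nonneg z]
          have hsgn : F - z ≠ 0 ∧ (F - z < 0 ↔ F < 0) := by
            rcases lt_or_gt_of_ne hF0 with h0 | h0
            · rw [abs_of_neg h0] at hzabs
              have := (abs_lt.mp hzabs).1
              have h3 : F - z < 0 := by linarith
              exact ⟨h3.ne, by simp [h3, h0]⟩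
            · rw [abs_of_pos h0] at hzabs
              have := (abs_lt.mp hzabs).2
              have h3 : 0 < F - z := by linarith
              exact ⟨h3.ne', ⟨fun h => by linarith, fun h => by linarith⟩⟩
          apply ev_sign' hsgn.1
          rw [hsgn.2, hF, sub_neg]
          simp [hca, hcb, hee]

end

end KLev
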